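import Pool.Agent.H63.CY.RFA

/-!
# Words without a horizontal step at the minimal level

`E d t = ∑_{j ≥ 0} (-2)^j C(2d, d + t + j)`. The number of the words `w : Fin d → Bool × Bool` with `df w d = 0` which have no step with
`df w (j+1) = df w j` at the minimal level is `E d 0`.
-/

set_option autoImplicit false

open Finset

noncomputable section

namespace Pool.Agent.H85.CY3

open Pool.Agent.H63.CY

/-- the kernel: number of the words with end `t` -/
def K (d : ℕ) (t : ℤ) : ℤ := (RFA_bz (2 * d) (d + t) : ℤ)

theorem K_zero (t : ℤ) : K 0 t = if t = 0 then 1 else 0 := by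
  unfold K RFA_bz
  by_cases h : t = 0
  · subst h
    simp
  · rw [if_neg h]
    by_cases h3 : ((0 : ℕ) : ℤ) + t < 0
    · rw [if_pos h3]; simp
    · rw [if_neg h3]
      have : (2 * 0).choose (((0 : ℕ) : ℤ) + t).toNat = 0 := Nat.choose_eq_zero_of_lt (by omega)
      rw [this]; simp

theorem K_succ (d : ℕ) (t : ℤ) : K (d + 1) t = K d (t - 1) + 2 * K d t + K d (t + 1) := by
  unfold K
  rw [RFA_bz_two]
  rw [show ((d + 1 : ℕ) : ℤ) + t - 2 = d + (t - 1) by push_cast; ring,
    show ((d + 1 : ℕ) : ℤ) + t - 1 = d + t by push_cast; ring,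
    show ((d + 1 : ℕ) : ℤ) + t = d + (t + 1) by push_cast; ring]
  push_cast
  ring

/-- the alternating tail sum of the kernel -/
def E : ℕ → ℤ → ℤ
  | 0, t => if t ≤ 0 then (-2) ^ (-t).toNat else 0
  | d + 1, t => E d (t - 1) + 2 * E d t + E d (t + 1)

theorem E_zero (t : ℤ) : E 0 t = if t ≤ 0 then (-2) ^ (-t).toNat else 0 := rfl

theorem E_succ (d : ℕ) (t : ℤ) : E (d + 1) t = E d (t - 1) + 2 * E d t + E d (t + 1) := rfl

theorem E_rec (d : ℕ) : ∀ t : ℤ, E d t = K d t - 2 * E d (t + 1) := by
  induction d with
  | zero =>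
    intro t
    rw [E_zero, E_zero, K_zero]
    rcases lt_trichotomy t 0 with h | h | h
    · rw [if_pos h.le, if_neg h.ne, if_pos (by omega)]
      have : (-t).toNat = (-(t + 1)).toNat + 1 := by omega
      rw [this, pow_succ]
      ring
    · subst h
      simp
    · rw [if_neg (by omega), if_neg (by omega), if_neg (by omega)]
      ring
  | succ d ih =>
    intro t
    rw [E_succ, E_succ, K_succ, ih (t - 1), ih t, ih (t + 1)]
    rw [show t - 1 + 1 = t by ring, show t + 1 - 1 = t by ring]
    have h1 := ih t
    have h2 := ih (t + 1)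
    rw [show t + 1 + 1 = t + 1 + 1 from rfl] at h2
    linarith

theorem E_top (d : ℕ) : ∀ t : ℤ, (d : ℤ) < t → E d t = 0 := by
  induction d with
  | zero =>
    intro t ht
    rw [E_zero, if_neg]
    push_cast at ht
    omega
  | succ d ih =>
    intro t ht
    push_cast at ht
    rw [E_succ, ih _ (by omega), ih _ (by omega), ih _ (by omega)]
    ring

theorem E_sum (d N : ℕ) (t : ℤ) :
    E d t = ∑ j ∈ range N, (-2) ^ j * K d (t + j) + (-2) ^ N * E d (t + N) := by
  induction N with
  | zero => simp
  | succ N ih =>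
    rw [ih, sum_range_succ, E_rec d (t + N)]
    push_cast
    rw [show t + ((N : ℤ) + 1) = t + N + 1 by ring]
    ring

theorem K_nat (d j : ℕ) : K d j = ((2 * d).choose (d + j) : ℤ) := by
  unfold K RFA_bz
  rw [if_neg (by omega)]
  congr 2

theorem E_formula (d : ℕ) : E d 0 = ∑ j ∈ range (d + 1), (-2) ^ j * ((2 * d).choose (d + j) : ℤ) := by
  rw [E_sum d (d + 1) 0, E_top d _ (by push_cast; omega), mul_zero, add_zero]
  refine sum_congr rfl fun j _ => ?_
  rw [zero_add, K_nat]

/-- good words: end `a`, never below `-m`, no horizontal step at the level `-m` -/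
def GW (d : ℕ) (a m : ℤ) (w : Fin d → Bool × Bool) : Prop :=
  df w d = a ∧ (∀ j ≤ d, -m ≤ df w j) ∧ ∀ j < d, df w (j + 1) = df w j → df w j ≠ -m

theorem GW_cons {d : ℕ} {a m : ℤ} (hm : 0 ≤ m) (x : Bool × Bool) (w : Fin d → Bool × Bool) :
    GW (d + 1) a m (Fin.cons x w : Fin (d + 1) → Bool × Bool) ↔
      GW d (a - RFA_st x) (m + RFA_st x) w ∧ (RFA_st x = 0 → m ≠ 0) := by
  unfold GW
  constructor
  · rintro ⟨h1, h2, h3⟩
    refine ⟨⟨?_, ?_, ?_⟩, ?_⟩
    · rw [RFA_df_succ] at h1
      linarith
    · intro j hj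
      have := h2 (j + 1) (by omega)
      rw [RFA_df_succ] at this
      linarith
    · intro j hj h4 h5
      refine h3 (j + 1) (by omega) ?_ ?_
      · rw [RFA_df_succ, RFA_df_succ, h4]
      · rw [RFA_df_succ, h5]
        ring
    · intro hx h0
      refine h3 0 (by omega) ?_ ?_
      · rw [RFA_df_succ, RFA_df_zero, RFA_df_zero, hx]
        ring
      · rw [RFA_df_zero, h0]
        ring
  · rintro ⟨⟨h1, h2, h3⟩, h4⟩
    refine ⟨?_, ?_, ?_⟩
    · rw [RFA_df_succ]
      linarith
    · intro j hj
      rcases j with _ | j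
      · rw [RFA_df_zero]
        linarith
      · rw [RFA_df_succ]
        have := h2 j (by omega)
        linarith
    · intro j hj h5 h6
      rcases j with _ | j
      · rw [RFA_df_succ, RFA_df_zero, RFA_df_zero] at h5
        rw [RFA_df_zero] at h6
        exact h4 (by linarith) (by linarith)
      · rw [RFA_df_succ, RFA_df_succ] at h5
        rw [RFA_df_succ] at h6
        exact h3 j (by omega) (by linarith) (by linarith)

open Classical in
/-- the number of the good words -/
theorem GW_card (d : ℕ) : ∀ a m : ℤ, 0 ≤ m → 0 ≤ a + m →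
    (((univ : Finset (Fin d → Bool × Bool)).filter (GW d a m)).card : ℤ) =
      K d a - 2 * E d (a + 2 * m + 1) - E d (a + 2 * m + 2) := by
  induction d with
  | zero =>
    intro a m hm ha
    rw [E_top 0 _ (by push_cast; omega), E_top 0 _ (by push_cast; omega), K_zero]
    by_cases h : a = 0
    · subst h
      have : (univ : Finset (Fin 0 → Bool × Bool)).filter (GW 0 0 m) = univ := by
        rw [filter_eq_self]
        intro w _
        refine ⟨RFA_df_zero w, ?_, ?_⟩
        · intro j hj
          obtain rfl : j = 0 := by omega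
          rw [RFA_df_zero]
          omega
        · intro j hj
          omega
      rw [this]
      simp
    · have : (univ : Finset (Fin 0 → Bool × Bool)).filter (GW 0 a m) = ∅ := by
        rw [filter_eq_empty_iff]
        rintro w _ ⟨h1, _⟩
        rw [RFA_df_zero] at h1
        exact h h1.symm
      rw [this, if_neg h]
      simp
  | succ d ih =>
    intro a m hm ha
    rw [RFA_card]
    rw [Fintype.sum_prod_type]
    simp only [Fintype.sum_bool]
    have hc : ∀ x : Bool × Bool, (RFA_st x = 0 → m ≠ 0) → ((univ : Finset (Fin d → Bool × Bool)).filter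
        (fun w => GW (d + 1) a m (Fin.cons x w : Fin (d + 1) → Bool × Bool))) =
        (univ : Finset (Fin d → Bool × Bool)).filter (GW d (a - RFA_st x) (m + RFA_st x)) := by
      intro x hx
      refine Finset.filter_congr fun w _ => ?_
      rw [GW_cons hm]
      exact ⟨fun h => h.1, fun h => ⟨h, hx⟩⟩
    have hz : ∀ x : Bool × Bool, (RFA_st x = 0 ∧ m = 0) ∨ m + RFA_st x < 0 → ((univ : Finset (Fin d → Bool × Bool)).filter
        (fun w => GW (d + 1) a m (Fin.cons x w : Fin (d + 1) → Bool × Bool))) = ∅ := by
      intro x hx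
      rw [filter_eq_empty_iff]
      intro w _ h
      rw [GW_cons hm] at h
      rcases hx with hx | hx
      · exact h.2 hx.1 hx.2
      · have := h.1.2.1 0 (by omega)
        rw [RFA_df_zero] at this
        omega
    have s1 : RFA_st (true, true) = 0 := by simp [RFA_st]
    have s2 : RFA_st (true, false) = 1 := by simp [RFA_st]
    have s3 : RFA_st (false, true) = -1 := by simp [RFA_st]
    have s4 : RFA_st (false, false) = 0 := by simp [RFA_st]
    rw [K_succ, E_succ, E_succ]
    rcases hm.eq_or_lt with h0 | h0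
    · subst h0
      rw [hz (true, true) (Or.inl ⟨s1, rfl⟩), hz (false, false) (Or.inl ⟨s4, rfl⟩),
        hz (false, true) (Or.inr (by rw [s3]; norm_num)), hc (true, false) (by rw [s2]; norm_num), s2]
      have h := ih (a - 1) 1 (by norm_num) (by linarith)
      have e1 := E_rec d a
      have e2 := E_rec d (a + 1)
      have e3 := E_rec d (a + 1 + 1)
      rw [show a - 1 + 2 * 1 + 1 = a + 1 + 1 by ring, show a - 1 + 2 * 1 + 2 = a + 1 + 1 + 1 by ring] at h
      simp only [card_empty, zero_add, add_zero, mul_zero]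
      rw [show a + 1 - 1 = a by ring, show a + 2 - 1 = a + 1 by ring, show a + 2 = a + 1 + 1 by ring]
      have h' : (((univ : Finset (Fin d → Bool × Bool)).filter (fun x => GW d (a - 1) 1 x)).card : ℤ) =
          K d (a - 1) - 2 * E d (a + 1 + 1) - E d (a + 1 + 1 + 1) := h
      rw [h']
      linarith
    · rw [hc (true, true) (fun _ => by omega), hc (true, false) (fun _ => by omega), hc (false, true) (fun _ => by omega),
        hc (false, false) (fun _ => by omega), s1, s2, s3, s4]
      push_cast
      rw [ih (a - 0) (m + 0) (by omega) (by omega), ih (a - 1) (m + 1) (by omega) (by omega),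
        ih (a - -1) (m + -1) (by omega) (by omega)]
      rw [show a - 0 = a by ring, show m + 0 = m by ring, show a - -1 = a + 1 by ring,
        show a - 1 + 2 * (m + 1) + 1 = a + 2 * m + 2 by ring, show a - 1 + 2 * (m + 1) + 2 = a + 2 * m + 3 by ring,
        show a + 1 + 2 * (m + -1) + 1 = a + 2 * m by ring, show a + 1 + 2 * (m + -1) + 2 = a + 2 * m + 1 by ring,
        show a + 2 * m + 1 - 1 = a + 2 * m by ring, show a + 2 * m + 1 + 1 = a + 2 * m + 2 by ring,
        show a + 2 * m + 2 - 1 = a + 2 * m + 1 by ring, show a + 2 * m + 2 + 1 = a + 2 * m + 3 by ring]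
      ring

end Pool.Agent.H85.CY3
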