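import Pool.Agent.H85.CY3.A
import Pool.Agent.H63.CY.RFB

/-!
# Closed words without a horizontal step at the minimal level, and their relation with the counting functions
-/

set_option autoImplicit false

open Finset

noncomputable section

namespace Pool.Agent.H85.CY3

open Pool.Agent.H63.CY

/-- every horizontal step is above the minimum -/
def NH {d : ℕ} (w : Fin d → Bool × Bool) : Prop := ∀ j < d, df w (j + 1) = df w j → ∃ k ≤ d, df w k < df w j

theorem df_ge {d : ℕ} (w : Fin d → Bool × Bool) (j : ℕ) : -(d : ℤ) ≤ df w j := by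
  rw [RFB_df]
  have h1 := RFB_ct_nonneg (fun c => (w c).1) j
  have h2 := RFB_ct_le (fun c => (w c).2) j
  omega

theorem K_symm (d : ℕ) (t : ℤ) : K d (-t) = K d t := by
  unfold K
  rw [RFA_bz_symm d t, sub_eq_add_neg]

open Classical in
/-- the words with floor `-m` -/
theorem NH_floor (d : ℕ) : ∀ m : ℕ, (((univ : Finset (Fin d → Bool × Bool)).filter
    (fun w => df w d = 0 ∧ NH w ∧ ∀ j ≤ d, -(m : ℤ) ≤ df w j)).card : ℤ) = E d 0 - E d (2 * m + 2) := by
  intro m
  induction m with
  | zero =>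
    have h : (univ : Finset (Fin d → Bool × Bool)).filter
        (fun w => df w d = 0 ∧ NH w ∧ ∀ j ≤ d, -((0 : ℕ) : ℤ) ≤ df w j) =
        (univ : Finset (Fin d → Bool × Bool)).filter (GW d 0 0) := by
      refine Finset.filter_congr fun w _ => ?_
      unfold GW NH
      constructor
      · rintro ⟨h1, h2, h3⟩
        refine ⟨h1, fun j hj => by simpa using h3 j hj, fun j hj h4 h5 => ?_⟩
        obtain ⟨k, hk, h6⟩ := h2 j hj h4
        have h7 := h3 k hk
        simp only [Nat.cast_zero, neg_zero] at h5 h7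
        omega
      · rintro ⟨h1, h2, h3⟩
        refine ⟨h1, fun j hj h4 => ⟨0, Nat.zero_le _, ?_⟩, fun j hj => by simpa using h2 j hj⟩
        have h5 := h3 j hj h4
        have h6 := h2 j hj.le
        rw [RFA_df_zero]
        simp only [neg_zero] at h5 h6
        omega
    rw [h, GW_card d 0 0 le_rfl (by norm_num)]
    have e := E_rec d 0
    simp only [Nat.cast_zero, mul_zero, zero_add, add_zero] at e ⊢
    linarith
  | succ m ih =>
    have hX : ((univ : Finset (Fin d → Bool × Bool)).filter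
        (fun w => df w d = 0 ∧ NH w ∧ ∀ j ≤ d, -((m + 1 : ℕ) : ℤ) ≤ df w j)).card =
        ((univ : Finset (Fin d → Bool × Bool)).filter (fun w => df w d = 0 ∧ NH w ∧ ∀ j ≤ d, -(m : ℤ) ≤ df w j)).card +
        ((univ : Finset (Fin d → Bool × Bool)).filter (fun w => (df w d = 0 ∧ NH w ∧ ∀ j ≤ d, -((m + 1 : ℕ) : ℤ) ≤ df w j) ∧
          ∃ j ≤ d, df w j ≤ -((m + 1 : ℕ) : ℤ))).card := by
      rw [← card_union_of_disjoint]
      · congr 1
        ext w
        simp only [mem_filter, mem_univ, true_and, mem_union]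
        constructor
        · rintro ⟨h1, h2, h3⟩
          by_cases h : ∃ j ≤ d, df w j ≤ -((m + 1 : ℕ) : ℤ)
          · exact Or.inr ⟨⟨h1, h2, h3⟩, h⟩
          · push Not at h
            refine Or.inl ⟨h1, h2, fun j hj => ?_⟩
            have := h j hj
            push_cast at this
            omega
        · rintro (⟨h1, h2, h3⟩ | ⟨h, _⟩)
          · refine ⟨h1, h2, fun j hj => ?_⟩
            have := h3 j hj
            push_cast
            omega
          · exact h
      · rw [disjoint_left]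
        intro w hw hw'
        simp only [mem_filter, mem_univ, true_and] at hw hw'
        obtain ⟨j, hj, h⟩ := hw'.2
        have := hw.2.2 j hj
        push_cast at h
        omega
    have hY : ((univ : Finset (Fin d → Bool × Bool)).filter (GW d 0 ((m + 1 : ℕ) : ℤ))).card +
        ((univ : Finset (Fin d → Bool × Bool)).filter (fun w => df w d = 0 ∧ ∃ j ≤ d, df w j ≤ -((m + 1 : ℕ) : ℤ))).card =
        ((univ : Finset (Fin d → Bool × Bool)).filter (fun w => df w d = 0)).card +
        ((univ : Finset (Fin d → Bool × Bool)).filter (fun w => (df w d = 0 ∧ NH w ∧ ∀ j ≤ d, -((m + 1 : ℕ) : ℤ) ≤ df w j) ∧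
          ∃ j ≤ d, df w j ≤ -((m + 1 : ℕ) : ℤ))).card := by
      have h1 : (univ : Finset (Fin d → Bool × Bool)).filter (GW d 0 ((m + 1 : ℕ) : ℤ)) =
          (univ : Finset (Fin d → Bool × Bool)).filter (fun w => df w d = 0 ∧ ¬ ∃ j ≤ d, df w j ≤ -((m + 1 : ℕ) : ℤ)) ∪
          (univ : Finset (Fin d → Bool × Bool)).filter (fun w => (df w d = 0 ∧ NH w ∧ ∀ j ≤ d, -((m + 1 : ℕ) : ℤ) ≤ df w j) ∧
          ∃ j ≤ d, df w j ≤ -((m + 1 : ℕ) : ℤ)) := by
        ext w
        simp only [mem_filter, mem_univ, true_and, mem_union, GW, NH]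
        constructor
        · rintro ⟨h1, h2, h3⟩
          by_cases h : ∃ j ≤ d, df w j ≤ -((m + 1 : ℕ) : ℤ)
          · refine Or.inr ⟨⟨h1, fun j hj h4 => ?_, h2⟩, h⟩
            obtain ⟨k, hk, h5⟩ := h
            have h6 := h3 j hj h4
            have h7 := h2 j hj.le
            refine ⟨k, hk, ?_⟩
            omega
          · exact Or.inl ⟨h1, h⟩
        · rintro (⟨h1, h2⟩ | ⟨⟨h1, h2, h3⟩, h4⟩)
          · push Not at h2
            refine ⟨h1, fun j hj => (h2 j hj).le, fun j hj _ h5 => ?_⟩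
            have := h2 j hj.le
            omega
          · refine ⟨h1, h3, fun j hj h5 h6 => ?_⟩
            obtain ⟨k, hk, h7⟩ := h2 j hj h5
            have := h3 k hk
            omega
      have h2 : (univ : Finset (Fin d → Bool × Bool)).filter (fun w => df w d = 0) =
          (univ : Finset (Fin d → Bool × Bool)).filter (fun w => df w d = 0 ∧ ¬ ∃ j ≤ d, df w j ≤ -((m + 1 : ℕ) : ℤ)) ∪
          (univ : Finset (Fin d → Bool × Bool)).filter (fun w => df w d = 0 ∧ ∃ j ≤ d, df w j ≤ -((m + 1 : ℕ) : ℤ)) := by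
        ext w
        simp only [mem_filter, mem_univ, true_and, mem_union]
        tauto
      rw [h1, h2, card_union_of_disjoint, card_union_of_disjoint]
      · ring
      · rw [disjoint_left]
        intro w hw hw'
        simp only [mem_filter, mem_univ, true_and] at hw hw'
        exact hw.2 hw'.2
      · rw [disjoint_left]
        intro w hw hw'
        simp only [mem_filter, mem_univ, true_and] at hw hw'
        exact hw.2 hw'.2
    have h1 := GW_card d 0 ((m + 1 : ℕ) : ℤ) (by positivity) (by positivity)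
    have h2 : (((univ : Finset (Fin d → Bool × Bool)).filter (fun w => df w d = 0 ∧ ∃ j ≤ d, df w j ≤ -((m + 1 : ℕ) : ℤ))).card : ℤ)
        = K d (2 * ((m + 1 : ℕ) : ℤ)) := by
      rw [RFA_refl d 0 ((m + 1 : ℕ) : ℤ) (by positivity) (by omega), ← K_symm]
      unfold K
      congr 2

    have h3 : (((univ : Finset (Fin d → Bool × Bool)).filter (fun w => df w d = 0)).card : ℤ) = K d 0 := by
      rw [RFA_end]
      rfl
    have h4 : (((univ : Finset (Fin d → Bool × Bool)).filter (GW d 0 ((m + 1 : ℕ) : ℤ))).card : ℤ) +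
        (((univ : Finset (Fin d → Bool × Bool)).filter (fun w => df w d = 0 ∧ ∃ j ≤ d, df w j ≤ -((m + 1 : ℕ) : ℤ))).card : ℤ) =
        (((univ : Finset (Fin d → Bool × Bool)).filter (fun w => df w d = 0)).card : ℤ) +
        (((univ : Finset (Fin d → Bool × Bool)).filter (fun w => (df w d = 0 ∧ NH w ∧ ∀ j ≤ d, -((m + 1 : ℕ) : ℤ) ≤ df w j) ∧
          ∃ j ≤ d, df w j ≤ -((m + 1 : ℕ) : ℤ))).card : ℤ) := by
      exact_mod_cast hY
    rw [hX, Nat.cast_add, ih]
    rw [h1, h2, h3] at h4
    have e := E_rec d (2 * ((m + 1 : ℕ) : ℤ))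
    push_cast at h4 e ⊢
    rw [show (0 : ℤ) + 2 * ((m : ℤ) + 1) + 1 = 2 * (m + 1) + 1 by ring, show (0 : ℤ) + 2 * ((m : ℤ) + 1) + 2 = 2 * (m + 1) + 2 by ring] at h4
    rw [show 2 * (m : ℤ) + 2 = 2 * (m + 1) by ring]
    linarith

open Classical in
/-- the number of the closed words without a horizontal step at the minimum -/
theorem NH_card (d : ℕ) : (((univ : Finset (Fin d → Bool × Bool)).filter (fun w => df w d = 0 ∧ NH w)).card : ℤ) = E d 0 := by
  have h := NH_floor d d
  rw [E_top d (2 * (d : ℤ) + 2) (by omega), sub_zero] at h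
  rw [← h]
  congr 2
  refine Finset.filter_congr fun w _ => ?_
  exact ⟨fun h => ⟨h.1, h.2, fun j _ => df_ge w j⟩, fun h => ⟨h.1, h.2.1⟩⟩

/-- sums over pairs of counting functions are sums over closed words -/
theorem sum_words {d : ℕ} (hd : 1 ≤ d) (Φ : (Fin d → Bool × Bool) → ℤ) :
    ∑ p ∈ range (d + 1), ∑ U ∈ L0 d p, ∑ V ∈ L0 d p, Φ (fun c => (RFB_w d U c, RFB_w d V c)) =
    ∑ w ∈ (univ : Finset (Fin d → Bool × Bool)).filter (fun w => df w d = 0), Φ w := by
  have h1 : ∀ p ∈ range (d + 1), ∑ U ∈ L0 d p, ∑ V ∈ L0 d p, Φ (fun c => (RFB_w d U c, RFB_w d V c)) =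
      ∑ s ∈ (univ : Finset (Fin d → Bool)).filter (fun s => RFB_n s = p),
        ∑ t ∈ (univ : Finset (Fin d → Bool)).filter (fun t => RFB_n t = RFB_n s), Φ (fun c => (s c, t c)) := by
    intro p _
    have e1 : ∀ U ∈ L0 d p, ∑ V ∈ L0 d p, Φ (fun c => (RFB_w d U c, RFB_w d V c)) =
        ∑ t ∈ (univ : Finset (Fin d → Bool)).filter (fun t => RFB_n t = p), Φ (fun c => (RFB_w d U c, t c)) := by
      intro U _
      rw [← RFB_sum hd p (fun t => Φ (fun c => (RFB_w d U c, t c)))]
    rw [sum_congr rfl e1, RFB_sum hd p (fun s => ∑ t ∈ (univ : Finset (Fin d → Bool)).filter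
      (fun t => RFB_n t = p), Φ (fun c => (s c, t c)))]
    refine sum_congr rfl fun s hs => ?_
    rw [mem_filter] at hs
    rw [hs.2]
  rw [sum_congr rfl h1, sum_fiberwise_of_maps_to (fun s _ => mem_range.mpr (Nat.lt_succ_of_le (RFB_n_le s)))]
  rw [sum_filter, ← Equiv.sum_comp (Equiv.arrowProdEquivProdArrow (Fin d) (fun _ => Bool) (fun _ => Bool)).symm,
    Fintype.sum_prod_type]
  refine sum_congr rfl fun s _ => ?_
  rw [sum_filter]
  refine sum_congr rfl fun t _ => ?_
  have e : df ((Equiv.arrowProdEquivProdArrow (Fin d) (fun _ => Bool) (fun _ => Bool)).symm (s, t)) d =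
      (RFB_n s : ℤ) - RFB_n t := by
    rw [RFB_df, ← RFB_ct_d, ← RFB_ct_d]
    rfl
  rw [e]
  have e2 : (RFB_n t = RFB_n s) ↔ ((RFB_n s : ℤ) - RFB_n t = 0) := by omega
  simp only [e2]
  rfl

/-- the same with the components exchanged -/
theorem sum_words' {d : ℕ} (hd : 1 ≤ d) (Φ : (Fin d → Bool × Bool) → ℤ) :
    ∑ p ∈ range (d + 1), ∑ U ∈ L0 d p, ∑ V ∈ L0 d p, Φ (fun c => (RFB_w d V c, RFB_w d U c)) =
    ∑ w ∈ (univ : Finset (Fin d → Bool × Bool)).filter (fun w => df w d = 0), Φ w := by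
  rw [← sum_words hd]
  refine sum_congr rfl fun p _ => ?_
  rw [sum_comm]

end Pool.Agent.H85.CY3
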