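import Pool.Agent.H63.CY.CTC

/-!
# The maximum for `n = r mod d` and the number of the pairs of counting functions
-/

set_option autoImplicit false

open Finset

noncomputable section

namespace Pool.Agent.H85.CY3

open Pool.Agent.H63.CY

/-- the maximum of `U i - V (x_n(i))` -/
def mxx (d : ℕ) (n : ℤ) (U V : ℤ → ℤ) : ℤ := mx d (fun i => U i - V (CTC_x n U i))

theorem mxx_le {d p : ℕ} (hd : 1 ≤ d) (n : ℤ) {U V : ℤ → ℤ} (hU : U ∈ LF0 d p) (hV : V ∈ LF0 d p) (h : ℤ) :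
    mxx d n U V ≤ h ↔ ∀ i, U i - V (CTC_x n U i) ≤ h :=
  mx_le hd (CTC_per n hU hV) h

theorem LF_mul {d p : ℕ} {U : ℤ → ℤ} (hU : U ∈ LF d p) (i : ℤ) (e : ℕ) : U (i + (e * d : ℕ)) = U i + e * p := by
  induction e with
  | zero => simp
  | succ e ih =>
    have h : i + (((e + 1) * d : ℕ) : ℤ) = i + ((e * d : ℕ) : ℤ) + d := by push_cast; ring
    rw [h, hU.2, ih]
    push_cast
    ring

theorem LF_mulV {d p : ℕ} (hp' : p ≤ d) {U : ℤ → ℤ} (hU : U ∈ LF d p) (i r : ℤ) (e : ℕ) :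
    i + (((e * d : ℕ) : ℤ) + r) - (U (i + (((e * d : ℕ) : ℤ) + r)) - U i) = CTC_x r U i + ((e * (d - p) : ℕ) : ℤ) := by
  have h : i + (((e * d : ℕ) : ℤ) + r) = i + r + ((e * d : ℕ) : ℤ) := by ring
  rw [h, LF_mul hU]
  unfold CTC_x
  rw [Nat.cast_mul e (d - p), Nat.cast_sub hp']
  push_cast
  ring

/-- the count for `n = e d + r` with the shift carried out -/
theorem GP_shift {n d p e : ℕ} {r : ℤ} (hn' : (n : ℤ) = ((e * d : ℕ) : ℤ) + r) (hn : d ≤ n) (hp : 1 ≤ p) (hp' : p + 1 ≤ d) :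
    ((GP n d p).ncard : ℤ) = ∑ U ∈ L0 d p, ∑ V ∈ L0 d p, (mn d (fun i => U i - V (i + 1)) + 1 - mxx d r U V) +
      (e * (d - p) : ℕ) * (d - 1).choose (p - 1) * d.choose p := by
  have hd : 1 ≤ d := by omega
  rw [GP_count hd hn hp hp']
  have key : ∀ U ∈ L0 d p, ∑ V ∈ L0 d p,
      (mn d (fun i => U i - V (i + 1)) + 1 - mx d (fun i => U i - V (i + n - (U (i + n) - U i)))) =
      ∑ V ∈ L0 d p, (mn d (fun i => U i - V (i + 1)) + 1 - mxx d r U V) +
        ((e * (d - p) : ℕ) : ℤ) * (d - 1).choose (p - 1) := by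
    intro U hU
    have hU' := (mem_L0 hd).1 hU
    have e1 : ∀ V ∈ L0 d p,
        mx d (fun i => U i - V (i + n - (U (i + n) - U i))) =
        mxx d r U (rot ((e * (d - p) : ℕ) : ℤ) V) - V ((e * (d - p) : ℕ) : ℤ) := by
      intro V hV
      have hV' := (mem_L0 hd).1 hV
      unfold mxx
      rw [← CTC_mx_sub hd (CTC_per r hU' (rot_mem hV' _))]
      congr 1
      funext i
      rw [hn', LF_mulV (by omega) hU'.1]
      unfold rot
      ring
    have e2 := sum_rot (p := p) hd ((e * (d - p) : ℕ) : ℤ) (fun V => mxx d r U V)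
    have e3 := sum_at (p := p) hd hp (e * (d - p))
    rw [Finset.sum_sub_distrib, Finset.sum_congr rfl e1, Finset.sum_sub_distrib, e2, e3,
      Finset.sum_sub_distrib]
    ring
  rw [Finset.sum_congr rfl key, Finset.sum_add_distrib, Finset.sum_const, card_L0 hd, nsmul_eq_mul]
  ring

/-- comparison of two residues -/
theorem GP_diff {n m d p e : ℕ} {r s : ℤ} (hn' : (n : ℤ) = ((e * d : ℕ) : ℤ) + r) (hm' : (m : ℤ) = ((e * d : ℕ) : ℤ) + s)
    (hn : d ≤ n) (hm : d ≤ m) (hp : 1 ≤ p) (hp' : p + 1 ≤ d) :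
    ((GP n d p).ncard : ℤ) = (GP m d p).ncard + ∑ U ∈ L0 d p, ∑ V ∈ L0 d p, (mxx d s U V - mxx d r U V) := by
  rw [GP_shift hn' hn hp hp', GP_shift hm' hm hp hp']
  simp only [Finset.sum_sub_distrib, Finset.sum_add_distrib]
  ring

end Pool.Agent.H85.CY3
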