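import Pool.Agent.H85.CY3.B
import Pool.Agent.H85.CY3.C

/-!
# The residue 1: the maximum drops exactly when there is no horizontal step at the maximum
-/

set_option autoImplicit false

open Finset

noncomputable section

namespace Pool.Agent.H85.CY3

open Pool.Agent.H63.CY

theorem mxx_zero (d : ℕ) (U V : ℤ → ℤ) : mxx d 0 U V = mx d (fun i => U i - V i) := by
  unfold mxx CTC_x
  congr 1
  funext i
  rw [add_zero]
  congr 2
  ring

/-- properties of the maximum of a periodic function -/
theorem mx_spec {d : ℕ} (hd : 1 ≤ d) {f : ℤ → ℤ} (hf : ∀ i, f (i + d) = f i) :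
    (∀ i, f i ≤ mx d f) ∧ ∃ i, f i = mx d f := by
  have h := mx_le hd hf (mx d f)
  refine ⟨h.1 le_rfl, ?_⟩
  by_contra hc
  push Not at hc
  have h2 := (mx_le hd hf (mx d f - 1)).2 (fun i => by
    have h3 := h.1 le_rfl i
    have h4 := hc i
    omega)
  omega

/-- every value is taken on the first period -/
theorem per_red {d : ℕ} (hd : 1 ≤ d) {f : ℤ → ℤ} (hf : ∀ i, f (i + d) = f i) (i : ℤ) :
    ∃ j : ℕ, j < d ∧ f j = f i ∧ f ((j : ℤ) + 1) = f (i + 1) := by
  have hd' : (0 : ℤ) < d := by exact_mod_cast hd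
  have h1 := Int.emod_nonneg i hd'.ne'
  have h2 := Int.emod_lt_of_pos i hd'
  have h3 := Int.emod_add_mul_ediv i d
  have key : ∀ a k : ℤ, f (a + d * k) = f a := by
    intro a k
    induction k using Int.induction_on with
    | zero => simp
    | succ k ih =>
      have e : a + (d : ℤ) * ((k : ℤ) + 1) = a + d * (k : ℤ) + d := by ring
      rw [e, hf, ih]
    | pred k ih =>
      have h := hf (a + d * (-(k : ℤ) - 1))
      have e : a + (d : ℤ) * (-(k : ℤ) - 1) + d = a + d * (-(k : ℤ)) := by ring
      rw [e, ih] at h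
      exact h.symm
  obtain ⟨j, hj⟩ := Int.eq_ofNat_of_zero_le h1
  refine ⟨j, by omega, ?_, ?_⟩
  · rw [← h3, key, hj]
  · rw [← h3, show i % d + (d : ℤ) * (i / d) + 1 = i % d + 1 + d * (i / d) by ring, key, hj]

theorem df_pair {d p : ℕ} {U V : ℤ → ℤ} (hU : U ∈ LF0 d p) (hV : V ∈ LF0 d p) (j : ℕ) (hj : j ≤ d) :
    df (fun c => (RFB_w d V c, RFB_w d U c)) j = V j - U j := by
  rw [RFB_df, RFB_val hU j hj, RFB_val hV j hj]

open Classical in
/-- the residue 1 -/
theorem mxx_one {d p : ℕ} (hd : 1 ≤ d) {U V : ℤ → ℤ} (hU : U ∈ LF0 d p) (hV : V ∈ LF0 d p) :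
    mxx d 0 U V - mxx d 1 U V = if NH (fun c => (RFB_w d V c, RFB_w d U c)) then 1 else 0 := by
  set F : ℤ → ℤ := fun i => U i - V i with hF
  have hper : ∀ i, F (i + d) = F i := fun i => CTC_per0 hU hV i
  obtain ⟨hM1, i0, hi0⟩ := mx_spec hd hper
  set M := mx d F with hM
  have hx0 : mxx d 0 U V = M := mxx_zero d U V
  have hG := mxx_le hd 1 hU hV
  have hFi : ∀ i, F i = U i - V i := fun i => rfl
  have hc : ∀ i, (U (i + 1) = U i + 1 ∧ U i - V (CTC_x 1 U i) = F i) ∨ (U (i + 1) = U i ∧ U i - V (CTC_x 1 U i) = F (i + 1)) := by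
    intro i
    have h1 := hU.1.1 i
    rcases (by omega : U (i + 1) = U i + 1 ∨ U (i + 1) = U i) with h | h
    · left
      refine ⟨h, ?_⟩
      unfold CTC_x
      rw [h, hFi]
      congr 2
      ring
    · right
      refine ⟨h, ?_⟩
      unfold CTC_x
      rw [h, hFi, h]
      congr 2
      ring
  have hle : mxx d 1 U V ≤ M := by
    rw [hG]
    intro i
    rcases hc i with ⟨_, h⟩ | ⟨_, h⟩
    · rw [h]; exact hM1 i
    · rw [h]; exact hM1 (i + 1)
  have hge : M - 1 ≤ mxx d 1 U V := by
    have h1 := (hG _).1 le_rfl i0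
    have h2 := hV.1.1 i0
    rcases hc i0 with ⟨_, h⟩ | ⟨h3, h⟩
    · rw [h, hi0] at h1; omega
    · rw [h] at h1
      have h4 := hFi (i0 + 1)
      have h5 := hFi i0
      rw [hi0] at h5
      omega
  -- a horizontal step at the maximum
  have hiff : (∃ i, F i = M ∧ F (i + 1) = M) ↔ mxx d 1 U V = M := by
    constructor
    · rintro ⟨i, h1, h2⟩
      have h3 := (hG _).1 le_rfl i
      rcases hc i with ⟨_, h⟩ | ⟨_, h⟩
      · rw [h, h1] at h3; omega
      · rw [h, h2] at h3; omega
    · intro h1
      by_contra hcon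
      push Not at hcon
      have h2 : mxx d 1 U V ≤ M - 1 := by
        rw [hG]
        intro i
        have h3 := hcon i
        have h4 := hM1 i
        have h5 := hM1 (i + 1)
        have h6 := hFi i
        have h7 := hFi (i + 1)
        have h8 := hV.1.1 i
        rcases hc i with ⟨h9, h⟩ | ⟨h9, h⟩
        · rw [h]
          by_contra h10
          have h11 : F i = M := by omega
          exact h3 h11 (by omega)
        · rw [h]
          by_contra h10
          have h11 : F (i + 1) = M := by omega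
          exact h3 (by omega) h11
      omega
  have hNH : NH (fun c => (RFB_w d V c, RFB_w d U c)) ↔ ¬ ∃ i, F i = M ∧ F (i + 1) = M := by
    constructor
    · rintro h ⟨i, h1, h2⟩
      obtain ⟨j, hj, h3, h4⟩ := per_red hd hper i
      have h5 := df_pair hU hV j hj.le
      have h6 := df_pair hU hV (j + 1) hj
      have h7 := hFi j
      have h8 := hFi ((j : ℤ) + 1)
      push_cast at h6
      obtain ⟨k, hk, h9⟩ := h j hj (by rw [h5, h6]; omega)
      rw [df_pair hU hV k hk, h5] at h9
      have h10 := hM1 k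
      have h11 := hFi k
      omega
    · intro h j hj h1
      by_contra hcon
      push Not at hcon
      apply h
      have h5 := df_pair hU hV j hj.le
      have h6 := df_pair hU hV (j + 1) hj
      push_cast at h6
      have h7 := hFi j
      have h8 := hFi ((j : ℤ) + 1)
      obtain ⟨k, hk, h9, _⟩ := per_red hd hper i0
      have h10 := hcon k hk.le
      rw [df_pair hU hV k hk.le, h5] at h10
      have h11 := hFi k
      have h12 := hM1 j
      rw [h5, h6] at h1
      exact ⟨j, by omega, by omega⟩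
  rw [hx0]
  by_cases h : NH (fun c => (RFB_w d V c, RFB_w d U c))
  · rw [if_pos h]
    have h1 := hNH.1 h
    rw [hiff] at h1
    omega
  · rw [if_neg h]
    have h1 : ∃ i, F i = M ∧ F (i + 1) = M := by
      by_contra hcon
      exact h (hNH.2 hcon)
    rw [hiff] at h1
    omega

/-- the sum over all pairs for the residue 1 -/
theorem sum_one' {d : ℕ} (hd : 1 ≤ d) :
    ∑ p ∈ range (d + 1), ∑ U ∈ L0 d p, ∑ V ∈ L0 d p, (mxx d 0 U V - mxx d 1 U V) = E d 0 := by
  classical
  rw [← NH_card, Finset.card_filter]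
  push_cast
  have h := sum_words' hd (fun w => if NH w then (1 : ℤ) else 0)
  rw [sum_filter] at h
  have h2 : ∑ w : Fin d → Bool × Bool, (if df w d = 0 ∧ NH w then (1 : ℤ) else 0) =
      ∑ w : Fin d → Bool × Bool, (if df w d = 0 then (if NH w then (1 : ℤ) else 0) else 0) := by
    refine sum_congr rfl fun w _ => ?_
    by_cases h1 : df w d = 0
    · simp [h1]
    · simp [h1]
  rw [h2, ← h]
  refine sum_congr rfl fun p _ => sum_congr rfl fun U hU => sum_congr rfl fun V hV => ?_
  exact mxx_one hd ((mem_L0 hd).1 hU) ((mem_L0 hd).1 hV)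

end Pool.Agent.H85.CY3
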