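import Pool.Agent.H85.CY3.B

/-!
# Linear words without the pattern `ff, tt` at the floor
-/

set_option autoImplicit false

open Finset

noncomputable section

namespace Pool.Agent.H85.CY3

open Pool.Agent.H63.CY

/-- coefficients of `1 / (1 + 2 q + 2 q^2)` -/
def cj : ℕ → ℤ
  | 0 => 1
  | 1 => -2
  | n + 2 => -2 * cj (n + 1) - 2 * cj n

/-- the kernel `J d t = ∑ c_j K d (t + j)` -/
def J : ℕ → ℤ → ℤ
  | 0, t => if t ≤ 0 then cj (-t).toNat else 0
  | d + 1, t => J d (t - 1) + 2 * J d t + J d (t + 1)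

theorem J_zero (t : ℤ) : J 0 t = if t ≤ 0 then cj (-t).toNat else 0 := rfl

theorem J_succ (d : ℕ) (t : ℤ) : J (d + 1) t = J d (t - 1) + 2 * J d t + J d (t + 1) := rfl

theorem J_rec (d : ℕ) : ∀ t : ℤ, J d t + 2 * J d (t + 1) + 2 * J d (t + 2) = K d t := by
  induction d with
  | zero =>
    intro t
    rw [J_zero, J_zero, J_zero, K_zero]
    rcases lt_trichotomy t 0 with h | h | h
    · rcases (by omega : t = -1 ∨ t ≤ -2) with h1 | h1
      · subst h1
        decide
      · rw [if_pos h.le, if_neg h.ne, if_pos (by omega), if_pos (by omega)]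
        obtain ⟨n, hn⟩ : ∃ n : ℕ, (-(t + 2)).toNat = n := ⟨_, rfl⟩
        have e1 : (-t).toNat = n + 2 := by omega
        have e2 : (-(t + 1)).toNat = n + 1 := by omega
        rw [hn, e1, e2]
        show (-2 * cj (n + 1) - 2 * cj n) + 2 * cj (n + 1) + 2 * cj n = 0
        ring
    · subst h
      decide
    · rw [if_neg (by omega), if_neg (by omega), if_neg (by omega), if_neg (by omega)]
      ring
  | succ d ih =>
    intro t
    rw [J_succ, J_succ, J_succ, K_succ, ← ih (t - 1), ← ih t, ← ih (t + 1)]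
    rw [show t - 1 + 1 = t by ring, show t - 1 + 2 = t + 1 by ring, show t + 1 - 1 = t by ring,
      show t + 2 - 1 = t + 1 by ring, show t + 1 + 1 = t + 2 by ring, show t + 1 + 2 = t + 2 + 1 by ring]
    ring

theorem J_top (d : ℕ) : ∀ t : ℤ, (d : ℤ) < t → J d t = 0 := by
  induction d with
  | zero =>
    intro t ht
    rw [J_zero, if_neg]
    push_cast at ht
    omega
  | succ d ih =>
    intro t ht
    push_cast at ht
    rw [J_succ, ih _ (by omega), ih _ (by omega), ih _ (by omega)]
    ring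

theorem J_cond_top (d : ℕ) (t : ℤ) (ht : (d : ℤ) < t) : J d t = 0 ∧ J d (t + 1) = 0 ∧ J d (t + 2) = 0 :=
  ⟨J_top d t ht, J_top d _ (by omega), J_top d _ (by omega)⟩

/-- the boundary term -/
def H (d : ℕ) (s : ℤ) : ℤ := -2 * J d (s + 2) - 2 * J d (s + 3) - J d (s + 4)

theorem H_succ (d : ℕ) (s : ℤ) : H (d + 1) s = H d (s - 1) + 2 * H d s + H d (s + 1) := by
  unfold H
  rw [J_succ, J_succ, J_succ]
  rw [show s - 1 + 2 = s + 2 - 1 by ring, show s - 1 + 3 = s + 3 - 1 by ring, show s - 1 + 4 = s + 4 - 1 by ring,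
    show s + 1 + 2 = s + 2 + 1 by ring, show s + 1 + 3 = s + 3 + 1 by ring, show s + 1 + 4 = s + 4 + 1 by ring]
  ring

theorem H_rel (d : ℕ) (a : ℤ) : 2 * K d a + 2 * K d (a + 1) + K d (a + 2) + H d (a - 2) + 2 * H d (a - 1) + 2 * H d a = 0 := by
  have e1 := J_rec d a
  have e2 := J_rec d (a + 1)
  have e3 := J_rec d (a + 2)
  unfold H
  rw [show a - 2 + 2 = a by ring, show a - 2 + 3 = a + 1 by ring, show a - 2 + 4 = a + 2 by ring,
    show a - 1 + 2 = a + 1 by ring, show a - 1 + 3 = a + 2 by ring, show a - 1 + 4 = a + 3 by ring]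
  rw [show a + 1 + 1 = a + 2 by ring, show a + 1 + 2 = a + 3 by ring] at e2
  rw [show a + 2 + 1 = a + 3 by ring, show a + 2 + 2 = a + 4 by ring] at e3
  linarith

/-- linear good words: end `a`, never below `-m`, the letter `ff` at the level `-m` is not followed by `tt` -/
def LG (d : ℕ) (a m : ℤ) (w : Fin d → Bool × Bool) : Prop :=
  df w d = a ∧ (∀ j ≤ d, -m ≤ df w j) ∧ ∀ (j : ℕ) (h : j + 1 < d), df w (j + 1) = -m →
    w ⟨j, by omega⟩ = (false, false) → w ⟨j + 1, h⟩ ≠ (true, true)

theorem LG_cons {d : ℕ} {a m : ℤ} (hm : 0 ≤ m) (x : Bool × Bool) (w : Fin d → Bool × Bool) :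
    LG (d + 1) a m (Fin.cons x w : Fin (d + 1) → Bool × Bool) ↔
      LG d (a - RFA_st x) (m + RFA_st x) w ∧ (x = (false, false) → m = 0 → ∀ h : 0 < d, w ⟨0, h⟩ ≠ (true, true)) := by
  unfold LG
  constructor
  · rintro ⟨h1, h2, h3⟩
    refine ⟨⟨?_, ?_, ?_⟩, ?_⟩
    · rw [RFA_df_succ] at h1
      linarith
    · intro j hj
      have := h2 (j + 1) (by omega)
      rw [RFA_df_succ] at this
      linarith
    · intro j hj h4 h5
      refine h3 (j + 1) (by omega) ?_ ?_
      · rw [RFA_df_succ, h4]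
        ring
      · exact h5
    · intro hx h0 h
      refine h3 0 (by omega) ?_ ?_
      · rw [RFA_df_succ, RFA_df_zero, h0, hx]
        simp [RFA_st]
      · exact hx
  · rintro ⟨⟨h1, h2, h3⟩, h4⟩
    refine ⟨?_, ?_, ?_⟩
    · rw [RFA_df_succ]
      linarith
    · intro j hj
      rcases j with _ | j
      · rw [RFA_df_zero]
        linarith
      · rw [RFA_df_succ]
        have := h2 j (by omega)
        linarith
    · intro j hj h5 h6
      rcases j with _ | j
      · rw [RFA_df_succ, RFA_df_zero] at h5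
        have hx : x = (false, false) := h6
        have hst : RFA_st x = 0 := by rw [hx]; simp [RFA_st]
        exact h4 hx (by omega) (by omega)
      · rw [RFA_df_succ] at h5
        exact h3 j (by omega) (by linarith) h6

open Classical in
/-- number of the linear good words -/
def gl (d : ℕ) (a m : ℤ) : ℤ := (((univ : Finset (Fin d → Bool × Bool)).filter (LG d a m)).card : ℤ)

theorem gl_zero {a m : ℤ} (hm : 0 ≤ m) : gl 0 a m = if a = 0 then 1 else 0 := by
  classical
  unfold gl
  by_cases h : a = 0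
  · subst h
    have : (univ : Finset (Fin 0 → Bool × Bool)).filter (LG 0 0 m) = univ := by
      rw [filter_eq_self]
      intro w _
      refine ⟨RFA_df_zero w, ?_, ?_⟩
      · intro j hj
        obtain rfl : j = 0 := by omega
        rw [RFA_df_zero]
        omega
      · intro j hj
        omega
    rw [this]
    simp
  · have : (univ : Finset (Fin 0 → Bool × Bool)).filter (LG 0 a m) = ∅ := by
      rw [filter_eq_empty_iff]
      rintro w _ ⟨h1, _⟩
      rw [RFA_df_zero] at h1
      exact h h1.symm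
    rw [this, if_neg h]
    simp

theorem gl_pos (d : ℕ) {a m : ℤ} (hm : 1 ≤ m) :
    gl (d + 1) a m = gl d (a - 1) (m + 1) + 2 * gl d a m + gl d (a + 1) (m - 1) := by
  classical
  unfold gl
  rw [RFA_card, Fintype.sum_prod_type]
  simp only [Fintype.sum_bool]
  have hc : ∀ x : Bool × Bool, ((univ : Finset (Fin d → Bool × Bool)).filter
      (fun w => LG (d + 1) a m (Fin.cons x w : Fin (d + 1) → Bool × Bool))) =
      (univ : Finset (Fin d → Bool × Bool)).filter (LG d (a - RFA_st x) (m + RFA_st x)) := by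
    intro x
    refine Finset.filter_congr fun w _ => ?_
    rw [LG_cons (by omega)]
    exact ⟨fun h => h.1, fun h => ⟨h, fun _ h0 => by omega⟩⟩
  have s1 : RFA_st (true, true) = 0 := by simp [RFA_st]
  have s2 : RFA_st (true, false) = 1 := by simp [RFA_st]
  have s3 : RFA_st (false, true) = -1 := by simp [RFA_st]
  have s4 : RFA_st (false, false) = 0 := by simp [RFA_st]
  rw [hc, hc, hc, hc, s1, s2, s3, s4]
  rw [show a - 0 = a by ring, show m + 0 = m by ring, show a - -1 = a + 1 by ring, show m + -1 = m - 1 by ring]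
  push_cast
  ring

open Classical in
/-- the words which start with `tt` -/
theorem gl_tt (d : ℕ) (a : ℤ) : ((univ : Finset (Fin (d + 1) → Bool × Bool)).filter
    (fun w => LG (d + 1) a 0 w ∧ w 0 = (true, true))).card = ((univ : Finset (Fin d → Bool × Bool)).filter (LG d a 0)).card := by
  classical
  rw [RFA_card, Fintype.sum_prod_type]
  simp only [Fintype.sum_bool, Fin.cons_zero]
  have s1 : RFA_st (true, true) = 0 := by simp [RFA_st]
  have h1 : ((univ : Finset (Fin d → Bool × Bool)).filter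
      (fun w => LG (d + 1) a 0 (Fin.cons (true, true) w : Fin (d + 1) → Bool × Bool) ∧ True)) =
      (univ : Finset (Fin d → Bool × Bool)).filter (LG d a 0) := by
    refine Finset.filter_congr fun w _ => ?_
    rw [LG_cons le_rfl, s1, sub_zero, add_zero]
    exact ⟨fun h => h.1.1, fun h => ⟨⟨h, fun h1 => absurd h1 (by simp)⟩, trivial⟩⟩
  have h2 : ∀ x : Bool × Bool, x ≠ (true, true) → ((univ : Finset (Fin d → Bool × Bool)).filter
      (fun w => LG (d + 1) a 0 (Fin.cons x w : Fin (d + 1) → Bool × Bool) ∧ x = (true, true))) = ∅ := by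
    intro x hx
    rw [filter_eq_empty_iff]
    intro w _ h
    exact hx h.2
  rw [h1, h2 (true, false) (by simp), h2 (false, true) (by simp), h2 (false, false) (by simp)]
  simp

theorem gl_floor (d : ℕ) (a : ℤ) : gl (d + 2) a 0 = gl (d + 1) (a - 1) 1 + 2 * gl (d + 1) a 0 - gl d a 0 := by
  classical
  unfold gl
  rw [RFA_card, Fintype.sum_prod_type]
  simp only [Fintype.sum_bool]
  have s1 : RFA_st (true, true) = 0 := by simp [RFA_st]
  have s2 : RFA_st (true, false) = 1 := by simp [RFA_st]
  have s3 : RFA_st (false, true) = -1 := by simp [RFA_st]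
  have s4 : RFA_st (false, false) = 0 := by simp [RFA_st]
  have h1 : ((univ : Finset (Fin (d + 1) → Bool × Bool)).filter
      (fun w => LG (d + 2) a 0 (Fin.cons (true, true) w : Fin (d + 1 + 1) → Bool × Bool))) =
      (univ : Finset (Fin (d + 1) → Bool × Bool)).filter (LG (d + 1) a 0) := by
    refine Finset.filter_congr fun w _ => ?_
    rw [LG_cons le_rfl, s1, sub_zero, add_zero]
    exact ⟨fun h => h.1, fun h => ⟨h, fun h1 => absurd h1 (by simp)⟩⟩
  have h2 : ((univ : Finset (Fin (d + 1) → Bool × Bool)).filter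
      (fun w => LG (d + 2) a 0 (Fin.cons (true, false) w : Fin (d + 1 + 1) → Bool × Bool))) =
      (univ : Finset (Fin (d + 1) → Bool × Bool)).filter (LG (d + 1) (a - 1) 1) := by
    refine Finset.filter_congr fun w _ => ?_
    rw [LG_cons le_rfl, s2, zero_add]
    exact ⟨fun h => h.1, fun h => ⟨h, fun h1 => absurd h1 (by simp)⟩⟩
  have h3 : ((univ : Finset (Fin (d + 1) → Bool × Bool)).filter
      (fun w => LG (d + 2) a 0 (Fin.cons (false, true) w : Fin (d + 1 + 1) → Bool × Bool))) = ∅ := by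
    rw [filter_eq_empty_iff]
    intro w _ h
    rw [LG_cons le_rfl] at h
    have := h.1.2.1 0 (by omega)
    rw [RFA_df_zero, s3] at this
    omega
  have h4 : ((univ : Finset (Fin (d + 1) → Bool × Bool)).filter
      (fun w => LG (d + 2) a 0 (Fin.cons (false, false) w : Fin (d + 1 + 1) → Bool × Bool))) =
      (univ : Finset (Fin (d + 1) → Bool × Bool)).filter (LG (d + 1) a 0) \
      (univ : Finset (Fin (d + 1) → Bool × Bool)).filter (fun w => LG (d + 1) a 0 w ∧ w 0 = (true, true)) := by
    ext w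
    rw [mem_sdiff, mem_filter, mem_filter, mem_filter, LG_cons le_rfl, s4, sub_zero, add_zero]
    constructor
    · rintro ⟨_, h5, h6⟩
      exact ⟨⟨mem_univ _, h5⟩, fun h7 => h6 rfl rfl (by omega) h7.2.2⟩
    · rintro ⟨⟨_, h5⟩, h6⟩
      exact ⟨mem_univ _, h5, fun _ _ _ h7 => h6 ⟨mem_univ _, h5, h7⟩⟩
  have h5 := card_sdiff_add_card_eq_card (s := (univ : Finset (Fin (d + 1) → Bool × Bool)).filter (fun w => LG (d + 1) a 0 w ∧ w 0 = (true, true)))
    (t := (univ : Finset (Fin (d + 1) → Bool × Bool)).filter (LG (d + 1) a 0)) (by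
      intro w hw
      rw [mem_filter] at hw ⊢
      exact ⟨hw.1, hw.2.1⟩)
  rw [gl_tt] at h5
  rw [h1, h2, h3, h4, card_empty]
  have h6 : ((((univ : Finset (Fin (d + 1) → Bool × Bool)).filter (LG (d + 1) a 0) \
      (univ : Finset (Fin (d + 1) → Bool × Bool)).filter (fun w => LG (d + 1) a 0 w ∧ w 0 = (true, true))).card : ℕ) : ℤ) +
      (((univ : Finset (Fin d → Bool × Bool)).filter (LG d a 0)).card : ℤ) =
      (((univ : Finset (Fin (d + 1) → Bool × Bool)).filter (LG (d + 1) a 0)).card : ℤ) := by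
    exact_mod_cast h5
  push_cast
  linarith

theorem gl_one (a : ℤ) : gl 1 a 0 = gl 0 (a - 1) 1 + 2 * gl 0 a 0 := by
  classical
  unfold gl
  rw [RFA_card, Fintype.sum_prod_type]
  simp only [Fintype.sum_bool]
  have s1 : RFA_st (true, true) = 0 := by simp [RFA_st]
  have s2 : RFA_st (true, false) = 1 := by simp [RFA_st]
  have s3 : RFA_st (false, true) = -1 := by simp [RFA_st]
  have s4 : RFA_st (false, false) = 0 := by simp [RFA_st]
  have h1 : ∀ x : Bool × Bool, 0 ≤ RFA_st x → ((univ : Finset (Fin 0 → Bool × Bool)).filter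
      (fun w => LG 1 a 0 (Fin.cons x w : Fin (0 + 1) → Bool × Bool))) =
      (univ : Finset (Fin 0 → Bool × Bool)).filter (LG 0 (a - RFA_st x) (0 + RFA_st x)) := by
    intro x _
    refine Finset.filter_congr fun w _ => ?_
    rw [LG_cons le_rfl]
    exact ⟨fun h => h.1, fun h => ⟨h, fun _ _ h0 => absurd h0 (by omega)⟩⟩
  have h3 : ((univ : Finset (Fin 0 → Bool × Bool)).filter
      (fun w => LG 1 a 0 (Fin.cons (false, true) w : Fin (0 + 1) → Bool × Bool))) = ∅ := by
    rw [filter_eq_empty_iff]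
    intro w _ h
    rw [LG_cons le_rfl] at h
    have := h.1.2.1 0 (by omega)
    rw [RFA_df_zero, s3] at this
    omega
  rw [h1 (true, true) (by rw [s1]), h1 (true, false) (by rw [s2]; norm_num), h3, h1 (false, false) (by rw [s4]), s1, s2, s4, card_empty]
  rw [show a - 0 = a by ring, show (0 : ℤ) + 0 = 0 by ring, show (0 : ℤ) + 1 = 1 by ring]
  push_cast
  ring

/-- the number of the linear good words -/
theorem gl_eq (d : ℕ) : ∀ a m : ℤ, 0 ≤ m → 0 ≤ a + m → gl d a m = K d a + H d (a + 2 * m) := by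
  have base : ∀ a m : ℤ, 0 ≤ m → 0 ≤ a + m → gl 0 a m = K 0 a + H 0 (a + 2 * m) := by
    intro a m hm ha
    rw [gl_zero hm, K_zero]
    unfold H
    rw [J_top 0 _ (by push_cast; omega), J_top 0 _ (by push_cast; omega), J_top 0 _ (by push_cast; omega)]
    ring
  have stepP : ∀ d : ℕ, (∀ a m : ℤ, 0 ≤ m → 0 ≤ a + m → gl d a m = K d a + H d (a + 2 * m)) →
      ∀ a m : ℤ, 1 ≤ m → 0 ≤ a + m → gl (d + 1) a m = K (d + 1) a + H (d + 1) (a + 2 * m) := by
    intro d ih a m hm ha
    rw [gl_pos d hm, ih _ _ (by omega) (by omega), ih _ _ (by omega) (by omega), ih _ _ (by omega) (by omega), K_succ, H_succ]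
    rw [show a - 1 + 2 * (m + 1) = a + 2 * m + 1 by ring, show a + 1 + 2 * (m - 1) = a + 2 * m - 1 by ring]
    ring
  have key : ∀ d : ℕ, (∀ a m : ℤ, 0 ≤ m → 0 ≤ a + m → gl d a m = K d a + H d (a + 2 * m)) ∧
      (∀ a m : ℤ, 0 ≤ m → 0 ≤ a + m → gl (d + 1) a m = K (d + 1) a + H (d + 1) (a + 2 * m)) := by
    intro d
    induction d with
    | zero =>
      refine ⟨base, fun a m hm ha => ?_⟩
      rcases hm.eq_or_lt with h0 | h0
      · subst h0
        rw [zero_add, gl_one, gl_zero (by norm_num), gl_zero le_rfl]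
        unfold H
        rw [J_top 1 _ (by push_cast; omega), J_top 1 _ (by push_cast; omega), J_top 1 _ (by push_cast; omega)]
        rw [show (1 : ℕ) = 0 + 1 from rfl, K_succ, K_zero, K_zero, K_zero]
        rw [if_neg (by omega : ¬ a + 1 = 0)]
        ring
      · exact stepP 0 base a m (by omega) ha
    | succ d ih =>
      refine ⟨ih.2, fun a m hm ha => ?_⟩
      rcases hm.eq_or_lt with h0 | h0
      · subst h0
        rw [gl_floor, ih.1 a 0 le_rfl ha, ih.2 a 0 le_rfl ha, ih.2 (a - 1) 1 (by norm_num) (by omega)]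
        rw [K_succ (d + 1) a, H_succ (d + 1)]
        have e := H_rel d a
        have e1 := K_succ d (a + 1)
        have e2 := H_succ d (a - 1)
        rw [show a + 1 - 1 = a by ring, show a + 1 + 1 = a + 2 by ring] at e1
        rw [show a - 1 - 1 = a - 2 by ring, show a - 1 + 1 = a by ring] at e2
        rw [show a - 1 + 2 * 1 = a + 1 by ring, show a + 2 * 0 = a by ring]
        linarith
      · exact stepP (d + 1) ih.2 a m (by omega) ha
  exact (key d).1

end Pool.Agent.H85.CY3
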