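import Pool.Agent.H85.CY3.F

/-!
# Closed words with the cyclic pattern `ff, tt` at the minimum
-/

set_option autoImplicit false

open Finset

noncomputable section

namespace Pool.Agent.H85.CY3

open Pool.Agent.H63.CY

theorem df_step {d : ℕ} (w : Fin d → Bool × Bool) (j : ℕ) (hj : j < d) : df w (j + 1) = df w j + RFA_st (w ⟨j, hj⟩) := by
  rw [RFB_df, RFB_df, RFB_ct_succ _ j hj, RFB_ct_succ _ j hj]
  unfold RFA_st
  ring

/-- somewhere at the minimum (cyclically) a letter with second component `false` is followed by a letter with second component `true` -/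
def BD {d : ℕ} (w : Fin d → Bool × Bool) : Prop :=
  (∃ (j : ℕ) (h : j + 1 < d), (∀ k ≤ d, df w (j + 1) ≤ df w k) ∧ (w ⟨j, by omega⟩).2 = false ∧ (w ⟨j + 1, h⟩).2 = true) ∨
    ∃ h : 0 < d, (∀ k ≤ d, 0 ≤ df w k) ∧ (w ⟨d - 1, by omega⟩).2 = false ∧ (w ⟨0, h⟩).2 = true

/-- at the minimum the letters are `ff` and `tt` -/
theorem letters {d : ℕ} (w : Fin d → Bool × Bool) (j : ℕ) (h : j + 1 < d) (hmin : ∀ k ≤ d, df w (j + 1) ≤ df w k) :
    ((w ⟨j, by omega⟩).2 = false ∧ (w ⟨j + 1, h⟩).2 = true) ↔ (w ⟨j, by omega⟩ = (false, false) ∧ w ⟨j + 1, h⟩ = (true, true)) := by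
  have h1 := df_step w j (by omega)
  have h2 := df_step w (j + 1) h
  have h3 := hmin j (by omega)
  have h4 := hmin (j + 2) (by omega)
  have e : j + 1 + 1 = j + 2 := rfl
  rw [e] at h2
  constructor
  · rintro ⟨h5, h6⟩
    rcases hw : w ⟨j, by omega⟩ with ⟨a, b⟩
    rcases hv : w ⟨j + 1, h⟩ with ⟨a', b'⟩
    rw [hw] at h1 h5
    rw [hv] at h2 h6
    simp only at h5 h6
    subst h5
    subst h6
    cases a <;> cases a' <;> simp [RFA_st] at h1 h2 ⊢ <;> omega
  · rintro ⟨h5, h6⟩
    rw [h5, h6]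
    exact ⟨rfl, rfl⟩

/-- the same across the end -/
theorem letters' {d : ℕ} (w : Fin d → Bool × Bool) (h : 0 < d) (hc : df w d = 0) (hmin : ∀ k ≤ d, 0 ≤ df w k) :
    ((w ⟨d - 1, by omega⟩).2 = false ∧ (w ⟨0, h⟩).2 = true) ↔ (w ⟨d - 1, by omega⟩ = (false, false) ∧ w ⟨0, h⟩ = (true, true)) := by
  have h1 := df_step w (d - 1) (by omega)
  have h2 := df_step w 0 h
  have h3 := hmin (d - 1) (by omega)
  have h4 := hmin 1 (by omega)
  rw [show d - 1 + 1 = d by omega, hc] at h1
  rw [zero_add, RFA_df_zero] at h2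
  constructor
  · rintro ⟨h5, h6⟩
    rcases hw : w ⟨d - 1, by omega⟩ with ⟨a, b⟩
    rcases hv : w ⟨0, h⟩ with ⟨a', b'⟩
    rw [hw] at h1 h5
    rw [hv] at h2 h6
    simp only at h5 h6
    subst h5
    subst h6
    cases a <;> cases a' <;> simp [RFA_st] at h1 h2 ⊢ <;> omega
  · rintro ⟨h5, h6⟩
    rw [h5, h6]
    exact ⟨rfl, rfl⟩

open Classical in
/-- the words with floor `-m` without the pattern -/
def tb (d : ℕ) (m : ℕ) : ℤ := (((univ : Finset (Fin d → Bool × Bool)).filter
    (fun w => df w d = 0 ∧ ¬ BD w ∧ ∀ j ≤ d, -(m : ℤ) ≤ df w j)).card : ℤ)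

theorem tb_succ (d m : ℕ) : tb d (m + 1) = tb d m + K d (2 * ((m + 1 : ℕ) : ℤ)) + H d (2 * ((m + 1 : ℕ) : ℤ)) := by
  classical
  have hX : ((univ : Finset (Fin d → Bool × Bool)).filter
      (fun w => df w d = 0 ∧ ¬ BD w ∧ ∀ j ≤ d, -((m + 1 : ℕ) : ℤ) ≤ df w j)).card =
      ((univ : Finset (Fin d → Bool × Bool)).filter (fun w => df w d = 0 ∧ ¬ BD w ∧ ∀ j ≤ d, -(m : ℤ) ≤ df w j)).card +
      ((univ : Finset (Fin d → Bool × Bool)).filter (fun w => (df w d = 0 ∧ ¬ BD w ∧ ∀ j ≤ d, -((m + 1 : ℕ) : ℤ) ≤ df w j) ∧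
        ∃ j ≤ d, df w j ≤ -((m + 1 : ℕ) : ℤ))).card := by
    rw [← card_union_of_disjoint]
    · congr 1
      ext w
      simp only [mem_filter, mem_univ, true_and, mem_union]
      constructor
      · rintro ⟨h1, h2, h3⟩
        by_cases h : ∃ j ≤ d, df w j ≤ -((m + 1 : ℕ) : ℤ)
        · exact Or.inr ⟨⟨h1, h2, h3⟩, h⟩
        · push Not at h
          refine Or.inl ⟨h1, h2, fun j hj => ?_⟩
          have := h j hj
          push_cast at this
          omega
      · rintro (⟨h1, h2, h3⟩ | ⟨h, _⟩)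
        · refine ⟨h1, h2, fun j hj => ?_⟩
          have := h3 j hj
          push_cast
          omega
        · exact h
    · rw [disjoint_left]
      intro w hw hw'
      simp only [mem_filter, mem_univ, true_and] at hw hw'
      obtain ⟨j, hj, h⟩ := hw'.2
      have := hw.2.2 j hj
      push_cast at h
      omega
  have hmem : ∀ w : Fin d → Bool × Bool, (∃ j ≤ d, df w j ≤ -((m + 1 : ℕ) : ℤ)) →
      (LG d 0 ((m + 1 : ℕ) : ℤ) w ↔ (df w d = 0 ∧ ¬ BD w ∧ ∀ j ≤ d, -((m + 1 : ℕ) : ℤ) ≤ df w j)) := by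
    rintro w ⟨j0, hj0, h0⟩
    unfold LG
    constructor
    · rintro ⟨h1, h2, h3⟩
      refine ⟨h1, ?_, h2⟩
      rintro (⟨j, h, h4, h5⟩ | ⟨_, h4, _⟩)
      · rw [letters w j h h4] at h5
        have h6 := h4 j0 hj0
        have h7 := h2 (j + 1) (by omega)
        exact h3 j h (by omega) h5.1 h5.2
      · have := h4 j0 hj0
        omega
    · rintro ⟨h1, h2, h3⟩
      refine ⟨h1, h3, fun j h h4 h5 h6 => h2 (Or.inl ⟨j, h, fun k hk => ?_, ?_, ?_⟩)⟩
      · rw [h4]
        exact h3 k hk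
      · rw [h5]
      · rw [h6]
  have hY : ((univ : Finset (Fin d → Bool × Bool)).filter (LG d 0 ((m + 1 : ℕ) : ℤ))).card +
      ((univ : Finset (Fin d → Bool × Bool)).filter (fun w => df w d = 0 ∧ ∃ j ≤ d, df w j ≤ -((m + 1 : ℕ) : ℤ))).card =
      ((univ : Finset (Fin d → Bool × Bool)).filter (fun w => df w d = 0)).card +
      ((univ : Finset (Fin d → Bool × Bool)).filter (fun w => (df w d = 0 ∧ ¬ BD w ∧ ∀ j ≤ d, -((m + 1 : ℕ) : ℤ) ≤ df w j) ∧
        ∃ j ≤ d, df w j ≤ -((m + 1 : ℕ) : ℤ))).card := by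
    have h1 : (univ : Finset (Fin d → Bool × Bool)).filter (LG d 0 ((m + 1 : ℕ) : ℤ)) =
        (univ : Finset (Fin d → Bool × Bool)).filter (fun w => df w d = 0 ∧ ¬ ∃ j ≤ d, df w j ≤ -((m + 1 : ℕ) : ℤ)) ∪
        (univ : Finset (Fin d → Bool × Bool)).filter (fun w => (df w d = 0 ∧ ¬ BD w ∧ ∀ j ≤ d, -((m + 1 : ℕ) : ℤ) ≤ df w j) ∧
        ∃ j ≤ d, df w j ≤ -((m + 1 : ℕ) : ℤ)) := by
      ext w
      simp only [mem_filter, mem_univ, true_and, mem_union]
      by_cases h : ∃ j ≤ d, df w j ≤ -((m + 1 : ℕ) : ℤ)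
      · rw [hmem w h]
        constructor
        · exact fun h1 => Or.inr ⟨h1, h⟩
        · rintro (h1 | h1)
          · exact absurd h h1.2
          · exact h1.1
      · constructor
        · exact fun h1 => Or.inl ⟨h1.1, h⟩
        · rintro (h1 | h1)
          · push Not at h
            refine ⟨h1.1, fun j hj => (h j hj).le, fun j hj h4 => ?_⟩
            have := h (j + 1) (by omega)
            omega
          · exact absurd h1.2 h
    have h2 : (univ : Finset (Fin d → Bool × Bool)).filter (fun w => df w d = 0) =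
        (univ : Finset (Fin d → Bool × Bool)).filter (fun w => df w d = 0 ∧ ¬ ∃ j ≤ d, df w j ≤ -((m + 1 : ℕ) : ℤ)) ∪
        (univ : Finset (Fin d → Bool × Bool)).filter (fun w => df w d = 0 ∧ ∃ j ≤ d, df w j ≤ -((m + 1 : ℕ) : ℤ)) := by
      ext w
      simp only [mem_filter, mem_univ, true_and, mem_union]
      tauto
    rw [h1, h2, card_union_of_disjoint, card_union_of_disjoint]
    · ring
    · rw [disjoint_left]
      intro w hw hw'
      simp only [mem_filter, mem_univ, true_and] at hw hw'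
      exact hw.2 hw'.2
    · rw [disjoint_left]
      intro w hw hw'
      simp only [mem_filter, mem_univ, true_and] at hw hw'
      exact hw.2 hw'.2
  have h1 := gl_eq d 0 ((m + 1 : ℕ) : ℤ) (by positivity) (by positivity)
  unfold gl at h1
  have h2 : (((univ : Finset (Fin d → Bool × Bool)).filter (fun w => df w d = 0 ∧ ∃ j ≤ d, df w j ≤ -((m + 1 : ℕ) : ℤ))).card : ℤ)
      = K d (2 * ((m + 1 : ℕ) : ℤ)) := by
    rw [RFA_refl d 0 ((m + 1 : ℕ) : ℤ) (by positivity) (by omega), ← K_symm]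
    unfold K
    congr 2
  have h3 : (((univ : Finset (Fin d → Bool × Bool)).filter (fun w => df w d = 0)).card : ℤ) = K d 0 := by
    rw [RFA_end]
    rfl
  have h4 : (((univ : Finset (Fin d → Bool × Bool)).filter (LG d 0 ((m + 1 : ℕ) : ℤ))).card : ℤ) +
      (((univ : Finset (Fin d → Bool × Bool)).filter (fun w => df w d = 0 ∧ ∃ j ≤ d, df w j ≤ -((m + 1 : ℕ) : ℤ))).card : ℤ) =
      (((univ : Finset (Fin d → Bool × Bool)).filter (fun w => df w d = 0)).card : ℤ) +
      (((univ : Finset (Fin d → Bool × Bool)).filter (fun w => (df w d = 0 ∧ ¬ BD w ∧ ∀ j ≤ d, -((m + 1 : ℕ) : ℤ) ≤ df w j) ∧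
        ∃ j ≤ d, df w j ≤ -((m + 1 : ℕ) : ℤ))).card : ℤ) := by
    exact_mod_cast hY
  unfold tb
  rw [hX, Nat.cast_add]
  rw [h1, h2, h3, zero_add] at h4
  linarith

/-- stripping the letters `tt` at the beginning and `ff` at the end -/
def wrap {d : ℕ} (w : Fin d → Bool × Bool) : Fin (d + 2) → Bool × Bool :=
  Fin.cons (true, true) (Fin.snoc (α := fun _ => Bool × Bool) w (false, false))

theorem df_snoc {d : ℕ} (w : Fin d → Bool × Bool) (x : Bool × Bool) (j : ℕ) (hj : j ≤ d) :
    df (Fin.snoc (α := fun _ => Bool × Bool) w x) j = df w j := by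
  induction j with
  | zero => rw [RFA_df_zero, RFA_df_zero]
  | succ j ih =>
    rw [df_step _ j (by omega), df_step w j (by omega), ih (by omega)]
    congr 2
    have : (⟨j, by omega⟩ : Fin (d + 1)) = Fin.castSucc ⟨j, by omega⟩ := rfl
    rw [this, Fin.snoc_castSucc]

theorem snoc_val {d : ℕ} (w : Fin d → Bool × Bool) (x : Bool × Bool) (j : ℕ) (hj : j < d) :
    (Fin.snoc (α := fun _ => Bool × Bool) w x : Fin (d + 1) → Bool × Bool) ⟨j, by omega⟩ = w ⟨j, hj⟩ := by
  have : (⟨j, by omega⟩ : Fin (d + 1)) = Fin.castSucc ⟨j, by omega⟩ := rfl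
  rw [this, Fin.snoc_castSucc]

theorem snoc_last {d : ℕ} (w : Fin d → Bool × Bool) (x : Bool × Bool) :
    (Fin.snoc (α := fun _ => Bool × Bool) w x : Fin (d + 1) → Bool × Bool) ⟨d, by omega⟩ = x := by
  have : (⟨d, by omega⟩ : Fin (d + 1)) = Fin.last d := rfl
  rw [this, Fin.snoc_last]

theorem LG_snoc {d : ℕ} (w : Fin d → Bool × Bool) :
    LG (d + 1) 0 0 (Fin.snoc (α := fun _ => Bool × Bool) w (false, false)) ↔ LG d 0 0 w := by
  have hlast : df (Fin.snoc (α := fun _ => Bool × Bool) w (false, false)) (d + 1) = df w d := by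
    rw [df_step _ d (by omega), snoc_last, df_snoc _ _ _ le_rfl]
    simp [RFA_st]
  unfold LG
  constructor
  · rintro ⟨h1, h2, h3⟩
    refine ⟨by rw [← hlast]; exact h1, fun j hj => ?_, fun j hj h4 h5 => ?_⟩
    · rw [← df_snoc w (false, false) j hj]
      exact h2 j (by omega)
    · have h6 := h3 j (by omega) (by rw [df_snoc _ _ _ (by omega)]; exact h4) (by rw [snoc_val _ _ _ (by omega)]; exact h5)
      rw [snoc_val _ _ _ hj] at h6
      exact h6
  · rintro ⟨h1, h2, h3⟩
    refine ⟨by rw [hlast]; exact h1, fun j hj => ?_, fun j hj h4 h5 => ?_⟩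
    · rcases (by omega : j ≤ d ∨ j = d + 1) with h | h
      · rw [df_snoc _ _ _ h]
        exact h2 j h
      · rw [h, hlast]
        exact h2 d le_rfl
    · rcases (by omega : j + 1 < d ∨ j + 1 = d) with h | h
      · rw [df_snoc _ _ _ (by omega)] at h4
        rw [snoc_val _ _ _ (by omega)] at h5
        rw [snoc_val _ _ _ h]
        exact h3 j h h4 h5
      · have h6 : (Fin.snoc (α := fun _ => Bool × Bool) w (false, false) : Fin (d + 1) → Bool × Bool) ⟨j + 1, hj⟩ = (false, false) := by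
          subst h
          exact snoc_last w (false, false)
        rw [h6]
        simp

/-- floor `0`, closed, with the pattern across the end -/
theorem wrap_card (d : ℕ) (P : (Fin (d + 2) → Bool × Bool) → Prop) [DecidablePred P] [DecidablePred (LG d 0 0)]
    (hP : ∀ w, P w ↔ (LG (d + 2) 0 0 w ∧ w ⟨d + 1, by omega⟩ = (false, false) ∧ w ⟨0, by omega⟩ = (true, true))) :
    ((univ : Finset (Fin (d + 2) → Bool × Bool)).filter P).card =
    ((univ : Finset (Fin d → Bool × Bool)).filter (LG d 0 0)).card := by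
  classical
  symm
  have s1 : RFA_st (true, true) = 0 := by simp [RFA_st]
  refine card_bij (fun w _ => wrap w) ?_ ?_ ?_
  · intro w hw
    rw [mem_filter] at hw ⊢
    refine ⟨mem_univ _, ?_⟩
    rw [hP]
    refine ⟨?_, ?_, ?_⟩
    · unfold wrap
      rw [LG_cons le_rfl, s1, sub_zero, add_zero, LG_snoc]
      exact ⟨hw.2, fun h => absurd h (by simp)⟩
    · show (Fin.snoc (α := fun _ => Bool × Bool) w (false, false) : Fin (d + 1) → Bool × Bool) ⟨d, by omega⟩ = (false, false)
      exact snoc_last w _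
    · rfl
  · intro w _ w' _ h
    unfold wrap at h
    have h1 := Fin.cons_right_injective (α := fun _ => Bool × Bool) (true, true) h
    funext i
    have h2 := congrFun h1 (Fin.castSucc i)
    rw [Fin.snoc_castSucc, Fin.snoc_castSucc] at h2
    exact h2
  · intro w hw
    rw [mem_filter, hP] at hw
    obtain ⟨_, h1, h2, h3⟩ := hw
    refine ⟨fun i => w i.castSucc.succ, ?_, ?_⟩
    · have hw2 : w = wrap (fun i => w i.castSucc.succ) := by
        funext i
        refine Fin.cases ?_ (fun i => ?_) i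
        · exact h3
        · refine Fin.lastCases ?_ (fun i => ?_) i
          · show w (Fin.last d).succ = (Fin.snoc (α := fun _ => Bool × Bool) (fun i => w i.castSucc.succ) (false, false) : Fin (d + 1) → Bool × Bool) (Fin.last d)
            rw [Fin.snoc_last]
            exact h2
          · show w i.castSucc.succ = (Fin.snoc (α := fun _ => Bool × Bool) (fun i => w i.castSucc.succ) (false, false) : Fin (d + 1) → Bool × Bool) (Fin.castSucc i)
            rw [Fin.snoc_castSucc]
      rw [mem_filter]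
      refine ⟨mem_univ _, ?_⟩
      rw [hw2] at h1
      unfold wrap at h1
      rw [LG_cons le_rfl, s1, sub_zero, add_zero, LG_snoc] at h1
      exact h1.1
    · funext i
      refine Fin.cases ?_ (fun i => ?_) i
      · exact h3.symm
      · refine Fin.lastCases ?_ (fun i => ?_) i
        · show (Fin.snoc (α := fun _ => Bool × Bool) (fun i => w i.castSucc.succ) (false, false) : Fin (d + 1) → Bool × Bool) (Fin.last d) = w (Fin.last d).succ
          rw [Fin.snoc_last]
          exact h2.symm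
        · show (Fin.snoc (α := fun _ => Bool × Bool) (fun i => w i.castSucc.succ) (false, false) : Fin (d + 1) → Bool × Bool) (Fin.castSucc i) = w i.castSucc.succ
          rw [Fin.snoc_castSucc]

/-- the floor `0` -/
theorem tb_zero (d : ℕ) : tb (d + 2) 0 = K (d + 2) 0 + H (d + 2) 0 - (K d 0 + H d 0) := by
  classical
  have h1 := gl_eq (d + 2) 0 0 le_rfl (by norm_num)
  have h2 := gl_eq d 0 0 le_rfl (by norm_num)
  unfold gl at h1 h2
  rw [show (0 : ℤ) + 2 * 0 = 0 by ring] at h1 h2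
  have h3 := wrap_card d (fun w => LG (d + 2) 0 0 w ∧ w ⟨d + 1, by omega⟩ = (false, false) ∧ w ⟨0, by omega⟩ = (true, true)) (fun w => Iff.rfl)
  have h4 : ((univ : Finset (Fin (d + 2) → Bool × Bool)).filter (LG (d + 2) 0 0)).card =
      ((univ : Finset (Fin (d + 2) → Bool × Bool)).filter (fun w => df w (d + 2) = 0 ∧ ¬ BD w ∧ ∀ j ≤ d + 2, -((0 : ℕ) : ℤ) ≤ df w j)).card +
      ((univ : Finset (Fin (d + 2) → Bool × Bool)).filter (fun w => LG (d + 2) 0 0 w ∧ w ⟨d + 1, by omega⟩ = (false, false) ∧ w ⟨0, by omega⟩ = (true, true))).card := by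
    rw [← card_union_of_disjoint]
    · congr 1
      ext w
      simp only [mem_filter, mem_univ, true_and, mem_union]
      constructor
      · intro h
        by_cases h5 : w ⟨d + 1, by omega⟩ = (false, false) ∧ w ⟨0, by omega⟩ = (true, true)
        · exact Or.inr ⟨h, h5⟩
        · obtain ⟨h6, h7, h8⟩ := h
          refine Or.inl ⟨h6, ?_, fun j hj => by simpa using h7 j hj⟩
          rintro (⟨j, hj, h9, h10⟩ | ⟨h9, h10, h11⟩)
          · rw [letters w j hj h9] at h10
            have h11 := h9 0 (by omega)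
            rw [RFA_df_zero] at h11
            have h12 := h7 (j + 1) (by omega)
            exact h8 j hj (by omega) h10.1 h10.2
          · rw [letters' w h9 h6 h10] at h11
            exact h5 h11
      · rintro (⟨h6, h7, h8⟩ | h)
        · refine ⟨h6, fun j hj => by simpa using h8 j hj, fun j hj h9 h10 h11 => h7 (Or.inl ⟨j, hj, fun k hk => ?_, ?_, ?_⟩)⟩
          · have := h8 k hk
            rw [h9]
            simpa using this
          · rw [h10]
          · rw [h11]
        · exact h.1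
    · rw [disjoint_left]
      intro w hw hw'
      simp only [mem_filter, mem_univ, true_and] at hw hw'
      refine hw.2.1 (Or.inr ⟨by omega, fun k hk => by simpa using hw.2.2 k hk, ?_, ?_⟩)
      · show (w ⟨d + 1, by omega⟩).2 = false
        rw [hw'.2.1]
      · rw [hw'.2.2]
  unfold tb
  rw [h3] at h4
  have h5 : (((univ : Finset (Fin (d + 2) → Bool × Bool)).filter (LG (d + 2) 0 0)).card : ℤ) =
      (((univ : Finset (Fin (d + 2) → Bool × Bool)).filter (fun w => df w (d + 2) = 0 ∧ ¬ BD w ∧ ∀ j ≤ d + 2, -((0 : ℕ) : ℤ) ≤ df w j)).card : ℤ) +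
      (((univ : Finset (Fin d → Bool × Bool)).filter (LG d 0 0)).card : ℤ) := by
    exact_mod_cast h4
  linarith

theorem tb_eq (d : ℕ) : ∀ m : ℕ, tb d m = tb d 0 + (J d 2 + 2 * J d 3 + J d 4) - (J d (2 * m + 2) + 2 * J d (2 * m + 3) + J d (2 * m + 4)) := by
  intro m
  induction m with
  | zero =>
    simp only [Nat.cast_zero, mul_zero, zero_add]
    ring
  | succ m ih =>
    rw [tb_succ, ih]
    have e := J_rec d (2 * (m : ℤ) + 2)
    unfold H
    push_cast
    rw [show 2 * ((m : ℤ) + 1) = 2 * m + 2 by ring]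
    rw [show 2 * (m : ℤ) + 2 + 1 = 2 * m + 3 by ring, show 2 * (m : ℤ) + 2 + 2 = 2 * m + 4 by ring] at e
    rw [show 2 * (m : ℤ) + 2 + 2 = 2 * m + 4 by ring, show 2 * (m : ℤ) + 2 + 3 = 2 * m + 5 by ring,
      show 2 * (m : ℤ) + 2 + 4 = 2 * m + 6 by ring]
    linarith

open Classical in
/-- the number of the closed words with the pattern -/
theorem BD_card (d : ℕ) : (((univ : Finset (Fin (d + 2) → Bool × Bool)).filter (fun w => df w (d + 2) = 0 ∧ BD w)).card : ℤ) =
    J (d + 2) 2 + (J d 0 + 2 * J d 1 - 2 * J d 3 - J d 4) := by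
  have h := tb_eq (d + 2) (d + 2)
  rw [J_top (d + 2) (2 * ((d + 2 : ℕ) : ℤ) + 2) (by push_cast; omega), J_top (d + 2) (2 * ((d + 2 : ℕ) : ℤ) + 3) (by push_cast; omega),
    J_top (d + 2) (2 * ((d + 2 : ℕ) : ℤ) + 4) (by push_cast; omega), tb_zero] at h
  unfold tb at h
  have h1 : ((univ : Finset (Fin (d + 2) → Bool × Bool)).filter
      (fun w => df w (d + 2) = 0 ∧ ¬ BD w ∧ ∀ j ≤ d + 2, -((d + 2 : ℕ) : ℤ) ≤ df w j)) =
      (univ : Finset (Fin (d + 2) → Bool × Bool)).filter (fun w => df w (d + 2) = 0 ∧ ¬ BD w) := by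
    refine Finset.filter_congr fun w _ => ?_
    exact ⟨fun h => ⟨h.1, h.2.1⟩, fun h => ⟨h.1, h.2, fun j _ => df_ge w j⟩⟩
  rw [h1] at h
  have h2 : (((univ : Finset (Fin (d + 2) → Bool × Bool)).filter (fun w => df w (d + 2) = 0)).card : ℤ) = K (d + 2) 0 := by
    rw [RFA_end]
    rfl
  have h3 : ((univ : Finset (Fin (d + 2) → Bool × Bool)).filter (fun w => df w (d + 2) = 0 ∧ BD w)).card +
      ((univ : Finset (Fin (d + 2) → Bool × Bool)).filter (fun w => df w (d + 2) = 0 ∧ ¬ BD w)).card =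
      ((univ : Finset (Fin (d + 2) → Bool × Bool)).filter (fun w => df w (d + 2) = 0)).card := by
    rw [← filter_filter, ← filter_filter, card_filter_add_card_filter_not]
  have h4 : (((univ : Finset (Fin (d + 2) → Bool × Bool)).filter (fun w => df w (d + 2) = 0 ∧ BD w)).card : ℤ) +
      (((univ : Finset (Fin (d + 2) → Bool × Bool)).filter (fun w => df w (d + 2) = 0 ∧ ¬ BD w)).card : ℤ) =
      (((univ : Finset (Fin (d + 2) → Bool × Bool)).filter (fun w => df w (d + 2) = 0)).card : ℤ) := by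
    exact_mod_cast h3
  rw [h, h2] at h4
  have e1 := J_rec (d + 2) 0
  have e2 := J_rec d 0
  unfold H at h4
  simp only [zero_add] at h4 e1 e2
  linarith

end Pool.Agent.H85.CY3
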