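import Pool.Agent.H85.CY3.D
import Pool.Agent.H85.CY3.G

/-!
# The residue -2: the maximum grows exactly when the pattern occurs at the maximum
-/

set_option autoImplicit false

open Finset

noncomputable section

namespace Pool.Agent.H85.CY3

open Pool.Agent.H63.CY

theorem BD_iff {d p : ℕ} (hd : 2 ≤ d) {U V : ℤ → ℤ} (hU : U ∈ LF0 d p) (hV : V ∈ LF0 d p) {M : ℤ}
    (hM : ∀ i, U i - V i ≤ M) (hM0 : ∃ i, U i - V i = M) :
    BD (fun c : Fin d => (RFB_w d V c, RFB_w d U c)) ↔ ∃ i : ℤ, U i - V i = M ∧ U i = U (i - 1) ∧ U (i + 1) = U i + 1 := by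
  have hper : ∀ i, (fun i => U i - V i) (i + d) = (fun i => U i - V i) i := fun i => CTC_per0 hU hV i
  have hmin : ∀ j : ℕ, j ≤ d → ((∀ k ≤ d, df (fun c : Fin d => (RFB_w d V c, RFB_w d U c)) j ≤ df (fun c : Fin d => (RFB_w d V c, RFB_w d U c)) k) ↔
      U j - V j = M) := by
    intro j hj
    constructor
    · intro h
      obtain ⟨i0, hi0⟩ := hM0
      obtain ⟨k, hk, h9', _⟩ := per_red (f := fun i => U i - V i) (by omega : 1 ≤ d) hper i0
      have h9 : U k - V k = U i0 - V i0 := h9'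
      have h10 := h k hk.le
      rw [df_pair hU hV j hj, df_pair hU hV k hk.le] at h10
      have h11 := hM j
      omega
    · intro h k hk
      rw [df_pair hU hV j hj, df_pair hU hV k hk]
      have h11 := hM k
      omega
  have hstep : ∀ i : ℤ, U (i + 1) = U i ∨ U (i + 1) = U i + 1 := by
    intro i
    have := hU.1.1 i
    omega
  unfold BD
  constructor
  · rintro (⟨j, hj, h1, h2, h3⟩ | ⟨h0, h1, h2, h3⟩)
    · rw [hmin (j + 1) (by omega)] at h1
      refine ⟨((j + 1 : ℕ) : ℤ), h1, ?_, ?_⟩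
      · have h4 : ¬ (U ((j : ℤ) + 1) ≠ U (j : ℤ)) := by
          simpa [RFB_w] using h2
        push Not at h4
        push_cast
        rw [show (j : ℤ) + 1 - 1 = j by ring]
        exact h4
      · have h4 : U (((j + 1 : ℕ) : ℤ) + 1) ≠ U ((j + 1 : ℕ) : ℤ) := by
          simpa [RFB_w] using h3
        rcases hstep ((j + 1 : ℕ) : ℤ) with h5 | h5
        · exact absurd h5 h4
        · exact h5
    · have h1' : ∀ k ≤ d, df (fun c : Fin d => (RFB_w d V c, RFB_w d U c)) 0 ≤ df (fun c : Fin d => (RFB_w d V c, RFB_w d U c)) k := by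
        intro k hk
        rw [RFA_df_zero]
        exact h1 k hk
      rw [hmin 0 (by omega)] at h1'
      refine ⟨0, by simpa using h1', ?_, ?_⟩
      · have h4 : ¬ (U (((d - 1 : ℕ) : ℤ) + 1) ≠ U ((d - 1 : ℕ) : ℤ)) := by
          simpa [RFB_w] using h2
        push Not at h4
        have h5 := hU.1.2 (-1)
        have h6 := hU.1.2 0
        have e1 : ((d - 1 : ℕ) : ℤ) + 1 = 0 + d := by omega
        have e2 : ((d - 1 : ℕ) : ℤ) = -1 + d := by omega
        rw [e1, e2, h5, h6] at h4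
        rw [zero_sub]
        linarith
      · have h4 : U (((0 : ℕ) : ℤ) + 1) ≠ U ((0 : ℕ) : ℤ) := by
          simpa [RFB_w] using h3
        have h4' : U (0 + 1) ≠ U 0 := by exact_mod_cast h4
        rcases hstep 0 with h5 | h5
        · exact absurd h5 h4'
        · exact h5
  · rintro ⟨i, h1, h2, h3⟩
    have hd' : (0 : ℤ) < d := by omega
    have r1 := Int.emod_nonneg i hd'.ne'
    have r2 := Int.emod_lt_of_pos i hd'
    have r3 := Int.emod_add_mul_ediv i d
    obtain ⟨r, hr⟩ := Int.eq_ofNat_of_zero_le r1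
    set k := i / (d : ℤ) with hk
    have e0 : i = (r : ℤ) + d * k := by rw [← r3, hr]
    have e1 : i - 1 = ((r : ℤ) - 1) + d * k := by rw [e0]; ring
    have e2 : i + 1 = ((r : ℤ) + 1) + d * k := by rw [e0]; ring
    have p0 := RFB_per hU (r : ℤ) k
    have p1 := RFB_per hU ((r : ℤ) - 1) k
    have p2 := RFB_per hU ((r : ℤ) + 1) k
    have q0 := RFB_per hV (r : ℤ) k
    rw [e0, p0, q0] at h1
    rw [e1, e0, p0, p1] at h2
    rw [e2, e0, p0, p2] at h3
    have a1 : U r - V r = M := by linarith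
    have a2 : U r = U ((r : ℤ) - 1) := by linarith
    have a3 : U ((r : ℤ) + 1) = U r + 1 := by linarith
    have hrd : r < d := by omega
    rcases Nat.eq_zero_or_pos r with hr0 | hr0
    · right
      subst hr0
      refine ⟨by omega, ?_, ?_, ?_⟩
      · have h4 := (hmin 0 (by omega)).2 a1
        intro k hk
        have := h4 k hk
        rw [RFA_df_zero] at this
        exact this
      · have h5 := hU.1.2 (-1)
        have h6 := hU.1.2 0
        have e1 : ((d - 1 : ℕ) : ℤ) + 1 = 0 + d := by omega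
        have e2 : ((d - 1 : ℕ) : ℤ) = -1 + d := by omega
        have a2' : U 0 = U (-1) := by simpa using a2
        have : U (((d - 1 : ℕ) : ℤ) + 1) = U ((d - 1 : ℕ) : ℤ) := by
          rw [e1, e2, h5, h6, a2']
        simp [RFB_w, this]
      · have a3' : U (((0 : ℕ) : ℤ) + 1) ≠ U ((0 : ℕ) : ℤ) := by
          rw [a3]
          omega
        simpa [RFB_w] using a3'
    · left
      obtain ⟨j, rfl⟩ : ∃ j, r = j + 1 := ⟨r - 1, by omega⟩
      refine ⟨j, hrd, (hmin (j + 1) (by omega)).2 a1, ?_, ?_⟩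
      · have : U ((j : ℤ) + 1) = U (j : ℤ) := by
          have h4 := a2
          push_cast at h4
          rw [show (j : ℤ) + 1 - 1 = j by ring] at h4
          exact h4
        simp [RFB_w, this]
      · have a3' : U (((j + 1 : ℕ) : ℤ) + 1) ≠ U ((j + 1 : ℕ) : ℤ) := by
          rw [a3]
          omega
        simpa [RFB_w] using a3'

open Classical in
/-- the residue -2 -/
theorem mxx_neg2 {d p : ℕ} (hd : 2 ≤ d) {U V : ℤ → ℤ} (hU : U ∈ LF0 d p) (hV : V ∈ LF0 d p) :
    mxx d (-2) U V - mxx d 0 U V = if BD (fun c : Fin d => (RFB_w d V c, RFB_w d U c)) then 1 else 0 := by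
  have hd1 : 1 ≤ d := by omega
  set F : ℤ → ℤ := fun i => U i - V i with hF
  have hper : ∀ i, F (i + d) = F i := fun i => CTC_per0 hU hV i
  obtain ⟨hM1, i0, hi0⟩ := mx_spec hd1 hper
  set M := mx d F with hM
  have hx0 : mxx d 0 U V = M := mxx_zero d U V
  have hG := mxx_le hd1 (-2) hU hV
  have hc : ∀ i, (U i = U (i - 1) + 1 ∧ U (i - 1) = U (i - 2) + 1 ∧ U i - V (CTC_x (-2) U i) = U i - V i) ∨
      (U i = U (i - 1) + 1 ∧ U (i - 1) = U (i - 2) ∧ U i - V (CTC_x (-2) U i) = U (i - 1) - V (i - 1) + 1) ∨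
      (U i = U (i - 1) ∧ U (i - 1) = U (i - 2) + 1 ∧ U i - V (CTC_x (-2) U i) = U (i - 1) - V (i - 1)) ∨
      (U i = U (i - 1) ∧ U (i - 1) = U (i - 2) ∧ U i - V (CTC_x (-2) U i) = U (i - 2) - V (i - 2)) := by
    intro i
    have h1 := hU.1.1 (i - 1)
    have h2 := hU.1.1 (i - 2)
    rw [show i - 1 + 1 = i by ring] at h1
    rw [show i - 2 + 1 = i - 1 by ring] at h2
    have hx : CTC_x (-2) U i = i - 2 - (U (i - 2) - U i) := by
      unfold CTC_x
      rw [show i + -2 = i - 2 by ring]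
    rcases (by omega : U i = U (i - 1) + 1 ∨ U i = U (i - 1)) with h | h <;>
    rcases (by omega : U (i - 1) = U (i - 2) + 1 ∨ U (i - 1) = U (i - 2)) with h' | h'
    · left
      refine ⟨h, h', ?_⟩
      rw [hx, show i - 2 - (U (i - 2) - U i) = i by omega]
    · right; left
      refine ⟨h, h', ?_⟩
      rw [hx, show i - 2 - (U (i - 2) - U i) = i - 1 by omega]
      omega
    · right; right; left
      refine ⟨h, h', ?_⟩
      rw [hx, show i - 2 - (U (i - 2) - U i) = i - 1 by omega]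
      omega
    · right; right; right
      refine ⟨h, h', ?_⟩
      rw [hx, show i - 2 - (U (i - 2) - U i) = i - 2 by omega]
      omega
  have hMf : ∀ i, U i - V i ≤ M := hM1
  have hle : mxx d (-2) U V ≤ M + 1 := by
    rw [hG]
    intro i
    have m0 := hMf i
    have m1 := hMf (i - 1)
    have m2 := hMf (i - 2)
    rcases hc i with ⟨_, _, h⟩ | ⟨_, _, h⟩ | ⟨_, _, h⟩ | ⟨_, _, h⟩ <;> rw [h] <;> omega
  have hi0' : U i0 - V i0 = M := hi0
  have hge : M ≤ mxx d (-2) U V := by
    have h1 := (hG _).1 le_rfl (i0 + 1)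
    have v1 := hV.1.1 i0
    have v2 := hV.1.1 (i0 - 1)
    rw [show i0 - 1 + 1 = i0 by ring] at v2
    have h2 := hc (i0 + 1)
    rw [show i0 + 1 - 1 = i0 by ring, show i0 + 1 - 2 = i0 - 1 by ring] at h2
    rcases h2 with ⟨a1, a2, h⟩ | ⟨a1, a2, h⟩ | ⟨a1, a2, h⟩ | ⟨a1, a2, h⟩ <;> rw [h] at h1 <;> omega
  have hiff : (∃ i : ℤ, U i - V i = M ∧ U i = U (i - 1) ∧ U (i + 1) = U i + 1) ↔ mxx d (-2) U V = M + 1 := by
    constructor
    · rintro ⟨i, h1, h2, h3⟩
      have h4 := (hG _).1 le_rfl (i + 1)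
      have h5 := hc (i + 1)
      rw [show i + 1 - 1 = i by ring, show i + 1 - 2 = i - 1 by ring] at h5
      rcases h5 with ⟨a1, a2, h⟩ | ⟨a1, a2, h⟩ | ⟨a1, a2, h⟩ | ⟨a1, a2, h⟩ <;> rw [h] at h4 <;> omega
    · intro h1
      by_contra hcon
      push Not at hcon
      have h2 : mxx d (-2) U V ≤ M := by
        rw [hG]
        intro i
        have m0 := hMf i
        have m1 := hMf (i - 1)
        have m2 := hMf (i - 2)
        have h3 := hcon (i - 1)
        rw [show i - 1 - 1 = i - 2 by ring, show i - 1 + 1 = i by ring] at h3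
        rcases hc i with ⟨a1, a2, h⟩ | ⟨a1, a2, h⟩ | ⟨a1, a2, h⟩ | ⟨a1, a2, h⟩
        · rw [h]; exact m0
        · rw [h]
          by_contra h4
          exact h3 (by omega) a2 (by omega)
        · rw [h]; exact m1
        · rw [h]; exact m2
      omega
  have hB := BD_iff hd hU hV hMf ⟨i0, hi0'⟩
  rw [hiff] at hB
  rw [hx0]
  by_cases h : BD (fun c : Fin d => (RFB_w d V c, RFB_w d U c))
  · rw [if_pos h]
    have := hB.1 h
    omega
  · rw [if_neg h]
    have : mxx d (-2) U V ≠ M + 1 := fun h1 => h (hB.2 h1)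
    omega

/-- the sum over all pairs for the residue -2 -/
theorem sum_neg2 (d : ℕ) :
    ∑ p ∈ range (d + 2 + 1), ∑ U ∈ L0 (d + 2) p, ∑ V ∈ L0 (d + 2) p, (mxx (d + 2) (-2) U V - mxx (d + 2) 0 U V) =
      J (d + 2) 2 + (J d 0 + 2 * J d 1 - 2 * J d 3 - J d 4) := by
  classical
  have hd : 1 ≤ d + 2 := by omega
  rw [← BD_card, Finset.card_filter]
  push_cast
  have h := sum_words' hd (fun w => if BD w then (1 : ℤ) else 0)
  rw [sum_filter] at h
  have h2 : ∑ w : Fin (d + 2) → Bool × Bool, (if df w (d + 2) = 0 ∧ BD w then (1 : ℤ) else 0) =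
      ∑ w : Fin (d + 2) → Bool × Bool, (if df w (d + 2) = 0 then (if BD w then (1 : ℤ) else 0) else 0) := by
    refine sum_congr rfl fun w _ => ?_
    by_cases h1 : df w (d + 2) = 0
    · simp [h1]
    · simp [h1]
  rw [h2, ← h]
  refine sum_congr rfl fun p _ => sum_congr rfl fun U hU => sum_congr rfl fun V hV => ?_
  exact mxx_neg2 (by omega) ((mem_L0 hd).1 hU) ((mem_L0 hd).1 hV)

end Pool.Agent.H85.CY3
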