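import Pool.Agent.H85.CY3.I
import Pool.Agent.H63.CY.Fin

/-!
# Closed forms and the number of closed walks for `n = 1` and `n = -2` modulo `d`
-/

set_option autoImplicit false

open Finset

noncomputable section

namespace Pool.Agent.H85.CY3

open Pool.Agent.H63.CY

/-- `C(n+2, k+2) = C(n,k) + 2 C(n,k+1) + C(n,k+2)` -/
theorem ch2 (n k : ℕ) : ((n + 2).choose (k + 2) : ℤ) = n.choose k + 2 * n.choose (k + 1) + n.choose (k + 2) := by
  have h1 := Nat.choose_succ_succ (n + 1) (k + 1)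
  have h2 := Nat.choose_succ_succ n k
  have h3 := Nat.choose_succ_succ n (k + 1)
  have h : (n + 2).choose (k + 2) = n.choose k + 2 * n.choose (k + 1) + n.choose (k + 2) := by
    show (n + 1 + 1).choose (k + 1 + 1) = _
    rw [h1]
    show (n + 1).choose (k + 1) + (n + 1).choose (k + 1 + 1) = _
    rw [h2, h3]
    ring
  exact_mod_cast h

/-- the sum of `x^i C(2d-2-2i, k)` -/
def XS (x : ℤ) (d k : ℕ) : ℤ := ∑ i ∈ range d, x ^ i * ((2 * d - 2 - 2 * i).choose k : ℤ)

theorem XS_tel (x : ℤ) (hx : x ^ 2 = 1) (d k : ℕ) (_hd : 1 ≤ d) :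
    XS x d k + 2 * XS x d (k + 1) + (1 - x) * XS x d (k + 2) = ((2 * d).choose (k + 2) : ℤ) := by
  have h : ∀ m : ℕ, m ≤ d → ∑ i ∈ range m, x ^ i * ((2 * d - 2 - 2 * i).choose k : ℤ) +
      2 * ∑ i ∈ range m, x ^ i * ((2 * d - 2 - 2 * i).choose (k + 1) : ℤ) +
      (1 - x) * ∑ i ∈ range m, x ^ i * ((2 * d - 2 - 2 * i).choose (k + 2) : ℤ) =
      ((2 * d).choose (k + 2) : ℤ) - x ^ m * ((2 * d - 2 * m).choose (k + 2) : ℤ) := by
    intro m
    induction m with
    | zero => intro _; simp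
    | succ m ih =>
      intro hm
      have := ih (by omega)
      rw [sum_range_succ, sum_range_succ, sum_range_succ]
      have e := ch2 (2 * d - 2 - 2 * m) k
      rw [show 2 * d - 2 - 2 * m + 2 = 2 * d - 2 * m by omega] at e
      rw [show 2 * d - 2 * (m + 1) = 2 * d - 2 - 2 * m by omega, pow_succ]
      rw [e] at this
      linear_combination this
  have h1 := h d le_rfl
  rw [show 2 * d - 2 * d = 0 by omega, Nat.choose_eq_zero_of_lt (by omega : 0 < k + 2)] at h1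
  unfold XS
  rw [h1]
  simp

theorem XS_top (x : ℤ) (d k : ℕ) (h : 2 * d - 2 < k) : XS x d k = 0 := by
  unfold XS
  refine sum_eq_zero fun i _ => ?_
  rw [Nat.choose_eq_zero_of_lt (by omega)]
  simp

theorem E_XS {d : ℕ} (hd : 2 ≤ d) : ∀ k t : ℕ, d < t + k → E d t = XS 1 d (d + t - 2) := by
  intro k
  induction k with
  | zero =>
    intro t ht
    rw [E_top d t (by omega), XS_top 1 d _ (by omega)]
  | succ k ih =>
    intro t ht
    have h1 := ih (t + 1) (by omega)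
    have h2 := XS_tel 1 (by norm_num) d (d + t - 2) (by omega)
    rw [show d + t - 2 + 1 = d + (t + 1) - 2 by omega, show d + t - 2 + 2 = d + t by omega] at h2
    have h3 := E_rec d t
    rw [K_nat] at h3
    push_cast at h1
    rw [h3, h1]
    linarith

/-- closed form for the residue 1 -/
theorem E_closed {d : ℕ} (hd : 2 ≤ d) : E d 0 = ∑ i ∈ range d, ((2 * d - 2 - 2 * i).choose (d - 2) : ℤ) := by
  have h := E_XS hd (d + 1) 0 (by omega)
  rw [Nat.cast_zero, add_zero] at h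
  rw [h]
  unfold XS
  refine sum_congr rfl fun i _ => ?_
  rw [one_pow, one_mul]

theorem J_XS {d : ℕ} (hd : 2 ≤ d) : ∀ k t : ℕ, d < t + k → J d t = XS (-1) d (d + t - 2) := by
  intro k
  induction k using Nat.strong_induction_on with
  | _ k ih =>
    intro t ht
    by_cases hk : d < t
    · rw [J_top d t (by omega), XS_top (-1) d _ (by omega)]
    · obtain ⟨k', rfl⟩ : ∃ k', k = k' + 1 := ⟨k - 1, by omega⟩
      have h1 := ih k' (by omega) (t + 1) (by omega)
      have h1' : J d ((t + 2 : ℕ) : ℤ) = XS (-1) d (d + (t + 2) - 2) := by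
        by_cases hk2 : d < t + 2
        · rw [J_top d _ (by omega), XS_top (-1) d _ (by omega)]
        · exact ih (k' - 1) (by omega) (t + 2) (by omega)
      have h2 := XS_tel (-1) (by norm_num) d (d + t - 2) (by omega)
      rw [show d + t - 2 + 1 = d + (t + 1) - 2 by omega, show d + t - 2 + 2 = d + (t + 2) - 2 by omega] at h2
      have h3 := J_rec d t
      rw [K_nat, show d + t = d + (t + 2) - 2 by omega] at h3
      push_cast at h1 h1'
      rw [h1, h1'] at h3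
      linarith

/-- the inner term -/
theorem J_inner (d : ℕ) : J d 0 + 2 * J d 1 - 2 * J d 3 - J d 4 =
    ∑ i ∈ range (d + 1), (-1) ^ i * (((2 * d - 2 * i).choose d : ℤ) - ((2 * d - 2 * i).choose (d + 2) : ℤ)) := by
  rcases (by omega : d = 0 ∨ d = 1 ∨ 2 ≤ d) with h | h | h
  · subst h; decide
  · subst h; decide
  · have e0 := J_XS h (d + 1) 0 (by omega)
    have e1 := J_XS h (d + 1) 1 (by omega)
    have e2 := J_XS h (d + 1) 2 (by omega)
    have e3 := J_XS h (d + 1) 3 (by omega)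
    have e4 := J_XS h (d + 1) 4 (by omega)
    push_cast at e0 e1 e2 e3 e4
    have e0' : J d 0 = XS (-1) d (d - 2) := by rw [e0]; rfl
    have e1' : J d 1 = XS (-1) d (d - 2 + 1) := by
      rw [e1, show d - 2 + 1 = d - 1 by omega]
    have e2' : J d 2 = XS (-1) d (d - 2 + 2) := by
      rw [e2, show d - 2 + 2 = d by omega]
    have e3' : J d 3 = XS (-1) d (d + 1) := e3
    have e4' : J d 4 = XS (-1) d (d + 2) := e4
    have e2'' : J d 2 = XS (-1) d d := e2
    rw [show J d 0 + 2 * J d 1 - 2 * J d 3 - J d 4 = (J d 0 + 2 * J d 1 + J d 2) - (J d 2 + 2 * J d 3 + J d 4) by ring]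
    have s1 : J d 0 + 2 * J d 1 + J d 2 = ∑ i ∈ range d, (-1) ^ i * ((2 * d - 2 * i).choose d : ℤ) := by
      rw [e0', e1', e2']
      unfold XS
      rw [mul_sum, ← sum_add_distrib, ← sum_add_distrib]
      refine sum_congr rfl fun i hi => ?_
      rw [mem_range] at hi
      have e := ch2 (2 * d - 2 - 2 * i) (d - 2)
      rw [show 2 * d - 2 - 2 * i + 2 = 2 * d - 2 * i by omega, show d - 2 + 2 = d by omega] at e
      rw [show d - 2 + 2 = d by omega, e]
      ring
    have s2 : J d 2 + 2 * J d 3 + J d 4 = ∑ i ∈ range d, (-1) ^ i * ((2 * d - 2 * i).choose (d + 2) : ℤ) := by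
      rw [e2'', e3', e4']
      unfold XS
      rw [mul_sum, ← sum_add_distrib, ← sum_add_distrib]
      refine sum_congr rfl fun i hi => ?_
      rw [mem_range] at hi
      have e := ch2 (2 * d - 2 - 2 * i) d
      rw [show 2 * d - 2 - 2 * i + 2 = 2 * d - 2 * i by omega] at e
      rw [e]
      ring
    rw [s1, s2, ← sum_sub_distrib, sum_range_succ, show 2 * d - 2 * d = 0 by omega,
      Nat.choose_eq_zero_of_lt (by omega : 0 < d), Nat.choose_eq_zero_of_lt (by omega : 0 < d + 2)]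
    push_cast
    rw [mul_zero, add_zero]
    refine sum_congr rfl fun i _ => ?_
    ring

/-- closed form for the residue -2 -/
theorem BD_closed (d : ℕ) : J (d + 2) 2 + (J d 0 + 2 * J d 1 - 2 * J d 3 - J d 4) =
    2 * ∑ i ∈ range (d + 1), (-1) ^ i * ((2 * d + 1 - 2 * i).choose (d + 1) : ℤ) := by
  have e2 := J_XS (d := d + 2) (by omega) (d + 3) 2 (by omega)
  push_cast at e2
  rw [J_inner, e2]
  unfold XS
  rw [sum_range_succ, show 2 * (d + 2) - 2 - 2 * (d + 1) = 0 by omega, Nat.choose_eq_zero_of_lt (by omega : 0 < d + 2)]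
  push_cast
  rw [mul_zero, add_zero, ← sum_add_distrib, mul_sum]
  refine sum_congr rfl fun i hi => ?_
  rw [mem_range] at hi
  have e := ch2 (2 * d - 2 * i) d
  rw [show 2 * d - 2 * i + 2 = 2 * (d + 2) - 2 - 2 * i by omega] at e
  have e' := Nat.choose_succ_succ (2 * d - 2 * i) d
  rw [show (2 * d - 2 * i).succ = 2 * d + 1 - 2 * i by omega, Nat.succ_eq_add_one] at e'
  rw [e, e']
  push_cast
  ring

/-! ## closed walks -/

theorem LF0_const {d : ℕ} (hd : 1 ≤ d) {U V : ℤ → ℤ} {p : ℕ} (hp : p = 0 ∨ p = d) (hU : U ∈ LF0 d p) (hV : V ∈ LF0 d p) : U = V := by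
  funext i
  rcases hp with h | h
  · subst h
    rw [UVD_const hd hU.1 i, UVD_const hd hV.1 i, hU.2, hV.2]
  · subst h
    rw [UVD_top hd hU.1 i, UVD_top hd hV.1 i, hU.2, hV.2]

/-- the difference of two residues, all `p` -/
theorem TS_diff {n m d e : ℕ} {r s : ℤ} (hd : 1 ≤ d) (hn' : (n : ℤ) = ((e * d : ℕ) : ℤ) + r) (hm' : (m : ℤ) = ((e * d : ℕ) : ℤ) + s)
    (hn : d ≤ n) (hm : d ≤ m)
    (hend : ∀ p U V, (p = 0 ∨ p = d) → U ∈ L0 d p → V ∈ L0 d p → mxx d s U V - mxx d r U V = 0) :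
    ((TS n d).ncard : ℤ) = (TS m d).ncard + ∑ p ∈ range (d + 1), ∑ U ∈ L0 d p, ∑ V ∈ L0 d p, (mxx d s U V - mxx d r U V) := by
  rw [TS_card _ hd, TS_card _ hd, TSF_split hd, TSF_split hd, GP_zero _ hd, GP_zero _ hd, GP_top _ hd, GP_top _ hd]
  have h1 : ∑ p ∈ range (d + 1), ∑ U ∈ L0 d p, ∑ V ∈ L0 d p, (mxx d s U V - mxx d r U V) =
      ∑ p ∈ Ico 1 d, ∑ U ∈ L0 d p, ∑ V ∈ L0 d p, (mxx d s U V - mxx d r U V) := by
    rw [sum_range_succ, range_eq_Ico, sum_eq_sum_Ico_succ_bot (by omega)]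
    have z0 : ∑ U ∈ L0 d 0, ∑ V ∈ L0 d 0, (mxx d s U V - mxx d r U V) = 0 :=
      sum_eq_zero fun U hU => sum_eq_zero fun V hV => hend 0 U V (Or.inl rfl) hU hV
    have z1 : ∑ U ∈ L0 d d, ∑ V ∈ L0 d d, (mxx d s U V - mxx d r U V) = 0 :=
      sum_eq_zero fun U hU => sum_eq_zero fun V hV => hend d U V (Or.inr rfl) hU hV
    rw [z0, z1]
    ring
  rw [h1]
  push_cast
  have h2 : ∑ p ∈ Ico 1 d, ((GP n d p).ncard : ℤ) = ∑ p ∈ Ico 1 d, ((GP m d p).ncard : ℤ) +
      ∑ p ∈ Ico 1 d, ∑ U ∈ L0 d p, ∑ V ∈ L0 d p, (mxx d s U V - mxx d r U V) := by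
    rw [← sum_add_distrib]
    refine sum_congr rfl fun p hp => ?_
    rw [mem_Ico] at hp
    exact GP_diff hn' hm' hn hm hp.1 hp.2
  rw [h2]
  ring

/-- at the ends all maxima vanish -/
theorem mxx_end {d p : ℕ} (hd : 1 ≤ d) (r : ℤ) {U V : ℤ → ℤ} (hp : p = 0 ∨ p = d) (hU : U ∈ L0 d p) (hV : V ∈ L0 d p) :
    mxx d r U V = 0 := by
  have hU' := (mem_L0 hd).1 hU
  have hV' := (mem_L0 hd).1 hV
  have h := mxx_le hd r hU' hV'
  have hz : ∀ i, U i - V (CTC_x r U i) = 0 := by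
    intro i
    rw [← LF0_const hd hp hU' hV']
    rcases hp with h | h
    · subst h
      rw [UVD_const hd hU'.1 i, UVD_const hd hU'.1 (CTC_x r U i)]
      ring
    · subst h
      have e : CTC_x r U i = i := by
        unfold CTC_x
        rw [UVD_top hd hU'.1 (i + r), UVD_top hd hU'.1 i]
        ring
      rw [e]
      ring
  have h1 : mxx d r U V ≤ 0 := (h 0).2 fun i => by rw [hz i]
  have h2 := (h _).1 le_rfl 0
  rw [hz 0] at h2
  omega

/-- `TS` for a multiple of `d` -/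
theorem TS_mult {d e : ℕ} (hd : 1 ≤ d) (he : 1 ≤ e) : 2 * ((TS (e * d) d).ncard : ℤ) =
    3 * (2 * d).choose d - 4 ^ d + 2 * e * ((d - 1) * (2 * d - 2).choose (d - 1)) := by
  obtain ⟨e, rfl⟩ := Nat.exists_eq_add_of_le' he
  rw [TS_mul hd e]
  have h := TS_d hd
  push_cast [Nat.cast_sub hd]
  linarith

/-- residue 1 -/
theorem W_one {n d e : ℕ} (hd : 2 ≤ d) (he : 1 ≤ e) (hn : n = e * d + 1) :
    2 * (W n d : ℤ) = 3 * (2 * d).choose d - 4 ^ d + 2 * e * ((d - 1) * (2 * d - 2).choose (d - 1)) +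
      2 * ∑ i ∈ range d, ((2 * d - 2 - 2 * i).choose (d - 2) : ℤ) := by
  have hd1 : 1 ≤ d := by omega
  have hed : d ≤ e * d := by nlinarith
  rw [W_TS hd1 (by omega)]
  have h := TS_diff (n := n) (m := e * d) (d := d) (e := e) (r := 1) (s := 0) hd1 (by rw [hn]; push_cast; ring) (by ring) (by omega) hed
    (fun p U V hp hU hV => by rw [mxx_end hd1 _ hp hU hV, mxx_end hd1 _ hp hU hV]; ring)
  rw [sum_one' hd1, E_closed hd] at h
  have h2 := TS_mult hd1 he
  rw [h]
  linarith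

/-- residue -2 -/
theorem W_neg2 {n d e : ℕ} (hd : 2 ≤ d) (hn : n + 2 = e * d) (hdn : d < n) :
    2 * (W n d : ℤ) = 3 * (2 * d).choose d - 4 ^ d + 2 * e * ((d - 1) * (2 * d - 2).choose (d - 1)) -
      4 * ∑ i ∈ range (d - 1), (-1) ^ i * ((2 * d - 3 - 2 * i).choose (d - 1) : ℤ) := by
  have hd1 : 1 ≤ d := by omega
  have he : 1 ≤ e := by
    rcases Nat.eq_zero_or_pos e with h | h
    · subst h; omega
    · exact h
  obtain ⟨c, rfl⟩ := Nat.exists_eq_add_of_le' hd
  rw [W_TS hd1 (by omega)]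
  have h := TS_diff (n := n) (m := e * (c + 2)) (d := c + 2) (e := e) (r := -2) (s := 0) hd1 (by rw [← hn]; push_cast; ring) (by ring) (by omega) (by omega)
    (fun p U V hp hU hV => by rw [mxx_end hd1 _ hp hU hV, mxx_end hd1 _ hp hU hV]; ring)
  have h3 : ∑ p ∈ range (c + 2 + 1), ∑ U ∈ L0 (c + 2) p, ∑ V ∈ L0 (c + 2) p, (mxx (c + 2) 0 U V - mxx (c + 2) (-2) U V) =
      - (2 * ∑ i ∈ range (c + 1), (-1) ^ i * ((2 * c + 1 - 2 * i).choose (c + 1) : ℤ)) := by
    rw [← BD_closed, ← sum_neg2, ← sum_neg_distrib]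
    refine sum_congr rfl fun p _ => ?_
    rw [← sum_neg_distrib]
    refine sum_congr rfl fun U _ => ?_
    rw [← sum_neg_distrib]
    refine sum_congr rfl fun V _ => ?_
    ring
  rw [h3] at h
  have h2 := TS_mult hd1 he
  have e1 : c + 2 - 1 = c + 1 := by omega
  have e2 : ∀ i, 2 * (c + 2) - 3 - 2 * i = 2 * c + 1 - 2 * i := fun i => by omega
  simp only [e1, e2] at h2 ⊢
  rw [h]
  linarith

end Pool.Agent.H85.CY3
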