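import Pool.Agent.H85.CY3.A

/-!
# The linear functional `Psi` on power series

`Psi φ d t = ∑_k φ_k C(2d - k, d + t)`. With `z = X (1 - X)` multiplication by `z` lowers `d`, multiplication by `X^2` (and `d + 1`) raises `t`, and so on.
-/

set_option autoImplicit false

open Finset PowerSeries

noncomputable section

namespace Pool.Agent.H85.CY3

open Pool.Agent.H63.CY

/-- `∑_k φ_k C(2d - k, d + t)` -/
def Psi (φ : ℤ⟦X⟧) (d : ℕ) (t : ℤ) : ℤ := ∑ k ∈ range (2 * d + 1), coeff k φ * (RFA_bz (2 * d - k) (d + t) : ℤ)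

theorem Psi_add (φ ψ : ℤ⟦X⟧) (d : ℕ) (t : ℤ) : Psi (φ + ψ) d t = Psi φ d t + Psi ψ d t := by
  unfold Psi
  rw [← sum_add_distrib]
  refine sum_congr rfl fun k _ => ?_
  rw [map_add]
  ring

theorem Psi_sub (φ ψ : ℤ⟦X⟧) (d : ℕ) (t : ℤ) : Psi (φ - ψ) d t = Psi φ d t - Psi ψ d t := by
  unfold Psi
  rw [← sum_sub_distrib]
  refine sum_congr rfl fun k _ => ?_
  rw [map_sub]
  ring

theorem Psi_two (φ : ℤ⟦X⟧) (d : ℕ) (t : ℤ) : Psi (2 * φ) d t = 2 * Psi φ d t := by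
  rw [two_mul, Psi_add, two_mul]

theorem Psi_one (d : ℕ) (t : ℤ) : Psi 1 d t = K d t := by
  unfold Psi K
  rw [sum_range_succ']
  rw [sum_eq_zero]
  · simp
  · intro k _
    rw [coeff_one, if_neg (by omega)]
    simp

theorem bz_zero {x : ℤ} (n : ℕ) (h : (n : ℤ) < x) : RFA_bz n x = 0 := by
  unfold RFA_bz
  rw [if_neg (by omega)]
  exact Nat.choose_eq_zero_of_lt (by omega)

theorem Psi_top (φ : ℤ⟦X⟧) (d : ℕ) (t : ℤ) (h : (d : ℤ) < t) : Psi φ d t = 0 := by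
  unfold Psi
  refine sum_eq_zero fun k _ => ?_
  rw [bz_zero _ (by omega)]
  simp

/-- multiplication by `X^2` -/
theorem Psi_XX (φ : ℤ⟦X⟧) (d : ℕ) (t : ℤ) : Psi (X ^ 2 * φ) (d + 1) t = Psi φ d (t + 1) := by
  unfold Psi
  rw [show 2 * (d + 1) + 1 = 2 * d + 1 + 1 + 1 by ring, sum_range_succ', sum_range_succ']
  have h0 : coeff 0 (X ^ 2 * φ) = 0 := by
    rw [coeff_X_pow_mul']
    simp
  have h1 : coeff (0 + 1) (X ^ 2 * φ) = 0 := by
    rw [coeff_X_pow_mul']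
    simp
  rw [h0, h1]
  simp only [zero_mul, add_zero]
  refine sum_congr rfl fun k _ => ?_
  rw [show k + 1 + 1 = k + 2 by ring, coeff_X_pow_mul]
  rw [show 2 * (d + 1) - (k + 2) = 2 * d - k by omega, show ((d + 1 : ℕ) : ℤ) + t = d + (t + 1) by push_cast; ring]

/-- the rule `X φ` at `t` against `(1 - X) φ` at `t + 1` -/
theorem Psi_q (φ : ℤ⟦X⟧) (d : ℕ) (t : ℤ) (ht : 0 ≤ t) : Psi (X * φ) d t = Psi ((1 - X) * φ) d (t + 1) := by
  have h : Psi ((1 - X) * φ) d (t + 1) = Psi φ d (t + 1) - Psi (X * φ) d (t + 1) := by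
    rw [← Psi_sub]
    congr 1
    ring
  rw [h]
  unfold Psi
  rw [sum_range_succ', sum_range_succ (fun k => coeff k φ * (RFA_bz (2 * d - k) (d + (t + 1)) : ℤ)),
    sum_range_succ' (fun k => coeff k (X * φ) * (RFA_bz (2 * d - k) (d + (t + 1)) : ℤ))]
  have h0 : coeff 0 (X * φ) = 0 := by simp
  rw [h0, show 2 * d - 2 * d = 0 by omega, bz_zero 0 (by push_cast; omega)]
  simp only [zero_mul, add_zero, Nat.cast_zero, mul_zero]
  rw [← sum_sub_distrib]
  refine sum_congr rfl fun k hk => ?_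
  rw [mem_range] at hk
  rw [coeff_succ_X_mul]
  have e := RFA_bz_succ (2 * d - (k + 1)) (d + (t + 1))
  rw [show 2 * d - (k + 1) + 1 = 2 * d - k by omega, show (d : ℤ) + (t + 1) - 1 = d + t by ring] at e
  rw [e]
  push_cast
  ring

/-- multiplication by `z = X (1 - X)` -/
theorem Psi_z (φ : ℤ⟦X⟧) (d : ℕ) (t : ℤ) (ht : 0 ≤ t) : Psi (X * (1 - X) * φ) (d + 1) t = Psi φ d t := by
  have h : Psi (X * (1 - X) * φ) (d + 1) t = Psi (X * φ) (d + 1) t - Psi (X ^ 2 * φ) (d + 1) t := by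
    rw [← Psi_sub]
    congr 1
    ring
  rw [h, Psi_XX]
  unfold Psi
  rw [show 2 * (d + 1) + 1 = 2 * d + 1 + 1 + 1 by ring, sum_range_succ', sum_range_succ]
  have h0 : coeff 0 (X * φ) = 0 := by simp
  rw [h0, show 2 * (d + 1) - (2 * d + 1 + 1) = 0 by omega, bz_zero 0 (by push_cast; omega)]
  simp only [zero_mul, add_zero, Nat.cast_zero, mul_zero]
  rw [← sum_sub_distrib]
  refine sum_congr rfl fun k hk => ?_
  rw [mem_range] at hk
  rw [coeff_succ_X_mul]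
  have e := RFA_bz_succ (2 * d - k) (d + (t + 1))
  rw [show (d : ℤ) + (t + 1) - 1 = d + t by ring] at e
  rw [show 2 * (d + 1) - (k + 1) = 2 * d - k + 1 by omega, show ((d + 1 : ℕ) : ℤ) + t = d + (t + 1) by push_cast; ring, e]
  push_cast
  ring

/-- multiplication by `(1 - X)^2` -/
theorem Psi_inv (φ : ℤ⟦X⟧) (d : ℕ) (t : ℤ) (ht : 1 ≤ t) : Psi ((1 - X) ^ 2 * φ) (d + 1) t = Psi φ d (t - 1) := by
  have h : Psi ((1 - X) ^ 2 * φ) (d + 1) t = Psi φ (d + 1) t - 2 * Psi (X * φ) (d + 1) t + Psi (X ^ 2 * φ) (d + 1) t := by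
    rw [← Psi_two, ← Psi_sub, ← Psi_add]
    congr 1
    ring
  rw [h, Psi_XX]
  unfold Psi
  rw [show 2 * (d + 1) + 1 = 2 * d + 1 + 1 + 1 by ring]
  rw [sum_range_succ (fun k => coeff k φ * (RFA_bz (2 * (d + 1) - k) (((d + 1 : ℕ) : ℤ) + t) : ℤ)),
    sum_range_succ (fun k => coeff k φ * (RFA_bz (2 * (d + 1) - k) (((d + 1 : ℕ) : ℤ) + t) : ℤ)),
    sum_range_succ' (fun k => coeff k (X * φ) * (RFA_bz (2 * (d + 1) - k) (((d + 1 : ℕ) : ℤ) + t) : ℤ)),
    sum_range_succ (fun k => coeff (k + 1) (X * φ) * (RFA_bz (2 * (d + 1) - (k + 1)) (((d + 1 : ℕ) : ℤ) + t) : ℤ))]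
  have h0 : coeff 0 (X * φ) = 0 := by simp
  rw [h0, show 2 * (d + 1) - (2 * d + 1 + 1) = 0 by omega, show 2 * (d + 1) - (2 * d + 1) = 1 by omega,
    bz_zero 0 (by push_cast; omega), bz_zero 1 (by push_cast; omega)]
  simp only [zero_mul, add_zero, Nat.cast_zero, mul_zero]
  rw [mul_sum, ← sum_sub_distrib, ← sum_add_distrib]
  refine sum_congr rfl fun k hk => ?_
  rw [mem_range] at hk
  rw [coeff_succ_X_mul]
  have e := RFA_bz_succ (2 * d - k) (d + (t + 1))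
  have e' := RFA_bz_succ (2 * d - k + 1) (d + (t + 1))
  have e'' := RFA_bz_succ (2 * d - k) (d + t)
  rw [show (d : ℤ) + (t + 1) - 1 = d + t by ring] at e e'
  rw [show (d : ℤ) + t - 1 = d + (t - 1) by ring] at e''
  rw [show 2 * (d + 1) - k = 2 * d - k + 1 + 1 by omega, show 2 * (d + 1) - (k + 1) = 2 * d - k + 1 by omega,
    show ((d + 1 : ℕ) : ℤ) + t = d + (t + 1) by push_cast; ring, e', e, e'']
  push_cast
  ring

/-- the recursion -/
theorem Psi_rec (φ : ℤ⟦X⟧) (d : ℕ) (t : ℤ) (ht : 1 ≤ t) :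
    Psi φ (d + 1) t = Psi φ d (t - 1) + 2 * Psi φ d t + Psi φ d (t + 1) := by
  rw [← Psi_inv φ d t ht, ← Psi_z φ d t (by omega), ← Psi_XX, ← Psi_two, ← Psi_add, ← Psi_add]
  congr 1
  ring

/-- the value at `t = 0` -/
theorem Psi_val (f : ℤ⟦X⟧) (d : ℕ) (hd : 1 ≤ d) : Psi ((1 - X) * f) d 0 = ∑ k ∈ range (d + 1), coeff k f * ((2 * d - 1 - k).choose (d - 1) : ℤ) := by
  have h : Psi ((1 - X) * f) d 0 = Psi f d 0 - Psi (X * f) d 0 := by
    rw [← Psi_sub]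
    congr 1
    ring
  rw [h]
  unfold Psi
  rw [sum_range_succ (fun k => coeff k f * (RFA_bz (2 * d - k) (d + 0) : ℤ)),
    sum_range_succ' (fun k => coeff k (X * f) * (RFA_bz (2 * d - k) (d + 0) : ℤ))]
  have h0 : coeff 0 (X * f) = 0 := by simp
  rw [h0, show 2 * d - 2 * d = 0 by omega, bz_zero 0 (by push_cast; omega)]
  simp only [zero_mul, add_zero, Nat.cast_zero, mul_zero]
  rw [← sum_sub_distrib]
  have hz : ∑ k ∈ range (2 * d), coeff k f * ((2 * d - 1 - k).choose (d - 1) : ℤ) =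
      ∑ k ∈ range (d + 1), coeff k f * ((2 * d - 1 - k).choose (d - 1) : ℤ) := by
    symm
    refine sum_subset ?_ ?_
    · intro k hk
      rw [mem_range] at hk ⊢
      omega
    · intro k hk2 hk
      rw [mem_range] at hk hk2
      rw [Nat.choose_eq_zero_of_lt (by omega)]
      simp
  rw [← hz]
  refine sum_congr rfl fun k hk => ?_
  rw [mem_range] at hk
  rw [coeff_succ_X_mul]
  have e := RFA_bz_succ (2 * d - (k + 1)) d
  rw [show 2 * d - (k + 1) + 1 = 2 * d - k by omega] at e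
  rw [e]
  have e2 : RFA_bz (2 * d - (k + 1)) ((d : ℤ) - 1) = (2 * d - 1 - k).choose (d - 1) := by
    unfold RFA_bz
    rw [if_neg (by omega), show 2 * d - (k + 1) = 2 * d - 1 - k by omega]
    congr 1
    omega
  rw [e2]
  push_cast
  ring

end Pool.Agent.H85.CY3
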