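import Pool.Agent.H85.CY3.B
import Pool.Agent.H85.CY3.G
import Pool.Agent.H85.CY3.P

/-!
# Linear words whose horizontal steps at the floor come in the groups `tt`, `ff` or `tt ff` only
-/

set_option autoImplicit false

open Finset PowerSeries

noncomputable section

namespace Pool.Agent.H85.CY3

open Pool.Agent.H63.CY

/-- `z = X (1 - X)` -/
def zz : ℤ⟦X⟧ := X * (1 - X)

/-- the denominator -/
def DD : ℤ⟦X⟧ := 1 - (1 + zz) ^ 2 * X ^ 2

/-- its inverse -/
def Di : ℤ⟦X⟧ := invOfUnit DD 1

theorem DD_Di : DD * Di = 1 := by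
  unfold Di
  apply mul_invOfUnit
  simp [DD]

def th : ℤ⟦X⟧ := (1 - 2 * X) * Di

def eta : ℤ⟦X⟧ := (1 + zz) ^ 2 * th - 1

theorem th_eq : th = (1 - X) ^ 2 + X ^ 2 * eta := by
  have h := DD_Di
  unfold DD at h
  unfold eta th
  linear_combination (1 - 2 * X) * h

/-- good words -/
def L2 (d : ℕ) (a m : ℤ) (w : Fin d → Bool × Bool) : Prop :=
  df w d = a ∧ (∀ j ≤ d, -m ≤ df w j) ∧ ∀ (j : ℕ) (h : j + 1 < d), df w j = -m → df w (j + 1) = -m → df w (j + 2) = -m →
    ((w ⟨j, by omega⟩).2 = true ∧ (w ⟨j + 1, h⟩).2 = false)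

theorem L2_cons {d : ℕ} {a m : ℤ} (hm : 0 ≤ m) (x : Bool × Bool) (w : Fin d → Bool × Bool) :
    L2 (d + 1) a m (Fin.cons x w : Fin (d + 1) → Bool × Bool) ↔
      L2 d (a - RFA_st x) (m + RFA_st x) w ∧
        (RFA_st x = 0 → m = 0 → ∀ h : 0 < d, df w 1 = 0 → (x.2 = true ∧ (w ⟨0, h⟩).2 = false)) := by
  unfold L2
  constructor
  · rintro ⟨h1, h2, h3⟩
    refine ⟨⟨?_, ?_, ?_⟩, ?_⟩
    · rw [RFA_df_succ] at h1
      linarith
    · intro j hj
      have := h2 (j + 1) (by omega)
      rw [RFA_df_succ] at this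
      linarith
    · intro j hj h4 h5 h6
      exact h3 (j + 1) (by omega) (by rw [RFA_df_succ, h4]; ring) (by rw [RFA_df_succ, h5]; ring)
        (by rw [show j + 1 + 2 = j + 2 + 1 by ring, RFA_df_succ, h6]; ring)
    · intro hx h0 h h4
      exact h3 0 (by omega) (by rw [RFA_df_zero, h0]; ring) (by rw [RFA_df_succ, RFA_df_zero, hx, h0]; ring)
        (by rw [show 0 + 2 = 1 + 1 by ring, RFA_df_succ, hx, h4, h0]; ring)
  · rintro ⟨⟨h1, h2, h3⟩, h4⟩
    refine ⟨?_, ?_, ?_⟩
    · rw [RFA_df_succ]
      linarith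
    · intro j hj
      rcases j with _ | j
      · rw [RFA_df_zero]
        linarith
      · rw [RFA_df_succ]
        have := h2 j (by omega)
        linarith
    · intro j hj h5 h6 h7
      rcases j with _ | j
      · rw [RFA_df_zero] at h5
        rw [RFA_df_succ, RFA_df_zero] at h6
        rw [show 0 + 2 = 1 + 1 by ring, RFA_df_succ] at h7
        exact h4 (by linarith) (by linarith) (by omega) (by linarith)
      · rw [RFA_df_succ] at h5 h6
        rw [show j + 1 + 2 = j + 2 + 1 by ring, RFA_df_succ] at h7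
        exact h3 j (by omega) (by linarith) (by linarith) (by linarith)

open Classical in
/-- number of the good words -/
def g2 (d : ℕ) (a m : ℤ) : ℤ := (((univ : Finset (Fin d → Bool × Bool)).filter (L2 d a m)).card : ℤ)

open Classical in
/-- number of the words that are good after the letter `x` -/
def gx (x : Bool × Bool) (d : ℕ) (a : ℤ) : ℤ := (((univ : Finset (Fin d → Bool × Bool)).filter
  (fun w => L2 (d + 1) a 0 (Fin.cons x w : Fin (d + 1) → Bool × Bool))).card : ℤ)

theorem df_cons_one {d : ℕ} (x : Bool × Bool) (w : Fin d → Bool × Bool) :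
    df (Fin.cons x w : Fin (d + 1) → Bool × Bool) 1 = RFA_st x := by
  have h := RFA_df_succ x w 0
  rw [RFA_df_zero, add_zero] at h
  exact h

theorem s_tt : RFA_st (true, true) = 0 := by simp [RFA_st]
theorem s_tf : RFA_st (true, false) = 1 := by simp [RFA_st]
theorem s_ft : RFA_st (false, true) = -1 := by simp [RFA_st]
theorem s_ff : RFA_st (false, false) = 0 := by simp [RFA_st]

theorem g2_zero {a m : ℤ} (hm : 0 ≤ m) : g2 0 a m = if a = 0 then 1 else 0 := by
  classical
  unfold g2
  by_cases h : a = 0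
  · subst h
    have : (univ : Finset (Fin 0 → Bool × Bool)).filter (L2 0 0 m) = univ := by
      rw [filter_eq_self]
      intro w _
      refine ⟨RFA_df_zero w, ?_, ?_⟩
      · intro j hj
        obtain rfl : j = 0 := by omega
        rw [RFA_df_zero]
        omega
      · intro j hj
        omega
    rw [this]
    simp
  · have : (univ : Finset (Fin 0 → Bool × Bool)).filter (L2 0 a m) = ∅ := by
      rw [filter_eq_empty_iff]
      rintro w _ ⟨h1, _⟩
      rw [RFA_df_zero] at h1
      exact h h1.symm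
    rw [this, if_neg h]
    simp

theorem g2_pos (d : ℕ) {a m : ℤ} (hm : 1 ≤ m) :
    g2 (d + 1) a m = g2 d (a - 1) (m + 1) + 2 * g2 d a m + g2 d (a + 1) (m - 1) := by
  classical
  unfold g2
  rw [RFA_card, Fintype.sum_prod_type]
  simp only [Fintype.sum_bool]
  have hc : ∀ x : Bool × Bool, ((univ : Finset (Fin d → Bool × Bool)).filter
      (fun w => L2 (d + 1) a m (Fin.cons x w : Fin (d + 1) → Bool × Bool))) =
      (univ : Finset (Fin d → Bool × Bool)).filter (L2 d (a - RFA_st x) (m + RFA_st x)) := by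
    intro x
    refine Finset.filter_congr fun w _ => ?_
    rw [L2_cons (by omega)]
    exact ⟨fun h => h.1, fun h => ⟨h, fun _ h0 => by omega⟩⟩
  rw [hc, hc, hc, hc, s_tt, s_tf, s_ft, s_ff]
  rw [show a - 0 = a by ring, show m + 0 = m by ring, show a - -1 = a + 1 by ring, show m + -1 = m - 1 by ring]
  push_cast
  ring

theorem L2_up {d : ℕ} {a : ℤ} (w : Fin d → Bool × Bool) :
    L2 (d + 1) a 0 (Fin.cons (true, false) w : Fin (d + 1) → Bool × Bool) ↔ L2 d (a - 1) 1 w := by
  rw [L2_cons le_rfl, s_tf, zero_add]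
  exact ⟨fun h => h.1, fun h => ⟨h, fun h1 => absurd h1 (by norm_num)⟩⟩

theorem L2_down {d : ℕ} {a : ℤ} (w : Fin d → Bool × Bool) :
    ¬ L2 (d + 1) a 0 (Fin.cons (false, true) w : Fin (d + 1) → Bool × Bool) := by
  intro h
  rw [L2_cons le_rfl] at h
  have := h.1.2.1 0 (by omega)
  rw [RFA_df_zero, s_ft] at this
  omega

/-- at the floor -/
theorem g2_floor (d : ℕ) (a : ℤ) : g2 (d + 1) a 0 = g2 d (a - 1) 1 + gx (true, true) d a + gx (false, false) d a := by
  classical
  unfold g2 gx
  rw [RFA_card, Fintype.sum_prod_type]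
  simp only [Fintype.sum_bool]
  have h2 : ((univ : Finset (Fin d → Bool × Bool)).filter
      (fun w => L2 (d + 1) a 0 (Fin.cons (true, false) w : Fin (d + 1) → Bool × Bool))) =
      (univ : Finset (Fin d → Bool × Bool)).filter (L2 d (a - 1) 1) :=
    Finset.filter_congr fun w _ => L2_up w
  have h3 : ((univ : Finset (Fin d → Bool × Bool)).filter
      (fun w => L2 (d + 1) a 0 (Fin.cons (false, true) w : Fin (d + 1) → Bool × Bool))) = ∅ := by
    rw [filter_eq_empty_iff]
    intro w _ h
    exact L2_down w h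
  rw [h2, h3, card_empty]
  push_cast
  ring

/-- after `ff` at the floor only `U` is possible -/
theorem gx_ff (d : ℕ) (a : ℤ) : gx (false, false) (d + 1) a = g2 d (a - 1) 1 := by
  classical
  unfold g2 gx
  rw [RFA_card, Fintype.sum_prod_type]
  simp only [Fintype.sum_bool]
  have key : ∀ (x : Bool × Bool) (w : Fin d → Bool × Bool),
      L2 (d + 1 + 1) a 0 (Fin.cons (false, false) (Fin.cons x w : Fin (d + 1) → Bool × Bool) : Fin (d + 1 + 1) → Bool × Bool) ↔
      L2 (d + 1) a 0 (Fin.cons x w : Fin (d + 1) → Bool × Bool) ∧ RFA_st x ≠ 0 := by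
    intro x w
    rw [L2_cons le_rfl, s_ff, sub_zero, add_zero]
    constructor
    · rintro ⟨h1, h2⟩
      refine ⟨h1, fun h3 => ?_⟩
      have h4 := h2 rfl rfl (by omega) (by rw [df_cons_one, h3])
      exact absurd h4.1 (by simp)
    · rintro ⟨h1, h2⟩
      refine ⟨h1, fun _ _ _ h3 => ?_⟩
      rw [df_cons_one] at h3
      exact absurd h3 h2
  have e1 : ((univ : Finset (Fin d → Bool × Bool)).filter
      (fun w => L2 (d + 1 + 1) a 0 (Fin.cons (false, false) (Fin.cons (true, true) w : Fin (d + 1) → Bool × Bool) : Fin (d + 1 + 1) → Bool × Bool))) = ∅ := by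
    rw [filter_eq_empty_iff]
    intro w _ h
    exact ((key _ w).1 h).2 s_tt
  have e2 : ((univ : Finset (Fin d → Bool × Bool)).filter
      (fun w => L2 (d + 1 + 1) a 0 (Fin.cons (false, false) (Fin.cons (true, false) w : Fin (d + 1) → Bool × Bool) : Fin (d + 1 + 1) → Bool × Bool))) =
      (univ : Finset (Fin d → Bool × Bool)).filter (L2 d (a - 1) 1) := by
    refine Finset.filter_congr fun w _ => ?_
    rw [key, L2_up, s_tf]
    exact ⟨fun h => h.1, fun h => ⟨h, by norm_num⟩⟩
  have e3 : ((univ : Finset (Fin d → Bool × Bool)).filter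
      (fun w => L2 (d + 1 + 1) a 0 (Fin.cons (false, false) (Fin.cons (false, true) w : Fin (d + 1) → Bool × Bool) : Fin (d + 1 + 1) → Bool × Bool))) = ∅ := by
    rw [filter_eq_empty_iff]
    intro w _ h
    exact L2_down w ((key _ w).1 h).1
  have e4 : ((univ : Finset (Fin d → Bool × Bool)).filter
      (fun w => L2 (d + 1 + 1) a 0 (Fin.cons (false, false) (Fin.cons (false, false) w : Fin (d + 1) → Bool × Bool) : Fin (d + 1 + 1) → Bool × Bool))) = ∅ := by
    rw [filter_eq_empty_iff]
    intro w _ h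
    exact ((key _ w).1 h).2 s_ff
  rw [e1, e2, e3, e4]
  simp

/-- after `tt` at the floor -/
theorem gx_tt (d : ℕ) (a : ℤ) : gx (true, true) (d + 1) a = g2 d (a - 1) 1 + gx (false, false) d a := by
  classical
  unfold g2 gx
  rw [RFA_card, Fintype.sum_prod_type]
  simp only [Fintype.sum_bool]
  have key : ∀ (x : Bool × Bool) (w : Fin d → Bool × Bool),
      L2 (d + 1 + 1) a 0 (Fin.cons (true, true) (Fin.cons x w : Fin (d + 1) → Bool × Bool) : Fin (d + 1 + 1) → Bool × Bool) ↔
      L2 (d + 1) a 0 (Fin.cons x w : Fin (d + 1) → Bool × Bool) ∧ (RFA_st x = 0 → x.2 = false) := by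
    intro x w
    rw [L2_cons le_rfl, s_tt, sub_zero, add_zero]
    constructor
    · rintro ⟨h1, h2⟩
      refine ⟨h1, fun h3 => ?_⟩
      have h4 := h2 rfl rfl (by omega) (by rw [df_cons_one, h3])
      exact h4.2
    · rintro ⟨h1, h2⟩
      refine ⟨h1, fun _ _ _ h3 => ?_⟩
      rw [df_cons_one] at h3
      exact ⟨rfl, h2 h3⟩
  have e1 : ((univ : Finset (Fin d → Bool × Bool)).filter
      (fun w => L2 (d + 1 + 1) a 0 (Fin.cons (true, true) (Fin.cons (true, true) w : Fin (d + 1) → Bool × Bool) : Fin (d + 1 + 1) → Bool × Bool))) = ∅ := by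
    rw [filter_eq_empty_iff]
    intro w _ h
    exact absurd (((key _ w).1 h).2 s_tt) (by simp)
  have e2 : ((univ : Finset (Fin d → Bool × Bool)).filter
      (fun w => L2 (d + 1 + 1) a 0 (Fin.cons (true, true) (Fin.cons (true, false) w : Fin (d + 1) → Bool × Bool) : Fin (d + 1 + 1) → Bool × Bool))) =
      (univ : Finset (Fin d → Bool × Bool)).filter (L2 d (a - 1) 1) := by
    refine Finset.filter_congr fun w _ => ?_
    rw [key, L2_up, s_tf]
    exact ⟨fun h => h.1, fun h => ⟨h, fun _ => rfl⟩⟩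
  have e3 : ((univ : Finset (Fin d → Bool × Bool)).filter
      (fun w => L2 (d + 1 + 1) a 0 (Fin.cons (true, true) (Fin.cons (false, true) w : Fin (d + 1) → Bool × Bool) : Fin (d + 1 + 1) → Bool × Bool))) = ∅ := by
    rw [filter_eq_empty_iff]
    intro w _ h
    exact L2_down w ((key _ w).1 h).1
  have e4 : ((univ : Finset (Fin d → Bool × Bool)).filter
      (fun w => L2 (d + 1 + 1) a 0 (Fin.cons (true, true) (Fin.cons (false, false) w : Fin (d + 1) → Bool × Bool) : Fin (d + 1 + 1) → Bool × Bool))) =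
      (univ : Finset (Fin d → Bool × Bool)).filter (fun w => L2 (d + 1) a 0 (Fin.cons (false, false) w : Fin (d + 1) → Bool × Bool)) := by
    refine Finset.filter_congr fun w _ => ?_
    rw [key]
    exact ⟨fun h => h.1, fun h => ⟨h, fun _ => rfl⟩⟩
  rw [e1, e2, e3, e4]
  simp

theorem gx_zero (x : Bool × Bool) (hx : RFA_st x = 0) {a : ℤ} (ha : a ≠ 0) : gx x 0 a = 0 := by
  classical
  unfold gx
  have : (univ : Finset (Fin 0 → Bool × Bool)).filter
      (fun w => L2 (0 + 1) a 0 (Fin.cons x w : Fin (0 + 1) → Bool × Bool)) = ∅ := by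
    rw [filter_eq_empty_iff]
    intro w _ h
    rw [L2_cons le_rfl] at h
    have := h.1.1
    rw [RFA_df_zero, hx] at this
    omega
  rw [this]
  simp

/-- the number of the good words -/
theorem g2_eq (d : ℕ) : ∀ a m : ℤ, 0 ≤ m → 1 ≤ a + m → g2 d a m = K d a + Psi eta d (a + 2 * m) := by
  induction d using Nat.strong_induction_on with
  | _ d ih =>
    intro a m hm ha
    rcases d with _ | d
    · rw [g2_zero hm, K_zero, Psi_top _ _ _ (by push_cast; omega)]
      ring
    · rcases hm.eq_or_lt with h0 | h0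
      · subst h0
        have ha1 : 1 ≤ a := by omega
        have hst : ∀ j : ℕ, j < d + 1 → g2 j (a - 1) 1 = Psi th (j + 1) a := by
          intro j hj
          rw [ih j hj (a - 1) 1 (by norm_num) (by omega), th_eq, Psi_add, Psi_XX,
            show (1 - X : ℤ⟦X⟧) ^ 2 = (1 - X) ^ 2 * 1 by ring, Psi_inv _ _ _ ha1, Psi_one]
          congr 2
          ring
        have hK : K (d + 1) a + Psi eta (d + 1) (a + 2 * 0) = Psi ((1 + zz) ^ 2 * th) (d + 1) a := by
          rw [show a + 2 * 0 = a by ring, ← Psi_one, ← Psi_add]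
          congr 1
          unfold eta
          ring
        have hex : Psi ((1 + zz) ^ 2 * th) (d + 1) a = Psi th (d + 1) a + 2 * Psi th d a + (if d = 0 then 0 else Psi th (d - 1) a) := by
          have e : (1 + zz) ^ 2 * th = th + 2 * (X * (1 - X) * th) + X * (1 - X) * (X * (1 - X) * th) := by
            unfold zz
            ring
          rw [e, Psi_add, Psi_add, Psi_two, Psi_z _ _ _ (by omega), Psi_z _ _ _ (by omega)]
          congr 1
          rcases d with _ | d
          · rw [if_pos rfl, Psi_top _ _ _ (by push_cast; omega)]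
          · rw [if_neg (by omega), Psi_z _ _ _ (by omega)]
            rfl
        rw [hK, hex, g2_floor, hst d (by omega)]
        rcases d with _ | _ | d
        · rw [gx_zero _ s_tt (by omega), gx_zero _ s_ff (by omega), Psi_top th 0 _ (by push_cast; omega), if_pos rfl]
          ring
        · rw [gx_tt, gx_ff, gx_zero _ s_ff (by omega), hst 0 (by omega), if_neg (by omega), show 0 + 1 - 1 = 0 by rfl,
            Psi_top th 0 _ (by push_cast; omega)]
          ring
        · rw [gx_tt, gx_ff, gx_ff, hst (d + 1) (by omega), hst d (by omega), if_neg (by omega), show d + 1 + 1 - 1 = d + 1 by omega]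
          ring
      · rw [g2_pos d (by omega), ih d (by omega) _ _ (by omega) (by omega), ih d (by omega) _ _ (by omega) (by omega),
          ih d (by omega) _ _ (by omega) (by omega), K_succ, Psi_rec _ _ _ (by omega)]
        rw [show a - 1 + 2 * (m + 1) = a + 2 * m + 1 by ring, show a + 1 + 2 * (m - 1) = a + 2 * m - 1 by ring]
        ring

end Pool.Agent.H85.CY3
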