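import Pool.Agent.H85.CY3.I
import Pool.Agent.H85.CY3.Q

/-!
# The residue 2: reduction to words
-/

set_option autoImplicit false

open Finset

noncomputable section

namespace Pool.Agent.H85.CY3

open Pool.Agent.H63.CY

/-- two consecutive horizontal steps at the maximum which are not `tt, ff` -/
def BP (d : ℕ) (U V : ℤ → ℤ) : Prop := ∃ i : ℤ, U i - V i = mxx d 0 U V ∧ U (i + 1) - V (i + 1) = mxx d 0 U V ∧
  U (i + 2) - V (i + 2) = mxx d 0 U V ∧ ¬ (U (i + 1) = U i + 1 ∧ U (i + 2) = U (i + 1))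

theorem mxx_spec {d p : ℕ} (hd : 1 ≤ d) {U V : ℤ → ℤ} (hU : U ∈ LF0 d p) (hV : V ∈ LF0 d p) :
    (∀ i, U i - V i ≤ mxx d 0 U V) ∧ ∃ i, U i - V i = mxx d 0 U V := by
  rw [mxx_zero]
  exact mx_spec (f := fun i => U i - V i) hd (fun i => CTC_per0 hU hV i)

open Classical in
/-- the residue 2 -/
theorem mxx_two {d p : ℕ} (hd : 1 ≤ d) {U V : ℤ → ℤ} (hU : U ∈ LF0 d p) (hV : V ∈ LF0 d p) :
    mxx d 0 U V - mxx d 2 U V = if BP d U V then 0 else 1 := by
  obtain ⟨hMf, i0, hi0⟩ := mxx_spec hd hU hV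
  unfold BP
  set M := mxx d 0 U V with hM
  have hG := mxx_le hd 2 hU hV
  have hc : ∀ i, (U (i + 1) = U i + 1 ∧ U (i + 2) = U (i + 1) + 1 ∧ U i - V (CTC_x 2 U i) = U i - V i) ∨
      (U (i + 1) = U i + 1 ∧ U (i + 2) = U (i + 1) ∧ U i - V (CTC_x 2 U i) = U (i + 1) - V (i + 1) - 1) ∨
      (U (i + 1) = U i ∧ U (i + 2) = U (i + 1) + 1 ∧ U i - V (CTC_x 2 U i) = U (i + 1) - V (i + 1)) ∨
      (U (i + 1) = U i ∧ U (i + 2) = U (i + 1) ∧ U i - V (CTC_x 2 U i) = U (i + 2) - V (i + 2)) := by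
    intro i
    have h1 := hU.1.1 i
    have h2 := hU.1.1 (i + 1)
    rw [show i + 1 + 1 = i + 2 by ring] at h2
    have hx : CTC_x 2 U i = i + 2 - (U (i + 2) - U i) := rfl
    rcases (by omega : U (i + 1) = U i + 1 ∨ U (i + 1) = U i) with h | h <;>
    rcases (by omega : U (i + 2) = U (i + 1) + 1 ∨ U (i + 2) = U (i + 1)) with h' | h'
    · left
      refine ⟨h, h', ?_⟩
      rw [hx, show i + 2 - (U (i + 2) - U i) = i by omega]
    · right; left
      refine ⟨h, h', ?_⟩
      rw [hx, show i + 2 - (U (i + 2) - U i) = i + 1 by omega]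
      omega
    · right; right; left
      refine ⟨h, h', ?_⟩
      rw [hx, show i + 2 - (U (i + 2) - U i) = i + 1 by omega]
      omega
    · right; right; right
      refine ⟨h, h', ?_⟩
      rw [hx, show i + 2 - (U (i + 2) - U i) = i + 2 by omega]
      omega
  have hle : mxx d 2 U V ≤ M := by
    rw [hG]
    intro i
    have m0 := hMf i
    have m1 := hMf (i + 1)
    have m2 := hMf (i + 2)
    rcases hc i with ⟨_, _, h⟩ | ⟨_, _, h⟩ | ⟨_, _, h⟩ | ⟨_, _, h⟩ <;> rw [h] <;> omega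
  have hge : M - 1 ≤ mxx d 2 U V := by
    have h1 := (hG _).1 le_rfl i0
    have h1' := (hG _).1 le_rfl (i0 - 1)
    have v1 := hV.1.1 i0
    have m1 := hMf (i0 + 1)
    have h2 := hc i0
    have h3 := hc (i0 - 1)
    rw [show i0 - 1 + 1 = i0 by ring, show i0 - 1 + 2 = i0 + 1 by ring] at h3
    rcases h2 with ⟨a1, a2, h⟩ | ⟨a1, a2, h⟩ | ⟨a1, a2, h⟩ | ⟨a1, a2, h⟩
    · rw [h] at h1; omega
    · rw [h] at h1; omega
    · rw [h] at h1; omega
    · rcases h3 with ⟨b1, b2, h'⟩ | ⟨b1, b2, h'⟩ | ⟨b1, b2, h'⟩ | ⟨b1, b2, h'⟩ <;> rw [h'] at h1' <;> omega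
  have hiff : (∃ i : ℤ, U i - V i = M ∧ U (i + 1) - V (i + 1) = M ∧ U (i + 2) - V (i + 2) = M ∧
      ¬ (U (i + 1) = U i + 1 ∧ U (i + 2) = U (i + 1))) ↔ mxx d 2 U V = M := by
    constructor
    · rintro ⟨i, h1, h2, h3, h4⟩
      have h5 := (hG _).1 le_rfl i
      rcases hc i with ⟨a1, a2, h⟩ | ⟨a1, a2, h⟩ | ⟨a1, a2, h⟩ | ⟨a1, a2, h⟩
      · rw [h] at h5; omega
      · exact absurd ⟨a1, a2⟩ h4
      · rw [h] at h5; omega
      · rw [h] at h5; omega
    · intro h1
      by_contra hcon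
      push Not at hcon
      have h2 : mxx d 2 U V ≤ M - 1 := by
        rw [hG]
        intro i
        have m0 := hMf i
        have m1 := hMf (i + 1)
        have m2 := hMf (i + 2)
        have v1 := hV.1.1 i
        have v2 := hV.1.1 (i + 1)
        rw [show i + 1 + 1 = i + 2 by ring] at v2
        have h3 := hcon i
        rcases hc i with ⟨a1, a2, h⟩ | ⟨a1, a2, h⟩ | ⟨a1, a2, h⟩ | ⟨a1, a2, h⟩
        · rw [h]
          by_contra h4
          have := (h3 (by omega) (by omega) (by omega)).2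
          omega
        · rw [h]; omega
        · rw [h]
          by_contra h4
          have := (h3 (by omega) (by omega) (by omega)).1
          omega
        · rw [h]
          by_contra h4
          have := (h3 (by omega) (by omega) (by omega)).1
          omega
      omega
  split_ifs with h
  · rw [hiff] at h
    omega
  · rw [hiff] at h
    omega

/-- rotation of the maximum -/
theorem mxx_rot {d p : ℕ} (hd : 1 ≤ d) {U V : ℤ → ℤ} (hU : U ∈ LF0 d p) (hV : V ∈ LF0 d p) (c : ℤ) :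
    mxx d 0 (rot c U) (rot c V) = mxx d 0 U V - (U c - V c) := by
  obtain ⟨h1, i1, h1'⟩ := mxx_spec hd hU hV
  obtain ⟨h2, i2, h2'⟩ := mxx_spec hd (rot_mem hU c) (rot_mem hV c)
  have e1 := h2 (i1 - c)
  have e2 := h1 (i2 + c)
  unfold rot at e1 h2'
  rw [show i1 - c + c = i1 by ring] at e1
  have h3 : mxx d 0 (rot c U) (rot c V) = mxx d 0 (fun x => U (x + c) - U c) (fun x => V (x + c) - V c) := rfl
  rw [h3]
  omega

theorem BP_rot {d p : ℕ} (hd : 1 ≤ d) {U V : ℤ → ℤ} (hU : U ∈ LF0 d p) (hV : V ∈ LF0 d p) (c : ℤ) :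
    BP d (rot c U) (rot c V) ↔ BP d U V := by
  unfold BP
  rw [mxx_rot hd hU hV c]
  constructor
  · rintro ⟨i, h1, h2, h3, h4⟩
    unfold rot at h1 h2 h3 h4
    refine ⟨i + c, by omega, ?_, ?_, ?_⟩
    · rw [show i + c + 1 = i + 1 + c by ring]; omega
    · rw [show i + c + 2 = i + 2 + c by ring]; omega
    · rw [show i + c + 1 = i + 1 + c by ring, show i + c + 2 = i + 2 + c by ring]
      intro h5
      exact h4 (by omega)
  · rintro ⟨i, h1, h2, h3, h4⟩
    refine ⟨i - c, ?_, ?_, ?_, ?_⟩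
    · unfold rot; rw [show i - c + c = i by ring]; omega
    · unfold rot; rw [show i - c + 1 + c = i + 1 by ring]; omega
    · unfold rot; rw [show i - c + 2 + c = i + 2 by ring]; omega
    · unfold rot
      rw [show i - c + c = i by ring, show i - c + 1 + c = i + 1 by ring, show i - c + 2 + c = i + 2 by ring]
      intro h5
      exact h4 (by omega)

open Classical in
/-- good pairs with maximum 1 whose first `k` values are 1 -/
def hk (d k : ℕ) (U V : ℤ → ℤ) : ℤ :=
  if ¬ BP d U V ∧ mxx d 0 U V = 1 ∧ ∀ j : ℕ, 1 ≤ j → j ≤ k → U j - V j = 1 then 1 else 0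

open Classical in
/-- the pairs with maximum 0 -/
theorem max_zero {d p : ℕ} (hd : 1 ≤ d) {U V : ℤ → ℤ} (hU : U ∈ LF0 d p) (hV : V ∈ LF0 d p) :
    (if ¬ BP d U V ∧ mxx d 0 U V = 0 then (1 : ℤ) else 0) =
      hk d 1 (rot (-1) U) (rot (-1) V) + hk d 2 (rot (-2) U) (rot (-2) V) + hk d 3 (rot (-3) U) (rot (-3) V) := by
  obtain ⟨hMf, -⟩ := mxx_spec hd hU hV
  have key : ∀ k : ℕ, hk d k (rot (-(k : ℤ)) U) (rot (-(k : ℤ)) V) =
      if ¬ BP d U V ∧ mxx d 0 U V = 1 + (U (-(k : ℤ)) - V (-(k : ℤ))) ∧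
        ∀ j : ℕ, 1 ≤ j → j ≤ k → U (j - k) - V (j - k) = 1 + (U (-(k : ℤ)) - V (-(k : ℤ))) then 1 else 0 := by
    intro k
    unfold hk
    rw [BP_rot hd hU hV, mxx_rot hd hU hV]
    congr 1
    rw [eq_iff_iff]
    constructor
    · rintro ⟨h1, h2, h3⟩
      refine ⟨h1, by omega, fun j hj1 hj2 => ?_⟩
      have := h3 j hj1 hj2
      unfold rot at this
      rw [show (j : ℤ) + -(k : ℤ) = j - k by ring] at this
      omega
    · rintro ⟨h1, h2, h3⟩
      refine ⟨h1, by omega, fun j hj1 hj2 => ?_⟩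
      have := h3 j hj1 hj2
      unfold rot
      rw [show (j : ℤ) + -(k : ℤ) = j - k by ring]
      omega
  have k1 := key 1
  have k2 := key 2
  have k3 := key 3
  push_cast at k1 k2 k3
  rw [k1, k2, k3]
  have u0 := hU.2
  have v0 := hV.2
  have m1 := hMf (-1)
  have m2 := hMf (-2)
  have m3 := hMf (-3)
  have a1 := hU.1.1 (-1)
  have a2 := hU.1.1 (-2)
  have a3 := hU.1.1 (-3)
  have b1 := hV.1.1 (-1)
  have b2 := hV.1.1 (-2)
  have b3 := hV.1.1 (-3)
  rw [show (-1 : ℤ) + 1 = 0 by ring] at a1 b1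
  rw [show (-2 : ℤ) + 1 = -1 by ring] at a2 b2
  rw [show (-3 : ℤ) + 1 = -2 by ring] at a3 b3
  by_cases hB : BP d U V
  · simp [hB]
  · have c1 : (∀ j : ℕ, 1 ≤ j → j ≤ 1 → U (j - 1) - V (j - 1) = 1 + (U (-1) - V (-1))) ↔ U 0 - V 0 = 1 + (U (-1) - V (-1)) := by
      constructor
      · intro h
        have := h 1 le_rfl le_rfl
        simpa using this
      · intro h j hj1 hj2
        obtain rfl : j = 1 := by omega
        simpa using h
    have c2 : (∀ j : ℕ, 1 ≤ j → j ≤ 2 → U (j - 2) - V (j - 2) = 1 + (U (-2) - V (-2))) ↔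
        U (-1) - V (-1) = 1 + (U (-2) - V (-2)) ∧ U 0 - V 0 = 1 + (U (-2) - V (-2)) := by
      constructor
      · intro h
        have h1 := h 1 le_rfl (by omega)
        have h2 := h 2 (by omega) le_rfl
        norm_num at h1 h2
        exact ⟨h1, h2⟩
      · rintro ⟨h1, h2⟩ j hj1 hj2
        rcases (by omega : j = 1 ∨ j = 2) with rfl | rfl
        · norm_num
          exact h1
        · norm_num
          exact h2
    have c3 : (∀ j : ℕ, 1 ≤ j → j ≤ 3 → U (j - 3) - V (j - 3) = 1 + (U (-3) - V (-3))) ↔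
        U (-2) - V (-2) = 1 + (U (-3) - V (-3)) ∧ U (-1) - V (-1) = 1 + (U (-3) - V (-3)) ∧ U 0 - V 0 = 1 + (U (-3) - V (-3)) := by
      constructor
      · intro h
        have h1 := h 1 le_rfl (by omega)
        have h2 := h 2 (by omega) (by omega)
        have h3 := h 3 (by omega) le_rfl
        norm_num at h1 h2 h3
        exact ⟨h1, h2, h3⟩
      · rintro ⟨h1, h2, h3⟩ j hj1 hj2
        rcases (by omega : j = 1 ∨ j = 2 ∨ j = 3) with rfl | rfl | rfl
        · norm_num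
          exact h1
        · norm_num
          exact h2
        · norm_num
          exact h3
    simp only [c1, c2, c3]
    by_cases h0 : mxx d 0 U V = 0
    · rw [h0] at m1 m2 m3
      have hB1 : ¬ (U (-1) - V (-1) = 0 ∧ U (-2) - V (-2) = 0 ∧ U (-3) - V (-3) = 0) := by
        rintro ⟨h1, h2, h3⟩
        unfold BP at hB
        push Not at hB
        have e1 := hB (-3) (by rw [h0]; exact h3) (by rw [h0]; simpa using h2) (by rw [h0]; simpa using h1)
        have e2 := hB (-2) (by rw [h0]; exact h2) (by rw [h0]; simpa using h1) (by rw [h0]; simp [u0, v0])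
        norm_num at e1 e2
        omega
      have hB' : ¬ BP d U V := hB
      simp only [hB', h0, not_false_eq_true, true_and, and_true, if_true]
      rcases (by omega : U (-1) - V (-1) = -1 ∨ U (-1) - V (-1) = 0) with h1 | h1
      · rw [if_pos (by omega), if_neg (by omega), if_neg (by omega)]
        norm_num
      · rcases (by omega : U (-2) - V (-2) = -1 ∨ U (-2) - V (-2) = 0) with h2 | h2
        · rw [if_neg (by omega), if_pos (by omega), if_neg (by omega)]
          norm_num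
        · rw [if_neg (by omega), if_neg (by omega), if_pos (by omega)]
          norm_num
    · rw [if_neg (by tauto), if_neg (by omega), if_neg (by omega), if_neg (by omega)]
      norm_num

/-- simultaneous rotation -/
theorem sum_rot2 {d p : ℕ} (hd : 1 ≤ d) (c : ℤ) (F : (ℤ → ℤ) → (ℤ → ℤ) → ℤ) :
    ∑ U ∈ L0 d p, ∑ V ∈ L0 d p, F (rot c U) (rot c V) = ∑ U ∈ L0 d p, ∑ V ∈ L0 d p, F U V := by
  have h1 : ∀ U ∈ L0 d p, ∑ V ∈ L0 d p, F (rot c U) (rot c V) = ∑ V ∈ L0 d p, F (rot c U) V := fun U _ =>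
    sum_rot hd c (fun V => F (rot c U) V)
  rw [sum_congr rfl h1]
  exact sum_rot hd c (fun U => ∑ V ∈ L0 d p, F U V)

end Pool.Agent.H85.CY3
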