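import Pool.Agent.H85.CY3.R
import Pool.Agent.H85.CY3.M

/-!
# The residue 2: counting
-/

set_option autoImplicit false

open Finset PowerSeries

noncomputable section

namespace Pool.Agent.H85.CY3

open Pool.Agent.H63.CY

theorem LF0_end {d p : ℕ} {U : ℤ → ℤ} (hU : U ∈ LF0 d p) : U d = p := by
  have h := hU.1.2 0
  rw [zero_add, hU.2, zero_add] at h
  exact h

/-- the word of a pair -/
def wd (d : ℕ) (U V : ℤ → ℤ) : Fin d → Bool × Bool := fun c => (RFB_w d V c, RFB_w d U c)

theorem df_wd {d p : ℕ} {U V : ℤ → ℤ} (hU : U ∈ LF0 d p) (hV : V ∈ LF0 d p) (j : ℕ) (hj : j ≤ d) :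
    df (wd d U V) j = V j - U j := df_pair hU hV j hj

theorem word_iff {d p : ℕ} (hd : 1 ≤ d) {U V : ℤ → ℤ} (hU : U ∈ LF0 d p) (hV : V ∈ LF0 d p) {m : ℤ} (hm : 1 ≤ m) :
    (¬ BP d U V ∧ mxx d 0 U V = m) ↔ (L2 d 0 m (wd d U V) ∧ ∃ j ≤ d, df (wd d U V) j ≤ -m) := by
  obtain ⟨hMf, i0, hi0⟩ := mxx_spec hd hU hV
  have hper : ∀ i, (fun i => U i - V i) (i + d) = (fun i => U i - V i) i := fun i => CTC_per0 hU hV i
  obtain ⟨k0, hk0, hk1', -⟩ := per_red (f := fun i => U i - V i) hd hper i0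
  have hk1 : U k0 - V k0 = U i0 - V i0 := hk1'
  have hstep : ∀ i : ℤ, U (i + 1) = U i ∨ U (i + 1) = U i + 1 := by
    intro i
    have := hU.1.1 i
    omega
  constructor
  · rintro ⟨hB, hM⟩
    unfold BP at hB
    rw [hM] at hB hMf hi0
    push Not at hB
    refine ⟨⟨?_, ?_, ?_⟩, k0, hk0.le, ?_⟩
    · rw [df_wd hU hV d le_rfl, LF0_end hU, LF0_end hV]
      ring
    · intro j hj
      rw [df_wd hU hV j hj]
      have := hMf j
      omega
    · intro j hj h1 h2 h3
      rw [df_wd hU hV j (by omega)] at h1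
      rw [df_wd hU hV (j + 1) (by omega)] at h2
      rw [df_wd hU hV (j + 2) (by omega)] at h3
      push_cast at h2 h3
      have h4 := hB j (by omega) (by omega) (by omega)
      constructor
      · show decide (U ((j : ℤ) + 1) ≠ U (j : ℤ)) = true
        rw [decide_eq_true_iff, h4.1]
        omega
      · show decide (U (((j + 1 : ℕ) : ℤ) + 1) ≠ U ((j + 1 : ℕ) : ℤ)) = false
        rw [decide_eq_false_iff_not]
        push Not
        push_cast
        rw [show (j : ℤ) + 1 + 1 = j + 2 by ring]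
        exact h4.2
    · rw [df_wd hU hV k0 hk0.le]
      omega
  · rintro ⟨⟨h1, h2, h3⟩, j, hj, h4⟩
    have hM : mxx d 0 U V = m := by
      have h5 := h2 k0 hk0.le
      rw [df_wd hU hV k0 hk0.le] at h5
      rw [df_wd hU hV j hj] at h4
      have h6 := hMf j
      omega
    refine ⟨?_, hM⟩
    rintro ⟨i, h5, h6, h7, h8⟩
    rw [hM] at h5 h6 h7
    apply h8
    have hd' : (0 : ℤ) < d := by omega
    have r1 := Int.emod_nonneg i hd'.ne'
    have r2 := Int.emod_lt_of_pos i hd'
    have r3 := Int.emod_add_mul_ediv i d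
    obtain ⟨r, hr⟩ := Int.eq_ofNat_of_zero_le r1
    set k := i / (d : ℤ) with hk
    have e0 : i = (r : ℤ) + d * k := by rw [← r3, hr]
    have e1 : i + 1 = ((r : ℤ) + 1) + d * k := by rw [e0]; ring
    have e2 : i + 2 = ((r : ℤ) + 2) + d * k := by rw [e0]; ring
    have p0 := RFB_per hU (r : ℤ) k
    have p1 := RFB_per hU ((r : ℤ) + 1) k
    have p2 := RFB_per hU ((r : ℤ) + 2) k
    have q0 := RFB_per hV (r : ℤ) k
    have q1 := RFB_per hV ((r : ℤ) + 1) k
    have q2 := RFB_per hV ((r : ℤ) + 2) k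
    rw [e0, p0, q0] at h5
    rw [e1, p1, q1] at h6
    rw [e2, p2, q2] at h7
    rw [e0, ← e0, e1, e2, p1, p2, e0, p0]
    have ud := LF0_end hU
    have vd := LF0_end hV
    have hrd : r < d := by omega
    have hr1 : r + 1 ≠ d := by
      intro h
      have e : (r : ℤ) + 1 = (d : ℤ) := by omega
      rw [e, ud, vd] at h6
      omega
    have hr2 : r + 2 ≠ d := by
      intro h
      have e : (r : ℤ) + 2 = (d : ℤ) := by omega
      rw [e, ud, vd] at h7
      omega
    have g1 : df (wd d U V) r = -m := by rw [df_wd hU hV r (by omega)]; omega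
    have g2 : df (wd d U V) (r + 1) = -m := by
      rw [df_wd hU hV (r + 1) (by omega)]; push_cast; omega
    have g3 : df (wd d U V) (r + 2) = -m := by
      rw [df_wd hU hV (r + 2) (by omega)]; push_cast; omega
    obtain ⟨a1, a2⟩ := h3 r (by omega) g1 g2 g3
    have a1' : decide (U ((r : ℤ) + 1) ≠ U (r : ℤ)) = true := a1
    have a2' : decide (U (((r + 1 : ℕ) : ℤ) + 1) ≠ U ((r + 1 : ℕ) : ℤ)) = false := a2
    rw [decide_eq_true_iff] at a1'
    rw [decide_eq_false_iff_not] at a2'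
    push Not at a2'
    push_cast at a2'
    rw [show (r : ℤ) + 1 + 1 = r + 2 by ring] at a2'
    have s0 := hstep (r : ℤ)
    omega

end Pool.Agent.H85.CY3
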