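import Pool.Agent.H85.CY3.S

/-!
# The residue 2: the sums
-/

set_option autoImplicit false

open Finset PowerSeries

noncomputable section

namespace Pool.Agent.H85.CY3

open Pool.Agent.H63.CY

open Classical in
/-- number of the good words which touch the floor -/
def R1 (d : ℕ) (m : ℤ) : ℤ :=
  (((univ : Finset (Fin d → Bool × Bool)).filter (fun w => L2 d 0 m w ∧ ∃ j ≤ d, df w j ≤ -m)).card : ℤ)

theorem R1_eq (d : ℕ) {m : ℤ} (hm : 1 ≤ m) : R1 d m = Psi ((1 + zz) ^ 2 * th) d (2 * m) := by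
  classical
  have h1 : (univ : Finset (Fin d → Bool × Bool)).filter (L2 d 0 m) =
      (univ : Finset (Fin d → Bool × Bool)).filter (fun w => df w d = 0 ∧ ¬ ∃ j ≤ d, df w j ≤ -m) ∪
      (univ : Finset (Fin d → Bool × Bool)).filter (fun w => L2 d 0 m w ∧ ∃ j ≤ d, df w j ≤ -m) := by
    ext w
    simp only [mem_filter, mem_univ, true_and, mem_union]
    constructor
    · intro h
      by_cases hj : ∃ j ≤ d, df w j ≤ -m
      · exact Or.inr ⟨h, hj⟩
      · exact Or.inl ⟨h.1, hj⟩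
    · rintro (⟨h2, h3⟩ | h)
      · push Not at h3
        refine ⟨h2, fun j hj => (h3 j hj).le, fun j hj h4 => ?_⟩
        have := h3 j (by omega)
        omega
      · exact h.1
  have h2 : (univ : Finset (Fin d → Bool × Bool)).filter (fun w => df w d = 0) =
      (univ : Finset (Fin d → Bool × Bool)).filter (fun w => df w d = 0 ∧ ¬ ∃ j ≤ d, df w j ≤ -m) ∪
      (univ : Finset (Fin d → Bool × Bool)).filter (fun w => df w d = 0 ∧ ∃ j ≤ d, df w j ≤ -m) := by
    ext w
    simp only [mem_filter, mem_univ, true_and, mem_union]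
    tauto
  have c1 : ((univ : Finset (Fin d → Bool × Bool)).filter (L2 d 0 m)).card =
      ((univ : Finset (Fin d → Bool × Bool)).filter (fun w => df w d = 0 ∧ ¬ ∃ j ≤ d, df w j ≤ -m)).card +
      ((univ : Finset (Fin d → Bool × Bool)).filter (fun w => L2 d 0 m w ∧ ∃ j ≤ d, df w j ≤ -m)).card := by
    rw [h1, card_union_of_disjoint]
    rw [disjoint_left]
    intro w hw hw'
    simp only [mem_filter, mem_univ, true_and] at hw hw'
    exact hw.2 hw'.2
  have c2 : ((univ : Finset (Fin d → Bool × Bool)).filter (fun w => df w d = 0)).card =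
      ((univ : Finset (Fin d → Bool × Bool)).filter (fun w => df w d = 0 ∧ ¬ ∃ j ≤ d, df w j ≤ -m)).card +
      ((univ : Finset (Fin d → Bool × Bool)).filter (fun w => df w d = 0 ∧ ∃ j ≤ d, df w j ≤ -m)).card := by
    conv_lhs => rw [h2]
    rw [card_union_of_disjoint]
    rw [disjoint_left]
    intro w hw hw'
    simp only [mem_filter, mem_univ, true_and] at hw hw'
    exact hw.2 hw'.2
  have k1 : (((univ : Finset (Fin d → Bool × Bool)).filter (fun w => df w d = 0 ∧ ∃ j ≤ d, df w j ≤ -m)).card : ℤ) = K d (2 * m) := by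
    rw [RFA_refl d 0 m (by omega) (by omega), ← K_symm]
    unfold K
    congr 2
  have k2 : (((univ : Finset (Fin d → Bool × Bool)).filter (fun w => df w d = 0)).card : ℤ) = K d 0 := by
    rw [RFA_end]
    rfl
  have k3 := g2_eq d 0 m (by omega) (by omega)
  unfold g2 at k3
  rw [zero_add] at k3
  have e : Psi ((1 + zz) ^ 2 * th) d (2 * m) = K d (2 * m) + Psi eta d (2 * m) := by
    rw [← Psi_one, ← Psi_add]
    congr 1
    unfold eta
    ring
  unfold R1
  rw [e]
  have c1' : (((univ : Finset (Fin d → Bool × Bool)).filter (L2 d 0 m)).card : ℤ) =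
      (((univ : Finset (Fin d → Bool × Bool)).filter (fun w => df w d = 0 ∧ ¬ ∃ j ≤ d, df w j ≤ -m)).card : ℤ) +
      (((univ : Finset (Fin d → Bool × Bool)).filter (fun w => L2 d 0 m w ∧ ∃ j ≤ d, df w j ≤ -m)).card : ℤ) := by
    exact_mod_cast c1
  have c2' : (((univ : Finset (Fin d → Bool × Bool)).filter (fun w => df w d = 0)).card : ℤ) =
      (((univ : Finset (Fin d → Bool × Bool)).filter (fun w => df w d = 0 ∧ ¬ ∃ j ≤ d, df w j ≤ -m)).card : ℤ) +
      (((univ : Finset (Fin d → Bool × Bool)).filter (fun w => df w d = 0 ∧ ∃ j ≤ d, df w j ≤ -m)).card : ℤ) := by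
    exact_mod_cast c2
  linarith

/-- two steps -/
theorem Psi_qq (φ : ℤ⟦X⟧) (d : ℕ) (t : ℤ) (ht : 0 ≤ t) : Psi (X ^ 2 * φ) d t = Psi ((1 - X) ^ 2 * φ) d (t + 2) := by
  rw [show (X ^ 2 * φ : ℤ⟦X⟧) = X * (X * φ) by ring, Psi_q _ _ _ ht,
    show ((1 - X) * (X * φ) : ℤ⟦X⟧) = X * ((1 - X) * φ) by ring, Psi_q _ _ _ (by omega),
    show ((1 - X) * ((1 - X) * φ) : ℤ⟦X⟧) = (1 - X) ^ 2 * φ by ring, show t + 1 + 1 = t + 2 by ring]

/-- telescoping -/
theorem R1_sum (d : ℕ) : ∑ m ∈ range d, R1 d ((m : ℤ) + 1) = Psi (X ^ 2 * ((1 + zz) ^ 2 * Di)) d 0 := by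
  have h : ∀ N : ℕ, ∑ m ∈ range N, R1 d ((m : ℤ) + 1) = Psi ((1 - X) ^ 2 * ((1 + zz) ^ 2 * Di)) d 2 -
      Psi ((1 - X) ^ 2 * ((1 + zz) ^ 2 * Di)) d (2 * N + 2) := by
    intro N
    induction N with
    | zero => simp
    | succ N ih =>
      rw [sum_range_succ, ih, R1_eq d (by omega)]
      have e : (1 + zz) ^ 2 * th = (1 - X) ^ 2 * ((1 + zz) ^ 2 * Di) - X ^ 2 * ((1 + zz) ^ 2 * Di) := by
        unfold th
        ring
      rw [e, Psi_sub, Psi_qq _ _ _ (by omega)]
      push_cast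
      rw [show 2 * ((N : ℤ) + 1) = 2 * N + 2 by ring]
      ring
  rw [h d, Psi_top _ d (2 * (d : ℤ) + 2) (by omega), Psi_qq _ _ _ le_rfl]
  rw [show (0 : ℤ) + 2 = 2 by norm_num]
  ring

theorem card_down {d : ℕ} (P : (Fin (d + 1) → Bool × Bool) → Prop) [DecidablePred P] (hP : ∀ w, P w → df w 1 = -1) :
    ((univ : Finset (Fin (d + 1) → Bool × Bool)).filter P).card =
    ((univ : Finset (Fin d → Bool × Bool)).filter
      (fun w => P (Fin.cons (false, true) w : Fin (d + 1) → Bool × Bool))).card := by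
  rw [RFA_card, Fintype.sum_prod_type]
  simp only [Fintype.sum_bool]
  have hz : ∀ x : Bool × Bool, RFA_st x ≠ -1 → ((univ : Finset (Fin d → Bool × Bool)).filter
      (fun w => P (Fin.cons x w : Fin (d + 1) → Bool × Bool))) = ∅ := by
    intro x hx
    rw [filter_eq_empty_iff]
    intro w _ h
    have := hP _ h
    rw [df_cons_one] at this
    exact hx this
  rw [hz (true, true) (by rw [s_tt]; norm_num), hz (true, false) (by rw [s_tf]; norm_num), hz (false, false) (by rw [s_ff]; norm_num)]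
  simp

theorem card_flat {d : ℕ} (P : (Fin (d + 1) → Bool × Bool) → Prop) [DecidablePred P] (hP : ∀ w, P w → df w 1 = 0) :
    ((univ : Finset (Fin (d + 1) → Bool × Bool)).filter P).card =
    ((univ : Finset (Fin d → Bool × Bool)).filter
      (fun w => P (Fin.cons (true, true) w : Fin (d + 1) → Bool × Bool))).card +
    ((univ : Finset (Fin d → Bool × Bool)).filter
      (fun w => P (Fin.cons (false, false) w : Fin (d + 1) → Bool × Bool))).card := by
  rw [RFA_card, Fintype.sum_prod_type]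
  simp only [Fintype.sum_bool]
  have hz : ∀ x : Bool × Bool, RFA_st x ≠ 0 → ((univ : Finset (Fin d → Bool × Bool)).filter
      (fun w => P (Fin.cons x w : Fin (d + 1) → Bool × Bool))) = ∅ := by
    intro x hx
    rw [filter_eq_empty_iff]
    intro w _ h
    have := hP _ h
    rw [df_cons_one] at this
    exact hx this
  rw [hz (true, false) (by rw [s_tf]; norm_num), hz (false, true) (by rw [s_ft]; norm_num)]
  simp

theorem L2_ft {d : ℕ} (w : Fin d → Bool × Bool) :
    L2 (d + 1) 0 1 (Fin.cons (false, true) w : Fin (d + 1) → Bool × Bool) ↔ L2 d 1 0 w := by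
  rw [L2_cons (by norm_num), s_ft, show (0 : ℤ) - -1 = 1 by norm_num, show (1 : ℤ) + -1 = 0 by norm_num]
  exact ⟨fun h => h.1, fun h => ⟨h, fun h1 => absurd h1 (by norm_num)⟩⟩

open Classical in
theorem H1 (d : ℕ) : (((univ : Finset (Fin (d + 1) → Bool × Bool)).filter
    (fun w => L2 (d + 1) 0 1 w ∧ df w 1 = -1)).card : ℤ) = g2 d 1 0 := by
  rw [card_down (fun w : Fin (d + 1) → Bool × Bool => L2 (d + 1) 0 1 w ∧ df w 1 = -1) (fun w h => h.2)]
  unfold g2
  congr 2
  refine Finset.filter_congr fun w _ => ?_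
  rw [L2_ft, df_cons_one, s_ft]
  exact ⟨fun h => h.1, fun h => ⟨h, rfl⟩⟩

theorem df_cons_two {d : ℕ} (x : Bool × Bool) (w : Fin d → Bool × Bool) :
    df (Fin.cons x w : Fin (d + 1) → Bool × Bool) 2 = RFA_st x + df w 1 := RFA_df_succ x w 1

theorem df_cons_three {d : ℕ} (x : Bool × Bool) (w : Fin d → Bool × Bool) :
    df (Fin.cons x w : Fin (d + 1) → Bool × Bool) 3 = RFA_st x + df w 2 := RFA_df_succ x w 2

open Classical in
theorem H2 (d : ℕ) : (((univ : Finset (Fin (d + 2) → Bool × Bool)).filter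
    (fun w => L2 (d + 2) 0 1 w ∧ df w 1 = -1 ∧ df w 2 = -1)).card : ℤ) = gx (true, true) d 1 + gx (false, false) d 1 := by
  rw [card_down (fun w : Fin (d + 2) → Bool × Bool => L2 (d + 2) 0 1 w ∧ df w 1 = -1 ∧ df w 2 = -1) (fun w h => h.2.1)]
  have h : (univ : Finset (Fin (d + 1) → Bool × Bool)).filter
      (fun w => L2 (d + 2) 0 1 (Fin.cons (false, true) w : Fin (d + 2) → Bool × Bool) ∧
        df (Fin.cons (false, true) w : Fin (d + 2) → Bool × Bool) 1 = -1 ∧
        df (Fin.cons (false, true) w : Fin (d + 2) → Bool × Bool) 2 = -1) =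
      (univ : Finset (Fin (d + 1) → Bool × Bool)).filter (fun w => L2 (d + 1) 1 0 w ∧ df w 1 = 0) := by
    refine Finset.filter_congr fun w _ => ?_
    rw [L2_ft, df_cons_one, df_cons_two, s_ft]
    exact ⟨fun h => ⟨h.1, by omega⟩, fun h => ⟨h.1, rfl, by omega⟩⟩
  rw [h, card_flat (fun w : Fin (d + 1) → Bool × Bool => L2 (d + 1) 1 0 w ∧ df w 1 = 0) (fun w h => h.2)]
  unfold gx
  push_cast
  congr 3
  · refine Finset.filter_congr fun w _ => ?_
    rw [df_cons_one, s_tt]
    exact ⟨fun h => h.1, fun h => ⟨h, rfl⟩⟩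
  · refine Finset.filter_congr fun w _ => ?_
    rw [df_cons_one, s_ff]
    exact ⟨fun h => h.1, fun h => ⟨h, rfl⟩⟩

open Classical in
theorem H3 (d : ℕ) : (((univ : Finset (Fin (d + 3) → Bool × Bool)).filter
    (fun w => L2 (d + 3) 0 1 w ∧ df w 1 = -1 ∧ df w 2 = -1 ∧ df w 3 = -1)).card : ℤ) = gx (false, false) d 1 := by
  rw [card_down (fun w : Fin (d + 3) → Bool × Bool => L2 (d + 3) 0 1 w ∧ df w 1 = -1 ∧ df w 2 = -1 ∧ df w 3 = -1) (fun w h => h.2.1)]
  have h : (univ : Finset (Fin (d + 2) → Bool × Bool)).filter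
      (fun w => L2 (d + 3) 0 1 (Fin.cons (false, true) w : Fin (d + 3) → Bool × Bool) ∧
        df (Fin.cons (false, true) w : Fin (d + 3) → Bool × Bool) 1 = -1 ∧
        df (Fin.cons (false, true) w : Fin (d + 3) → Bool × Bool) 2 = -1 ∧
        df (Fin.cons (false, true) w : Fin (d + 3) → Bool × Bool) 3 = -1) =
      (univ : Finset (Fin (d + 2) → Bool × Bool)).filter (fun w => L2 (d + 2) 1 0 w ∧ df w 1 = 0 ∧ df w 2 = 0) := by
    refine Finset.filter_congr fun w _ => ?_
    rw [L2_ft, df_cons_one, df_cons_two, df_cons_three, s_ft]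
    exact ⟨fun h => ⟨h.1, by omega, by omega⟩, fun h => ⟨h.1, rfl, by omega, by omega⟩⟩
  rw [h, card_flat (fun w : Fin (d + 2) → Bool × Bool => L2 (d + 2) 1 0 w ∧ df w 1 = 0 ∧ df w 2 = 0) (fun w h => h.2.1)]
  have e1 : (univ : Finset (Fin (d + 1) → Bool × Bool)).filter
      (fun w => L2 (d + 2) 1 0 (Fin.cons (false, false) w : Fin (d + 2) → Bool × Bool) ∧
        df (Fin.cons (false, false) w : Fin (d + 2) → Bool × Bool) 1 = 0 ∧
        df (Fin.cons (false, false) w : Fin (d + 2) → Bool × Bool) 2 = 0) = ∅ := by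
    rw [filter_eq_empty_iff]
    rintro w _ ⟨h1, h2, h3⟩
    rw [L2_cons le_rfl] at h1
    rw [df_cons_two, s_ff] at h3
    have := h1.2 s_ff rfl (by omega) (by omega)
    exact absurd this.1 (by simp)
  have e2 : (univ : Finset (Fin (d + 1) → Bool × Bool)).filter
      (fun w => L2 (d + 2) 1 0 (Fin.cons (true, true) w : Fin (d + 2) → Bool × Bool) ∧
        df (Fin.cons (true, true) w : Fin (d + 2) → Bool × Bool) 1 = 0 ∧
        df (Fin.cons (true, true) w : Fin (d + 2) → Bool × Bool) 2 = 0) =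
      (univ : Finset (Fin (d + 1) → Bool × Bool)).filter (fun w => (L2 (d + 1) 1 0 w ∧ ∀ h : 0 < d + 1, (w ⟨0, h⟩).2 = false) ∧ df w 1 = 0) := by
    refine Finset.filter_congr fun w _ => ?_
    rw [L2_cons le_rfl, df_cons_one, df_cons_two, s_tt, sub_zero, zero_add, zero_add]
    constructor
    · rintro ⟨⟨h1, h2⟩, _, h3⟩
      exact ⟨⟨h1, fun h => (h2 rfl rfl h h3).2⟩, h3⟩
    · rintro ⟨⟨h1, h2⟩, h3⟩
      exact ⟨⟨h1, fun _ _ h _ => ⟨rfl, h2 h⟩⟩, rfl, h3⟩
  rw [e1, e2, card_flat (fun w : Fin (d + 1) → Bool × Bool => (L2 (d + 1) 1 0 w ∧ ∀ h : 0 < d + 1, (w ⟨0, h⟩).2 = false) ∧ df w 1 = 0) (fun w h => h.2)]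
  have e3 : (univ : Finset (Fin d → Bool × Bool)).filter
      (fun w => (L2 (d + 1) 1 0 (Fin.cons (true, true) w : Fin (d + 1) → Bool × Bool) ∧
        ∀ h : 0 < d + 1, ((Fin.cons (true, true) w : Fin (d + 1) → Bool × Bool) ⟨0, h⟩).2 = false) ∧
        df (Fin.cons (true, true) w : Fin (d + 1) → Bool × Bool) 1 = 0) = ∅ := by
    rw [filter_eq_empty_iff]
    rintro w _ ⟨⟨h1, h2⟩, h3⟩
    have := h2 (by omega)
    have e : ((Fin.cons (true, true) w : Fin (d + 1) → Bool × Bool) ⟨0, by omega⟩) = (true, true) := rfl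
    rw [e] at this
    exact absurd this (by simp)
  rw [e3]
  unfold gx
  rw [card_empty, card_empty, zero_add, add_zero]
  congr 2
  refine Finset.filter_congr fun w _ => ?_
  constructor
  · intro h
    exact h.1.1
  · intro h
    exact ⟨⟨h, fun _ => rfl⟩, by rw [df_cons_one, s_ff]⟩

end Pool.Agent.H85.CY3
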