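import Pool.Agent.H85.CY3.T

/-!
# The residue 2: the total
-/

set_option autoImplicit false

open Finset PowerSeries

noncomputable section

namespace Pool.Agent.H85.CY3

open Pool.Agent.H63.CY

/-- sums of indicator functions over pairs -/
theorem sum_card {d : ℕ} (hd : 1 ≤ d) (P : (Fin d → Bool × Bool) → Prop) [DecidablePred P] (hP : ∀ w, P w → df w d = 0) :
    ∑ p ∈ range (d + 1), ∑ U ∈ L0 d p, ∑ V ∈ L0 d p, (if P (wd d U V) then (1 : ℤ) else 0) =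
      (((univ : Finset (Fin d → Bool × Bool)).filter P).card : ℤ) := by
  have h := sum_words' hd (fun w => if P w then (1 : ℤ) else 0)
  rw [sum_filter] at h
  rw [Finset.card_filter]
  push_cast
  have h2 : ∑ w : Fin d → Bool × Bool, (if P w then (1 : ℤ) else 0) =
      ∑ w : Fin d → Bool × Bool, (if df w d = 0 then (if P w then (1 : ℤ) else 0) else 0) := by
    refine sum_congr rfl fun w _ => ?_
    by_cases h1 : P w
    · simp [h1, hP w h1]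
    · simp [h1]
  rw [h2, ← h]
  rfl

theorem mxx_bounds {d p : ℕ} (hd : 1 ≤ d) {U V : ℤ → ℤ} (hU : U ∈ LF0 d p) (hV : V ∈ LF0 d p) :
    0 ≤ mxx d 0 U V ∧ mxx d 0 U V ≤ d := by
  obtain ⟨hMf, i0, hi0⟩ := mxx_spec hd hU hV
  have hper : ∀ i, (fun i => U i - V i) (i + d) = (fun i => U i - V i) i := fun i => CTC_per0 hU hV i
  obtain ⟨k0, hk0, hk1', -⟩ := per_red (f := fun i => U i - V i) hd hper i0
  have hk1 : U k0 - V k0 = U i0 - V i0 := hk1'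
  have h0 := hMf 0
  rw [hU.2, hV.2] at h0
  have h1 := df_ge (wd d U V) k0
  rw [df_wd hU hV k0 hk0.le] at h1
  constructor <;> omega

open Classical in
theorem two_split {d p : ℕ} (hd : 1 ≤ d) {U V : ℤ → ℤ} (hU : U ∈ LF0 d p) (hV : V ∈ LF0 d p) :
    mxx d 0 U V - mxx d 2 U V =
      ∑ m ∈ range d, (if (L2 d 0 ((m : ℤ) + 1) (wd d U V) ∧ ∃ j ≤ d, df (wd d U V) j ≤ -((m : ℤ) + 1)) then (1 : ℤ) else 0) +
      (if ¬ BP d U V ∧ mxx d 0 U V = 0 then (1 : ℤ) else 0) := by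
  rw [mxx_two hd hU hV]
  obtain ⟨b1, b2⟩ := mxx_bounds hd hU hV
  have e : ∀ m ∈ range d, (if (L2 d 0 ((m : ℤ) + 1) (wd d U V) ∧ ∃ j ≤ d, df (wd d U V) j ≤ -((m : ℤ) + 1)) then (1 : ℤ) else 0) =
      if ¬ BP d U V ∧ mxx d 0 U V = (m : ℤ) + 1 then 1 else 0 := by
    intro m _
    have h := word_iff hd hU hV (m := (m : ℤ) + 1) (by omega)
    by_cases h1 : ¬ BP d U V ∧ mxx d 0 U V = (m : ℤ) + 1
    · rw [if_pos h1, if_pos (h.1 h1)]
    · rw [if_neg h1, if_neg (fun h2 => h1 (h.2 h2))]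
  rw [sum_congr rfl e]
  by_cases hB : BP d U V
  · simp [hB]
  · rw [if_neg hB]
    obtain ⟨N, hN⟩ := Int.eq_ofNat_of_zero_le b1
    rcases Nat.eq_zero_or_pos N with h0 | h0
    · rw [if_pos ⟨hB, by rw [hN, h0]; rfl⟩, sum_eq_zero]
      · ring
      · intro m _
        rw [if_neg]
        rintro ⟨_, h⟩
        omega
    · rw [if_neg (by rintro ⟨_, h⟩; omega), sum_eq_single (N - 1)]
      · rw [if_pos ⟨hB, by omega⟩]
        ring
      · intro m _ hm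
        rw [if_neg]
        rintro ⟨_, h⟩
        omega
      · intro h
        rw [mem_range] at h
        omega

theorem hk_iff {d p k : ℕ} (hk : 1 ≤ k) (hkd : k ≤ d) {U V : ℤ → ℤ} (hU : U ∈ LF0 d p) (hV : V ∈ LF0 d p) :
    (¬ BP d U V ∧ mxx d 0 U V = 1 ∧ ∀ j : ℕ, 1 ≤ j → j ≤ k → U j - V j = 1) ↔
      (L2 d 0 1 (wd d U V) ∧ ∀ j : ℕ, 1 ≤ j → j ≤ k → df (wd d U V) j = -1) := by
  have hd : 1 ≤ d := by omega
  have h := word_iff hd hU hV (m := 1) le_rfl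
  constructor
  · rintro ⟨h1, h2, h3⟩
    refine ⟨(h.1 ⟨h1, h2⟩).1, fun j hj hj2 => ?_⟩
    rw [df_wd hU hV j (by omega)]
    have := h3 j hj hj2
    omega
  · rintro ⟨h1, h2⟩
    obtain ⟨h3, h4⟩ := h.2 ⟨h1, 1, by omega, (h2 1 le_rfl hk).le⟩
    refine ⟨h3, h4, fun j hj hj2 => ?_⟩
    have := h2 j hj hj2
    rw [df_wd hU hV j (by omega)] at this
    omega

open Classical in
theorem hk_one {d p : ℕ} (hd : 1 ≤ d) {U V : ℤ → ℤ} (hU : U ∈ LF0 d p) (hV : V ∈ LF0 d p) :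
    hk d 1 U V = if (L2 d 0 1 (wd d U V) ∧ df (wd d U V) 1 = -1) then 1 else 0 := by
  unfold hk
  have h := hk_iff le_rfl hd hU hV
  have e : (∀ j : ℕ, 1 ≤ j → j ≤ 1 → df (wd d U V) j = -1) ↔ df (wd d U V) 1 = -1 := by
    constructor
    · intro h
      exact h 1 le_rfl le_rfl
    · intro h j h1 h2
      obtain rfl : j = 1 := by omega
      exact h
  rw [e] at h
  by_cases h1 : L2 d 0 1 (wd d U V) ∧ df (wd d U V) 1 = -1
  · rw [if_pos h1, if_pos (h.2 h1)]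
  · rw [if_neg h1, if_neg (fun h2 => h1 (h.1 h2))]

open Classical in
theorem hk_two {d p : ℕ} (hd : 2 ≤ d) {U V : ℤ → ℤ} (hU : U ∈ LF0 d p) (hV : V ∈ LF0 d p) :
    hk d 2 U V = if (L2 d 0 1 (wd d U V) ∧ df (wd d U V) 1 = -1 ∧ df (wd d U V) 2 = -1) then 1 else 0 := by
  unfold hk
  have h := hk_iff (by norm_num) hd hU hV
  have e : (∀ j : ℕ, 1 ≤ j → j ≤ 2 → df (wd d U V) j = -1) ↔ df (wd d U V) 1 = -1 ∧ df (wd d U V) 2 = -1 := by
    constructor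
    · intro h
      exact ⟨h 1 (by norm_num) (by norm_num), h 2 (by norm_num) (by norm_num)⟩
    · rintro ⟨h1, h2⟩ j h3 h4
      rcases (by omega : j = 1 ∨ j = 2) with rfl | rfl
      · exact h1
      · exact h2
  rw [e] at h
  by_cases h1 : L2 d 0 1 (wd d U V) ∧ df (wd d U V) 1 = -1 ∧ df (wd d U V) 2 = -1
  · rw [if_pos h1, if_pos (h.2 h1)]
  · rw [if_neg h1, if_neg (fun h2 => h1 (h.1 h2))]

open Classical in
theorem hk_three {d p : ℕ} (hd : 3 ≤ d) {U V : ℤ → ℤ} (hU : U ∈ LF0 d p) (hV : V ∈ LF0 d p) :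
    hk d 3 U V = if (L2 d 0 1 (wd d U V) ∧ df (wd d U V) 1 = -1 ∧ df (wd d U V) 2 = -1 ∧ df (wd d U V) 3 = -1) then 1 else 0 := by
  unfold hk
  have h := hk_iff (by norm_num) hd hU hV
  have e : (∀ j : ℕ, 1 ≤ j → j ≤ 3 → df (wd d U V) j = -1) ↔
      df (wd d U V) 1 = -1 ∧ df (wd d U V) 2 = -1 ∧ df (wd d U V) 3 = -1 := by
    constructor
    · intro h
      exact ⟨h 1 (by norm_num) (by norm_num), h 2 (by norm_num) (by norm_num), h 3 (by norm_num) (by norm_num)⟩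
    · rintro ⟨h1, h2, h3⟩ j h4 h5
      rcases (by omega : j = 1 ∨ j = 2 ∨ j = 3) with rfl | rfl | rfl
      · exact h1
      · exact h2
      · exact h3
  rw [e] at h
  by_cases h1 : L2 d 0 1 (wd d U V) ∧ df (wd d U V) 1 = -1 ∧ df (wd d U V) 2 = -1 ∧ df (wd d U V) 3 = -1
  · rw [if_pos h1, if_pos (h.2 h1)]
  · rw [if_neg h1, if_neg (fun h2 => h1 (h.1 h2))]

/-- the sum over all pairs, first form -/
theorem sum_two_a (c : ℕ) :
    ∑ p ∈ range (c + 3 + 1), ∑ U ∈ L0 (c + 3) p, ∑ V ∈ L0 (c + 3) p, (mxx (c + 3) 0 U V - mxx (c + 3) 2 U V) =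
      Psi (X ^ 2 * ((1 + zz) ^ 2 * Di)) (c + 3) 0 +
        (g2 (c + 2) 1 0 + (gx (true, true) (c + 1) 1 + gx (false, false) (c + 1) 1) + gx (false, false) c 1) := by
  classical
  have hd : 1 ≤ c + 3 := by omega
  have e1 : ∀ p ∈ range (c + 3 + 1), ∑ U ∈ L0 (c + 3) p, ∑ V ∈ L0 (c + 3) p, (mxx (c + 3) 0 U V - mxx (c + 3) 2 U V) =
      ∑ m ∈ range (c + 3), ∑ U ∈ L0 (c + 3) p, ∑ V ∈ L0 (c + 3) p,
        (if (L2 (c + 3) 0 ((m : ℤ) + 1) (wd (c + 3) U V) ∧ ∃ j ≤ c + 3, df (wd (c + 3) U V) j ≤ -((m : ℤ) + 1)) then (1 : ℤ) else 0) +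
      (∑ U ∈ L0 (c + 3) p, ∑ V ∈ L0 (c + 3) p, (if (L2 (c + 3) 0 1 (wd (c + 3) U V) ∧ df (wd (c + 3) U V) 1 = -1) then (1 : ℤ) else 0) +
       ∑ U ∈ L0 (c + 3) p, ∑ V ∈ L0 (c + 3) p, (if (L2 (c + 3) 0 1 (wd (c + 3) U V) ∧ df (wd (c + 3) U V) 1 = -1 ∧
          df (wd (c + 3) U V) 2 = -1) then (1 : ℤ) else 0) +
       ∑ U ∈ L0 (c + 3) p, ∑ V ∈ L0 (c + 3) p, (if (L2 (c + 3) 0 1 (wd (c + 3) U V) ∧ df (wd (c + 3) U V) 1 = -1 ∧
          df (wd (c + 3) U V) 2 = -1 ∧ df (wd (c + 3) U V) 3 = -1) then (1 : ℤ) else 0)) := by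
    intro p _
    have a0 : ∑ U ∈ L0 (c + 3) p, ∑ V ∈ L0 (c + 3) p, (mxx (c + 3) 0 U V - mxx (c + 3) 2 U V) =
        ∑ U ∈ L0 (c + 3) p, ∑ V ∈ L0 (c + 3) p, (∑ m ∈ range (c + 3),
          (if (L2 (c + 3) 0 ((m : ℤ) + 1) (wd (c + 3) U V) ∧ ∃ j ≤ c + 3, df (wd (c + 3) U V) j ≤ -((m : ℤ) + 1)) then (1 : ℤ) else 0) +
          (hk (c + 3) 1 (rot (-1) U) (rot (-1) V) + hk (c + 3) 2 (rot (-2) U) (rot (-2) V) + hk (c + 3) 3 (rot (-3) U) (rot (-3) V))) := by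
      refine sum_congr rfl fun U hU => sum_congr rfl fun V hV => ?_
      rw [two_split hd ((mem_L0 hd).1 hU) ((mem_L0 hd).1 hV), max_zero hd ((mem_L0 hd).1 hU) ((mem_L0 hd).1 hV)]
    rw [a0]
    simp only [sum_add_distrib]
    rw [sum_rot2 (p := p) hd (-1) (fun U V => hk (c + 3) 1 U V), sum_rot2 (p := p) hd (-2) (fun U V => hk (c + 3) 2 U V),
      sum_rot2 (p := p) hd (-3) (fun U V => hk (c + 3) 3 U V)]
    congr 1
    · rw [sum_comm' (s := range (c + 3)) (t' := L0 (c + 3) p) (s' := fun _ => range (c + 3)) (t := fun _ => L0 (c + 3) p) (by simp [and_comm])]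
      refine sum_congr rfl fun U _ => ?_
      rw [sum_comm]
    · congr 1
      · congr 1
        · exact sum_congr rfl fun U hU => sum_congr rfl fun V hV => hk_one (by omega) ((mem_L0 hd).1 hU) ((mem_L0 hd).1 hV)
        · exact sum_congr rfl fun U hU => sum_congr rfl fun V hV => hk_two (by omega) ((mem_L0 hd).1 hU) ((mem_L0 hd).1 hV)
      · exact sum_congr rfl fun U hU => sum_congr rfl fun V hV => hk_three (by omega) ((mem_L0 hd).1 hU) ((mem_L0 hd).1 hV)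
  rw [sum_congr rfl e1, sum_add_distrib, sum_add_distrib, sum_add_distrib, sum_comm]
  have e2 : ∑ m ∈ range (c + 3), ∑ p ∈ range (c + 3 + 1), ∑ U ∈ L0 (c + 3) p, ∑ V ∈ L0 (c + 3) p,
        (if (L2 (c + 3) 0 ((m : ℤ) + 1) (wd (c + 3) U V) ∧ ∃ j ≤ c + 3, df (wd (c + 3) U V) j ≤ -((m : ℤ) + 1)) then (1 : ℤ) else 0) =
      ∑ m ∈ range (c + 3), R1 (c + 3) ((m : ℤ) + 1) := by
    refine sum_congr rfl fun m _ => ?_
    unfold R1
    rw [← sum_card hd _ (fun w h => h.1.1)]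
  rw [e2, R1_sum]
  rw [sum_card hd (fun w => L2 (c + 3) 0 1 w ∧ df w 1 = -1) (fun w h => h.1.1),
    sum_card hd (fun w => L2 (c + 3) 0 1 w ∧ df w 1 = -1 ∧ df w 2 = -1) (fun w h => h.1.1),
    sum_card hd (fun w => L2 (c + 3) 0 1 w ∧ df w 1 = -1 ∧ df w 2 = -1 ∧ df w 3 = -1) (fun w h => h.1.1)]
  have q1 := H1 (c + 2)
  have q2 := H2 (c + 1)
  have q3 := H3 c
  rw [← q1, ← q2, ← q3]

end Pool.Agent.H85.CY3
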