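import Pool.Agent.H85.CY3.U

/-!
# The residue 2: the generating function and the final formula
-/

set_option autoImplicit false

open Finset PowerSeries

noncomputable section

namespace Pool.Agent.H85.CY3

open Pool.Agent.H63.CY

theorem g2_up (j : ℕ) : g2 j 0 1 = Psi th (j + 1) 1 := by
  rw [g2_eq j 0 1 (by norm_num) (by norm_num), th_eq, Psi_add, Psi_XX,
    show (1 - X : ℤ⟦X⟧) ^ 2 = (1 - X) ^ 2 * 1 by ring, Psi_inv _ _ _ le_rfl, Psi_one]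
  congr 1

theorem Psi_three (φ : ℤ⟦X⟧) (d : ℕ) (t : ℤ) : Psi (3 * φ) d t = 3 * Psi φ d t := by
  rw [show (3 * φ : ℤ⟦X⟧) = 2 * φ + φ by ring, Psi_add, Psi_two]
  ring

/-- the pairs with maximum 0 -/
theorem zero_total (c : ℕ) : g2 (c + 2) 1 0 + (gx (true, true) (c + 1) 1 + gx (false, false) (c + 1) 1) + gx (false, false) c 1 =
    Psi (X ^ 2 * ((1 + zz) * (1 + 3 * zz) * th)) (c + 3) 0 := by
  have f1 := g2_floor (c + 1) 1
  have f2 := gx_ff c 1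
  have f3 := gx_tt c 1
  rw [show (1 : ℤ) - 1 = 0 by norm_num] at f1 f2 f3
  rw [show c + 1 + 1 = c + 2 by ring] at f1
  rw [g2_up] at f1 f2 f3
  have f0 : g2 (c + 2) 1 0 = Psi ((1 + zz) ^ 2 * th) (c + 2) 1 := by
    rw [g2_eq (c + 2) 1 0 (by norm_num) (by norm_num), ← Psi_one, show (1 : ℤ) + 2 * 0 = 1 by norm_num, ← Psi_add]
    congr 1
    unfold eta
    ring
  have f4 : Psi th (c + 1) 1 = Psi (zz * th) (c + 2) 1 := by
    rw [← Psi_z th (c + 1) 1 (by norm_num)]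
    rfl
  have f5 : Psi (X ^ 2 * ((1 + zz) * (1 + 3 * zz) * th)) (c + 3) 0 =
      3 * Psi ((1 + zz) ^ 2 * th) (c + 2) 1 - 2 * Psi th (c + 2) 1 - 2 * Psi (zz * th) (c + 2) 1 := by
    rw [Psi_XX, show (0 : ℤ) + 1 = 1 by norm_num, ← Psi_three, ← Psi_two, ← Psi_two, ← Psi_sub, ← Psi_sub]
    congr 1
    ring
  rw [f5]
  rw [f4] at f2 f3
  rw [f0] at f1 ⊢
  rw [show c + 1 + 1 = c + 2 by ring] at f1
  linarith

/-- power sums of the roots of `y^3 + y^2 + y - 1` -/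
def tl : ℕ → ℤ
  | 0 => 3
  | 1 => -1
  | 2 => -1
  | n + 3 => tl n - tl (n + 1) - tl (n + 2)

theorem tl_zero : tl 0 = 3 := rfl
theorem tl_one : tl 1 = -1 := rfl
theorem tl_two : tl 2 = -1 := rfl
theorem tl_rec (n : ℕ) : tl (n + 3) = tl n - tl (n + 1) - tl (n + 2) := rfl

def GA : ℤ⟦X⟧ := mk fun _ => 1
def GB : ℤ⟦X⟧ := mk fun k => (-1) ^ k
def GT : ℤ⟦X⟧ := mk tl

theorem GA_eq : GA * (1 - X) = 1 := by
  unfold GA
  ext n
  rw [mul_sub, mul_one]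
  rcases n with _ | n
  · simp
  · simp [coeff_succ_mul_X, coeff_one]

theorem GB_eq : GB * (1 + X) = 1 := by
  unfold GB
  ext n
  rw [mul_add, mul_one]
  rcases n with _ | n
  · simp
  · simp [coeff_succ_mul_X, coeff_one, pow_succ]

theorem GT_eq : GT * (1 + X + X ^ 2 - X ^ 3) = 3 + 2 * X + X ^ 2 := by
  have h : GT * (1 + X + X ^ 2 - X ^ 3) = GT + X * GT + X ^ 2 * GT - X ^ 3 * GT := by ring
  rw [h]
  ext n
  rw [map_sub, map_add, map_add, map_add, map_add]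
  have e3 : coeff n (3 : ℤ⟦X⟧) = if n = 0 then 3 else 0 := by
    rw [show (3 : ℤ⟦X⟧) = C (3 : ℤ) by simp, coeff_C]
  have e2 : coeff n (2 * X : ℤ⟦X⟧) = if n = 1 then 2 else 0 := by
    rw [show (2 * X : ℤ⟦X⟧) = C (2 : ℤ) * X by simp, coeff_C_mul, coeff_X]
    split_ifs <;> simp
  have e1 : coeff n (X ^ 2 : ℤ⟦X⟧) = if n = 2 then 1 else 0 := coeff_X_pow n 2
  rw [e3, e2, e1]
  have c0 : coeff n GT = tl n := by unfold GT; rw [coeff_mk]
  rw [c0, show (X * GT : ℤ⟦X⟧) = X ^ 1 * GT by ring]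
  simp only [coeff_X_pow_mul']
  unfold GT
  simp only [coeff_mk]
  rcases n with _ | _ | _ | n
  · simp [tl_zero]
  · norm_num [tl_zero, tl_one]
  · norm_num [tl_zero, tl_one, tl_two]
  · rw [if_pos (by omega), if_pos (by omega), if_pos (by omega), if_neg (by omega), if_neg (by omega), if_neg (by omega),
      show n + 1 + 1 + 1 - 1 = n + 2 by omega, show n + 1 + 1 + 1 - 2 = n + 1 by omega, show n + 1 + 1 + 1 - 3 = n by omega,
      show n + 1 + 1 + 1 = n + 3 by ring, tl_rec]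
    ring

/-- the generating function -/
def Gf : ℤ⟦X⟧ := 2 * GA + GB + GT - 6

theorem Gf_DD : DD * Gf = 2 * X ^ 2 * (1 + zz) * (1 - X) * (1 + 3 * X) := by
  unfold DD Gf zz
  linear_combination (2 * (1 - X) * (1 + X) * (1 + X + X ^ 2 - X ^ 3)) * GA_eq + ((1 - X) ^ 2 * (1 + X + X ^ 2 - X ^ 3)) * GB_eq +
    ((1 - X) ^ 2 * (1 + X)) * GT_eq

theorem Gf_eq : Gf = 2 * X ^ 2 * (1 + zz) * (1 - X) * (1 + 3 * X) * Di := by
  have h1 := DD_Di
  have h2 := Gf_DD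
  calc Gf = (DD * Di) * Gf := by rw [h1, one_mul]
    _ = (DD * Gf) * Di := by ring
    _ = _ := by rw [h2]

theorem Gf_coeff (k : ℕ) (hk : 1 ≤ k) : coeff k Gf = 2 + (-1) ^ k + tl k := by
  unfold Gf GA GB GT
  have e6 : coeff k (6 : ℤ⟦X⟧) = 0 := by
    rw [show (6 : ℤ⟦X⟧) = C (6 : ℤ) by simp, coeff_C, if_neg (by omega)]
  have e2 : coeff k (2 * mk fun _ => (1 : ℤ)) = 2 := by
    rw [show (2 : ℤ⟦X⟧) = C (2 : ℤ) by simp, coeff_C_mul, coeff_mk, mul_one]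
  rw [map_sub, map_add, map_add, e6, e2, coeff_mk, coeff_mk, sub_zero]

theorem Gf_zero : coeff 0 Gf = 0 := by
  rw [Gf_eq, show (2 * X ^ 2 * (1 + zz) * (1 - X) * (1 + 3 * X) * Di : ℤ⟦X⟧) = X ^ 2 * (2 * (1 + zz) * (1 - X) * (1 + 3 * X) * Di) by ring,
    coeff_X_pow_mul']
  simp

/-- the sum over all pairs for the residue 2 -/
theorem sum_two {d : ℕ} (hd : 3 ≤ d) :
    ∑ p ∈ range (d + 1), ∑ U ∈ L0 d p, ∑ V ∈ L0 d p, (mxx d 0 U V - mxx d 2 U V) =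
      ∑ k ∈ Icc 1 d, (2 + (-1) ^ k + tl k) * ((2 * d - 1 - k).choose (d - 1) : ℤ) := by
  obtain ⟨c, rfl⟩ := Nat.exists_eq_add_of_le' hd
  rw [sum_two_a, zero_total, ← Psi_add]
  have e : X ^ 2 * ((1 + zz) ^ 2 * Di) + X ^ 2 * ((1 + zz) * (1 + 3 * zz) * th) = (1 - X) * Gf := by
    rw [Gf_eq]
    unfold th zz
    ring
  rw [e, Psi_val _ _ (by omega)]
  rw [range_eq_Ico, sum_eq_sum_Ico_succ_bot (by omega), Gf_zero, zero_mul, zero_add]
  refine sum_congr (by ext k; simp only [mem_Ico, mem_Icc]; omega) fun k hk => ?_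
  rw [mem_Icc] at hk
  rw [Gf_coeff k hk.1]

/-- residue 2 -/
theorem W_two {n d e : ℕ} (hd : 3 ≤ d) (he : 1 ≤ e) (hn : n = e * d + 2) :
    2 * (W n d : ℤ) = 3 * (2 * d).choose d - 4 ^ d + 2 * e * ((d - 1) * (2 * d - 2).choose (d - 1)) +
      2 * ∑ k ∈ Icc 1 d, (2 + (-1) ^ k + tl k) * ((2 * d - 1 - k).choose (d - 1) : ℤ) := by
  have hd1 : 1 ≤ d := by omega
  have hed : d ≤ e * d := by nlinarith
  rw [W_TS hd1 (by omega)]
  have h := TS_diff (n := n) (m := e * d) (d := d) (e := e) (r := 2) (s := 0) hd1 (by rw [hn]; push_cast; ring) (by ring) (by omega) hed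
    (fun p U V hp hU hV => by rw [mxx_end hd1 _ hp hU hV, mxx_end hd1 _ hp hU hV]; ring)
  rw [sum_two hd] at h
  have h2 := TS_mult hd1 he
  rw [h]
  linarith

end Pool.Agent.H85.CY3
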