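import Pool.Agent.H85.CY3.V

/-!
# The three residues in one form
-/

set_option autoImplicit false

open Finset

noncomputable section

namespace Pool.Agent.H85.CY3

open Pool.Agent.H63.CY

theorem sum_pairs (h : ℕ → ℤ) (N : ℕ) : ∑ k ∈ range (2 * N), h k = ∑ i ∈ range N, (h (2 * i) + h (2 * i + 1)) := by
  induction N with
  | zero => simp
  | succ N ih =>
    rw [show 2 * (N + 1) = 2 * N + 1 + 1 by ring, sum_range_succ, sum_range_succ, ih, sum_range_succ]
    ring

/-- sums with coefficients supported on the even numbers -/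
theorem sum_even {d : ℕ} (hd : 2 ≤ d) (g : ℕ → ℤ) (hg : ∀ i, g (2 * i + 1) = 0) :
    ∑ k ∈ Icc 1 d, g k * ((2 * d - 1 - k).choose (d - 1) : ℤ) =
      ∑ i ∈ range d, g (2 * i + 2) * ((2 * d - 3 - 2 * i).choose (d - 1) : ℤ) := by
  have h1 : ∑ k ∈ Icc 1 d, g k * ((2 * d - 1 - k).choose (d - 1) : ℤ) =
      ∑ k ∈ range (2 * d), g (k + 1) * ((2 * d - 1 - (k + 1)).choose (d - 1) : ℤ) := by
    rw [RFB_Icc d (fun k => g k * ((2 * d - 1 - k).choose (d - 1) : ℤ))]
    refine sum_subset ?_ ?_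
    · intro k hk
      rw [mem_range] at hk ⊢
      omega
    · intro k _ hk
      rw [mem_range] at hk
      rw [Nat.choose_eq_zero_of_lt (by omega)]
      simp
  rw [h1, sum_pairs]
  refine sum_congr rfl fun i _ => ?_
  rw [hg i, show 2 * d - 1 - (2 * i + 1 + 1) = 2 * d - 3 - 2 * i by omega]
  ring

/-- second closed form for the residue 1 -/
theorem one_even {d : ℕ} (hd : 2 ≤ d) : ∑ i ∈ range d, ((2 * d - 2 - 2 * i).choose (d - 2) : ℤ) =
    2 * ∑ i ∈ range d, ((2 * d - 3 - 2 * i).choose (d - 1) : ℤ) := by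
  have h1 := XS_tel 1 (by norm_num) d (d - 2) (by omega)
  rw [show d - 2 + 1 = d - 1 by omega, show d - 2 + 2 = d by omega] at h1
  have h2 : ∀ m, m ≤ d → ∑ i ∈ range m, (((2 * d - 2 - 2 * i).choose (d - 2) : ℤ) + ((2 * d - 2 - 2 * i).choose (d - 1) : ℤ)) =
      ((2 * d - 1).choose (d - 1) : ℤ) + ∑ i ∈ range m, ((2 * d - 3 - 2 * i).choose (d - 1) : ℤ) -
        ((2 * d - 1 - 2 * m).choose (d - 1) : ℤ) := by
    intro m
    induction m with
    | zero => intro _; simp
    | succ m ih =>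
      intro hm
      rw [sum_range_succ, sum_range_succ, ih (by omega)]
      have e := Nat.choose_succ_succ (2 * d - 2 - 2 * m) (d - 2)
      rw [show (2 * d - 2 - 2 * m).succ = 2 * d - 1 - 2 * m by omega, show (d - 2).succ = d - 1 by omega] at e
      have e' : ((2 * d - 1 - 2 * m).choose (d - 1) : ℤ) = (2 * d - 2 - 2 * m).choose (d - 2) + (2 * d - 2 - 2 * m).choose (d - 1) := by
        exact_mod_cast e
      rw [e', show 2 * d - 1 - 2 * (m + 1) = 2 * d - 3 - 2 * m by omega]
      ring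
  have h3 := h2 d le_rfl
  rw [show 2 * d - 1 - 2 * d = 0 by omega, Nat.choose_eq_zero_of_lt (by omega : 0 < d - 1)] at h3
  rw [sum_add_distrib] at h3
  have h4 : ((2 * d).choose d : ℤ) = 2 * (2 * d - 1).choose (d - 1) := by
    have e := Nat.choose_succ_succ (2 * d - 1) (d - 1)
    rw [show (2 * d - 1).succ = 2 * d by omega, show (d - 1).succ = d by omega] at e
    have e2 := Nat.choose_symm_of_eq_add (show 2 * d - 1 = d + (d - 1) by omega)
    have e3 : (2 * d).choose d = 2 * (2 * d - 1).choose (d - 1) := by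
      rw [e, e2]
      ring
    exact_mod_cast e3
  unfold XS at h1
  simp only [one_pow, one_mul] at h1
  push_cast at h3
  rw [h4] at h1
  linarith

end Pool.Agent.H85.CY3
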